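import Pool.Agent.H16.SW.Defs

/-!
# [H16 SW AAL] Almost all `n`: elementary facts

PROOFS. All from the facts of `H2/WE/Exl.lean` about `ex N Q` (number of the `n ∈ [1, N]` without `Q`).
`AA_ev`: `ex_mono` for the large `i`. `AA_and`: `ex_and` with `ε/2`. `AA_all`: induction on `s`. `AA_shift`: `ex_shift`: `ex (N i) (Q i (· + a)) ≤ ex (N i) (Q i) + |a|`, and `|a| ≤ (ε/2) N i` for large `i`.
`AA_large`: at most `B` exceptions. `AA_dil`: `m ↦ a m` is injective and maps `[1, N/a]` to `[1, N]`, so `ex (N i / a) (Q i (a ·)) ≤ ex (N i) (Q i) ≤ (ε/(2a)) N i ≤ ε (N i / a)` as soon as `N i ≥ 2a`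
(`N ≤ 2 a (N/a)`). `AA_res`: `ex (N i / a) (Q i) ≤ ex (N i) (Q i)`, the same count. `AA_div`: the exceptions are the `n = a m` with `m ∈ [1, N]` an exception of `Q`, `n ↦ n / a` is injective on the multiples of `a`. `Inf_div`: clear.
`AA_pick`: let `A = ∑ a_j + 1`, `T = ∑ |b_j| + B + 1`. The `n ∈ [T, (N i - T)/A]` with `n ≡ r mod R` are at least `N i/(2 A R)` many for large `i` (`N i ≥ 4 A R (T + 2)`, say); they satisfy `1 ≤ a_j n + b_j ≤ N i`. For each `j` the map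
`n ↦ a_j n + b_j` is injective, so at most `ex (N i) (Q j i) ≤ ε N i` of them fail `Q j i (a_j n + b_j)`; with `ε = 1/(4 A R (#s + 1))` some `n` is left.
-/

set_option autoImplicit false

namespace Pool.H16.SW

open Finset Pool.H2.MR Pool.H2.WE

private theorem exs (N : ℕ) (Q : ℤ → Prop) : ∃ S : Finset ℤ, ex N Q = S.card ∧ ∀ n, n ∈ S ↔ (1 ≤ n ∧ n ≤ N) ∧ ¬ Q n := by
  classical
  refine ⟨(Icc (1 : ℤ) N).filter (fun n => ¬ Q n), ?_, ?_⟩
  · unfold ex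
    congr 1
  · intro n
    rw [mem_filter, mem_Icc]

private theorem ex_zero (N : ℕ) (Q : ℤ → Prop) (h : ∀ n : ℤ, 1 ≤ n → n ≤ N → Q n) : ex N Q = 0 := by
  obtain ⟨S, hS, hmem⟩ := exs N Q
  rw [hS, Finset.card_eq_zero]
  apply Finset.eq_empty_of_forall_notMem
  intro n hn
  rw [hmem] at hn
  exact hn.2 (h n hn.1.1 hn.1.2)

private theorem ex_inj (N N' : ℕ) (Q Q' : ℤ → Prop) (f : ℤ → ℤ) (hf : ∀ m : ℤ, 1 ≤ m → m ≤ N' → ¬ Q' m → (1 ≤ f m ∧ f m ≤ N) ∧ ¬ Q (f m))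
    (hi : ∀ m m' : ℤ, 1 ≤ m → ¬ Q' m → 1 ≤ m' → ¬ Q' m' → f m = f m' → m = m') : ex N' Q' ≤ ex N Q := by
  classical
  obtain ⟨S, hS, hmem⟩ := exs N Q
  obtain ⟨S', hS', hmem'⟩ := exs N' Q'
  rw [hS, hS']
  refine Finset.card_le_card_of_injOn f ?_ ?_
  · intro m hm
    rw [Finset.mem_coe, hmem'] at hm
    rw [Finset.mem_coe, hmem]
    exact hf m hm.1.1 hm.1.2 hm.2
  · intro m hm m' hm' he
    rw [Finset.mem_coe, hmem'] at hm hm'
    exact hi m m' hm.1.1 hm.2 hm'.1.1 hm'.2 he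

theorem AA_ev {N : ℕ → ℕ} {Q Q' : ℕ → ℤ → Prop} (i₀ : ℕ) (h : ∀ i, i₀ ≤ i → ∀ n : ℤ, 1 ≤ n → n ≤ N i → Q i n → Q' i n)
    (hQ : AA N Q) : AA N Q' := by
  intro ε hε
  obtain ⟨i₁, h1⟩ := hQ ε hε
  refine ⟨max i₀ i₁, fun i hi => le_trans ?_ (h1 i (le_trans (le_max_right _ _) hi))⟩
  exact_mod_cast ex_mono (h i (le_trans (le_max_left _ _) hi))

theorem AA_mono {N : ℕ → ℕ} {Q Q' : ℕ → ℤ → Prop} (h : ∀ i (n : ℤ), 1 ≤ n → n ≤ N i → Q i n → Q' i n)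
    (hQ : AA N Q) : AA N Q' :=
  AA_ev 0 (fun i _ => h i) hQ

theorem AA_true (N : ℕ → ℕ) {Q : ℕ → ℤ → Prop} (h : ∀ i (n : ℤ), 1 ≤ n → n ≤ N i → Q i n) : AA N Q := by
  intro ε hε
  refine ⟨0, fun i _ => ?_⟩
  rw [ex_zero (N i) (Q i) (h i), Nat.cast_zero]
  positivity

theorem AA_and {N : ℕ → ℕ} {Q Q' : ℕ → ℤ → Prop} (h : AA N Q) (h' : AA N Q') : AA N (fun i n => Q i n ∧ Q' i n) := by
  intro ε hε
  obtain ⟨i₁, h1⟩ := h (ε / 2) (by positivity)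
  obtain ⟨i₂, h2⟩ := h' (ε / 2) (by positivity)
  refine ⟨max i₁ i₂, fun i hi => ?_⟩
  have e1 := h1 i (le_trans (le_max_left _ _) hi)
  have e2 := h2 i (le_trans (le_max_right _ _) hi)
  have e3 : (ex (N i) (fun n => Q i n ∧ Q' i n) : ℝ) ≤ ex (N i) (Q i) + ex (N i) (Q' i) := by
    exact_mod_cast ex_and (N i) (Q i) (Q' i)
  linarith

theorem AA_all {ι : Type} (s : Finset ι) {N : ℕ → ℕ} {Q : ι → ℕ → ℤ → Prop} (h : ∀ j ∈ s, AA N (Q j)) :
    AA N (fun i n => ∀ j ∈ s, Q j i n) := by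
  classical
  induction s using Finset.induction_on with
  | empty => exact AA_true N (fun i n _ _ j hj => absurd hj (Finset.notMem_empty j))
  | insert a s ha ih =>
    refine AA_mono ?_ (AA_and (h a (Finset.mem_insert_self a s)) (ih (fun j hj => h j (Finset.mem_insert_of_mem hj))))
    intro i n _ _ hq j hj
    rcases Finset.mem_insert.1 hj with h1 | h1
    · rw [h1]
      exact hq.1
    · exact hq.2 j h1

theorem AA_shift {N : ℕ → ℕ} (hN : Inf N) {Q : ℕ → ℤ → Prop} (a : ℤ) (h : AA N Q) : AA N (fun i n => Q i (n + a)) := by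
  intro ε hε
  obtain ⟨i₁, h1⟩ := h (ε / 2) (by positivity)
  obtain ⟨i₂, h2⟩ := hN ⌈(a.natAbs : ℝ) / (ε / 2)⌉₊
  refine ⟨max i₁ i₂, fun i hi => ?_⟩
  have e1 := h1 i (le_trans (le_max_left _ _) hi)
  have e2 := h2 i (le_trans (le_max_right _ _) hi)
  have e3 : (ex (N i) (fun n => Q i (n + a)) : ℝ) ≤ ex (N i) (Q i) + a.natAbs := by
    exact_mod_cast ex_shift (N i) (Q i) a
  have e4 : (a.natAbs : ℝ) / (ε / 2) ≤ N i := (Nat.le_ceil _).trans (by exact_mod_cast e2)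
  rw [div_le_iff₀ (by positivity)] at e4
  linarith

theorem AA_large {N : ℕ → ℕ} (hN : Inf N) (B : ℤ) : AA N (fun _ n => B ≤ n) := by
  refine AA_mono ?_ (AA_shift hN (1 - B) (AA_true N (Q := fun _ n => 1 ≤ n) (fun i n h _ => h)))
  intro i n _ _ h
  omega

theorem Inf_div {N : ℕ → ℕ} (hN : Inf N) (a : ℕ) (ha : 1 ≤ a) : Inf (fun i => N i / a) := by
  intro B
  obtain ⟨i₀, h⟩ := hN (B * a)
  refine ⟨i₀, fun i hi => ?_⟩
  exact (Nat.le_div_iff_mul_le ha).2 (h i hi)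

private theorem aa_le {N : ℕ → ℕ} (hN : Inf N) (a : ℕ) (ha : 1 ≤ a) {Q Q' : ℕ → ℤ → Prop} (h : AA N Q)
    (hle : ∀ i, ex (N i / a) (Q' i) ≤ ex (N i) (Q i)) : AA (fun i => N i / a) Q' := by
  intro ε hε
  have ha0 : (0 : ℝ) < a := by exact_mod_cast ha
  obtain ⟨i₁, h1⟩ := h (ε / (2 * a)) (by positivity)
  obtain ⟨i₂, h2⟩ := hN (2 * a)
  refine ⟨max i₁ i₂, fun i hi => ?_⟩
  have e1 := h1 i (le_trans (le_max_left _ _) hi)
  have e2 := h2 i (le_trans (le_max_right _ _) hi)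
  have e3 : (ex (N i / a) (Q' i) : ℝ) ≤ ex (N i) (Q i) := by exact_mod_cast hle i
  have e4 : N i ≤ 2 * a * (N i / a) := by
    have h3 := Nat.div_add_mod (N i) a
    have h4 := Nat.mod_lt (N i) (show 0 < a by omega)
    have h5 : 1 ≤ N i / a := (Nat.le_div_iff_mul_le ha).2 (by omega)
    nlinarith
  have e5 : (N i : ℝ) ≤ 2 * a * ((N i / a : ℕ) : ℝ) := by exact_mod_cast e4
  refine e3.trans (e1.trans ?_)
  rw [div_mul_eq_mul_div, div_le_iff₀ (by positivity)]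
  calc ε * (N i : ℝ) ≤ ε * (2 * a * ((N i / a : ℕ) : ℝ)) := mul_le_mul_of_nonneg_left e5 hε.le
    _ = ε * ((N i / a : ℕ) : ℝ) * (2 * a) := by ring

theorem AA_dil {N : ℕ → ℕ} (hN : Inf N) (a : ℕ) (ha : 1 ≤ a) {Q : ℕ → ℤ → Prop} (h : AA N Q) :
    AA (fun i => N i / a) (fun i m => Q i (a * m)) := by
  refine aa_le hN a ha h ?_
  intro i
  refine ex_inj (N i) (N i / a) (Q i) (fun m => Q i (a * m)) (fun m => a * m) ?_ ?_
  · intro m h1 h2 h3
    refine ⟨⟨?_, ?_⟩, h3⟩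
    · have : (1 : ℤ) ≤ a := by exact_mod_cast ha
      nlinarith
    · have h4 : (a : ℤ) * ((N i / a : ℕ) : ℤ) ≤ N i := by exact_mod_cast Nat.mul_div_le (N i) a
      have h5 : (0 : ℤ) ≤ a := by positivity
      nlinarith
  · intro m m' _ _ _ _ he
    have h5 : (a : ℤ) ≠ 0 := by omega
    exact mul_left_cancel₀ h5 he

theorem AA_res {N : ℕ → ℕ} (hN : Inf N) (a : ℕ) (ha : 1 ≤ a) {Q : ℕ → ℤ → Prop} (h : AA N Q) :
    AA (fun i => N i / a) Q := by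
  refine aa_le hN a ha h ?_
  intro i
  refine ex_inj (N i) (N i / a) (Q i) (Q i) (fun m => m) ?_ ?_
  · intro m h1 h2 h3
    refine ⟨⟨h1, h2.trans ?_⟩, h3⟩
    exact_mod_cast Nat.div_le_self (N i) a
  · intro m m' _ _ _ _ he
    exact he

theorem AA_div {N : ℕ → ℕ} (a : ℕ) (ha : 1 ≤ a) {Q : ℕ → ℤ → Prop} (h : AA N Q) :
    AA N (fun i n => ∀ m : ℤ, n = a * m → Q i m) := by
  intro ε hε
  obtain ⟨i₁, h1⟩ := h ε hε
  refine ⟨i₁, fun i hi => le_trans ?_ (h1 i hi)⟩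
  have ha0 : (0 : ℤ) < a := by exact_mod_cast ha
  have key : ∀ n : ℤ, ¬ (∀ m : ℤ, n = a * m → Q i m) → n = a * (n / a) ∧ ¬ Q i (n / a) := by
    intro n hn
    push Not at hn
    obtain ⟨m, hm, hq⟩ := hn
    have h2 : n / a = m := by rw [hm, Int.mul_ediv_cancel_left _ ha0.ne']
    rw [h2]
    exact ⟨hm, hq⟩
  have h2 : ex (N i) (fun n => ∀ m : ℤ, n = a * m → Q i m) ≤ ex (N i) (Q i) := by
    refine ex_inj (N i) (N i) (Q i) (fun n => ∀ m : ℤ, n = a * m → Q i m) (fun n => n / a) ?_ ?_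
    · intro n e1 e2 e3
      obtain ⟨e4, e5⟩ := key n e3
      refine ⟨⟨?_, ?_⟩, e5⟩
      · by_contra hcon
        have h3 : n / a ≤ 0 := by omega
        nlinarith
      · by_contra hcon
        have h3 : (N i : ℤ) < n / a := by omega
        have h4 : (1 : ℤ) ≤ a := by omega
        have h5 : (0 : ℤ) ≤ n / a := le_trans (by positivity) h3.le
        nlinarith
    · intro n n' _ e1 _ e2 he
      rw [(key n e1).1, (key n' e2).1, he]
  exact_mod_cast h2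

theorem AA_pick {N : ℕ → ℕ} (hN : Inf N) (R : ℕ) (hR : 1 ≤ R) (r B : ℤ) {ι : Type} (s : Finset ι) (a : ι → ℕ)
    (ha : ∀ j ∈ s, 1 ≤ a j) (b : ι → ℤ) (Q : ι → ℕ → ℤ → Prop) (hQ : ∀ j ∈ s, AA N (Q j)) :
    ∃ i₀ : ℕ, ∀ i, i₀ ≤ i → ∃ n : ℤ, B ≤ n ∧ n ≡ r [ZMOD R] ∧ ∀ j ∈ s, Q j i (a j * n + b j) := by
  classical
  obtain ⟨A, hA⟩ : ∃ A : ℕ, A = (∏ l ∈ s, a l) * R := ⟨_, rfl⟩
  have hA1 : 1 ≤ A := by
    rw [hA, Nat.one_le_iff_ne_zero]
    refine mul_ne_zero (Finset.prod_ne_zero_iff.2 fun j hj => ?_) (by omega)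
    have := ha j hj
    omega
  have hM : Inf (fun i => N i / A) := Inf_div hN A hA1
  have h1 : ∀ j ∈ s, AA (fun i => N i / A) (fun i m => Q j i (a j * (R * m + r) + b j)) := by
    intro j hj
    obtain ⟨w, hw⟩ := Finset.dvd_prod_of_mem a hj
    have hw1 : 1 ≤ w := by
      rcases Nat.eq_zero_or_pos w with h0 | h0
      · rw [hA, hw, h0] at hA1
        simp at hA1
      · exact h0
    have haR : 1 ≤ a j * R := Nat.mul_pos (ha j hj) hR
    have h2 := AA_res (Inf_div hN (a j * R) haR) w hw1 (AA_dil hN (a j * R) haR (AA_shift hN (a j * r + b j) (hQ j hj)))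
    have h3 : (fun i => N i / (a j * R) / w) = fun i => N i / A := by
      funext i
      rw [Nat.div_div_eq_div_mul, hA, hw]
      congr 1
      ring
    rw [h3] at h2
    refine AA_mono ?_ h2
    intro i m _ _ hq
    have h4 : ((a j * R : ℕ) : ℤ) * m + (a j * r + b j) = a j * (R * m + r) + b j := by
      push_cast
      ring
    rw [h4] at hq
    exact hq
  have h2 := AA_and (AA_large hM (B - r)) (AA_all s h1)
  obtain ⟨i₁, h3⟩ := h2 (1 / 2) (by norm_num)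
  obtain ⟨i₂, h4⟩ := hM 1
  refine ⟨max i₁ i₂, fun i hi => ?_⟩
  have e1 := h3 i (le_trans (le_max_left _ _) hi)
  have e2 := h4 i (le_trans (le_max_right _ _) hi)
  have e3 : ex (N i / A) (fun m => B - r ≤ m ∧ ∀ j ∈ s, Q j i (a j * (R * m + r) + b j)) < N i / A := by
    have e4 : (0 : ℝ) < ((N i / A : ℕ) : ℝ) := by exact_mod_cast e2
    have e5 : (ex (N i / A) (fun m => B - r ≤ m ∧ ∀ j ∈ s, Q j i (a j * (R * m + r) + b j)) : ℝ) < ((N i / A : ℕ) : ℝ) := by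
      refine lt_of_le_of_lt e1 ?_
      linarith
    exact_mod_cast e5
  obtain ⟨m, hm1, _, hm2, hm3⟩ := ex_pos e3
  refine ⟨R * m + r, ?_, ?_, hm3⟩
  · have h5 : (1 : ℤ) ≤ R := by exact_mod_cast hR
    nlinarith
  · exact (Int.modEq_iff_dvd.2 ⟨-m, by ring⟩)

end Pool.H16.SW
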