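import Pool.Agent.H16.SW.SIZ

/-!
# [H16 SW PAIR] Small pairs

`AQ K h t = K! t ∏ (h_j or 1)`, `Q = (AQ K h t)^2`.

PROOF. Write `A = AQ K h t`, `r = i + 1 ∈ {1..K}` (`i : Fin K`), so `r ∣ K!`, and `r h_j t ∣ A` for `h_j ≠ 0`, `r t ∣ A`. Let `n = Q m`, `m ≡ 1 mod Q`, `n ≥ 1` (so `m ≥ 1`), and `k = n/(r t) = (Q/(r t)) m`. Claim: for every `j` there is a constant `ρ_j` (depending on `i`, on the index of the sequence and on `j`, not on `n`) of modulus 1 with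
`gm g_j (n + r h_j t) = ρ_j gm g_j (k + h_j)` if `g_j` does not vanish at `n + r h_j t` and at `k + h_j`.
* `h_j ≠ 0`: let `u = 1 + n/(r h_j t)` (`r h_j t ∣ A ∣ n`). `n/(r h_j t) = (A/(r h_j t)) A m` is divisible by `A`, so `u ≡ 1 mod A`, `u` is coprime to `A`, hence to `r h_j t` and to `h_j`. `n + r h_j t = (r h_j t) u`, `k + h_j = h_j u`. So `g_j(n + r h_j t) = g_j(r h_j t) g_j(u)`, `g_j(k + h_j) = g_j(h_j) g_j(u)`,
nonzero, and with `WE.dir_mul`: `ρ_j = dir g_j(r h_j t) conj (dir g_j(h_j))`.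
* `h_j = 0`: `n = Q m`, `k = (Q/(r t)) m`, `m` coprime to `Q` (`m ≡ 1 mod Q`) and to `Q/(r t)`: `ρ_j = dir g_j(Q) conj (dir g_j(Q/(r t)))`.
Now `siz_dir` at `k` (`AA_div` with `a = r t`: for almost all `n` of the class the relation `∏_j gm g_j (k + h_j) ≈ ζ` holds for `k = n/(r t)`), `siz_ne` at `n + r h_j t` (`AA_shift`) and at `k + h_j` (`AA_shift`, then `AA_div`): `∏_j gm g_j (n + r h_j t) ≈ ζ ∏_j ρ_j =: C`.
-/

set_option autoImplicit false

namespace Pool.H16.SW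

open Finset Pool.H2.MR Pool.H2.WE

/-- the modulus `A` -/
def AQ (K : ℕ) (h : Fin K → ℕ) (t : ℕ) : ℕ := K.factorial * t * ∏ j, (if h j = 0 then 1 else h j)

theorem AQ_pos (K : ℕ) (h : Fin K → ℕ) (t : ℕ) (ht : 1 ≤ t) : 1 ≤ AQ K h t := by
  unfold AQ
  have h1 : 0 < K.factorial * t := Nat.mul_pos K.factorial_pos ht
  have h2 : 0 < ∏ j, (if h j = 0 then 1 else h j) := by
    apply Finset.prod_pos
    intro j _
    split_ifs with hj <;> omega
  exact Nat.mul_pos h1 h2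

private theorem pair_cd (z : ℂ) : (starRingEnd ℂ) (dir z) * dir z = 1 := by
  rw [mul_comm, Complex.mul_conj, Complex.normSq_eq_norm_sq, dir_norm]
  simp

/-- the constant -/
private noncomputable def rho (f : ℕ → ℂ) (A b h : ℕ) : ℂ :=
  if h = 0 then dir (f (A ^ 2)) * (starRingEnd ℂ) (dir (f (A * (A / b)))) else dir (f (b * h)) * (starRingEnd ℂ) (dir (f h))

private theorem rho_norm (f : ℕ → ℂ) (A b h : ℕ) : ‖rho f A b h‖ = 1 := by
  unfold rho
  split_ifs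
  · rw [norm_mul, RCLike.norm_conj, dir_norm, dir_norm, one_mul]
  · rw [norm_mul, RCLike.norm_conj, dir_norm, dir_norm, one_mul]

private theorem pair_fun {f : ℕ → ℂ} (hf : OB f) {A b h m : ℕ} (hA : 1 ≤ A) (hb : 1 ≤ b) (hbA : b ∣ A) (hbh : h ≠ 0 → b * h ∣ A)
    (hm : m ≡ 1 [MOD A ^ 2]) (h1 : f (A ^ 2 * m + b * h) ≠ 0) (h2 : f (A * (A / b) * m + h) ≠ 0) :
    dir (f (A ^ 2 * m + b * h)) = rho f A b h * dir (f (A * (A / b) * m + h)) := by
  have hcop : ∀ d u : ℕ, u ≡ 1 [MOD d] → d.Coprime u := by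
    intro d u hu
    have h3 := hu.gcd_eq
    rw [Nat.coprime_comm, Nat.Coprime, h3]
    simp
  unfold rho
  split_ifs with h0
  · subst h0
    rw [Nat.mul_zero, Nat.add_zero] at h1 ⊢
    rw [Nat.add_zero] at h2 ⊢
    have e1 : f (A ^ 2 * m) = f (A ^ 2) * f m := hf.mul _ _ (hcop _ _ hm)
    have hd : A * (A / b) ∣ A ^ 2 := by
      rw [pow_two]
      exact Nat.mul_dvd_mul_left A (Nat.div_dvd_of_dvd hbA)
    have e2 : f (A * (A / b) * m) = f (A * (A / b)) * f m := hf.mul _ _ (hcop _ _ (hm.of_dvd hd))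
    rw [e1] at h1 ⊢
    rw [e2] at h2 ⊢
    rw [dir_mul _ _ (left_ne_zero_of_mul h1) (right_ne_zero_of_mul h1), dir_mul _ _ (left_ne_zero_of_mul h2) (right_ne_zero_of_mul h2)]
    have h3 := pair_cd (f (A * (A / b)))
    linear_combination (-(dir (f (A ^ 2)) * dir (f m))) * h3
  · obtain ⟨c, hc⟩ := hbh h0
    have hAb : A / b = h * c := by
      rw [hc, Nat.mul_assoc, Nat.mul_div_cancel_left _ hb]
    obtain ⟨u, hu⟩ : ∃ u, u = A * c * m + 1 := ⟨_, rfl⟩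
    have hu1 : A ^ 2 * m + b * h = b * h * u := by
      rw [hu, pow_two]
      nth_rewrite 1 [hc]
      ring
    have hu2 : A * (A / b) * m + h = h * u := by
      rw [hu, hAb]
      ring
    have hcu : A.Coprime u := by
      apply hcop
      rw [hu]
      have h3 : A * c * m ≡ 0 [MOD A] := by
        rw [Nat.modEq_zero_iff_dvd, Nat.mul_assoc]
        exact Nat.dvd_mul_right _ _
      simpa using h3.add_right 1
    have hc1 : (b * h).Coprime u := Nat.Coprime.coprime_dvd_left ⟨c, hc⟩ hcu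
    have hc2 : h.Coprime u := Nat.Coprime.coprime_dvd_left (Dvd.dvd.mul_left (dvd_refl h) b) hc1
    rw [hu1, hf.mul _ _ hc1] at h1 ⊢
    rw [hu2, hf.mul _ _ hc2] at h2 ⊢
    rw [dir_mul _ _ (left_ne_zero_of_mul h1) (right_ne_zero_of_mul h1), dir_mul _ _ (left_ne_zero_of_mul h2) (right_ne_zero_of_mul h2)]
    have h3 := pair_cd (f h)
    linear_combination (-(dir (f (b * h)) * dir (f u))) * h3

theorem pair {K : ℕ} {h : Fin K → ℕ} {N : ℕ → ℕ} {g : ℕ → Fin K → ℕ → ℂ} {ζ : ℕ → ℂ} (hs : Sit K h N g ζ) (t : ℕ) (ht : 1 ≤ t)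
    (i₁ : Fin K) : ∃ C : ℕ → ℂ, (∀ i, ‖C i‖ = 1) ∧
      Ap N (CL (AQ K h t ^ 2)) (fun i n => ∏ j, gm (g i j) (n + ((((i₁ : ℕ) + 1) * h j * t : ℕ) : ℤ))) (fun i _ => C i) := by
  obtain ⟨A, hA⟩ : ∃ A, A = AQ K h t := ⟨_, rfl⟩
  obtain ⟨b, hb⟩ : ∃ b, b = ((i₁ : ℕ) + 1) * t := ⟨_, rfl⟩
  rw [← hA]
  have hA1 : 1 ≤ A := by
    rw [hA]
    exact AQ_pos K h t ht
  have hb1 : 1 ≤ b := by
    rw [hb]
    exact Nat.mul_pos (Nat.succ_pos _) ht
  have hbK : b ∣ K.factorial * t := by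
    rw [hb]
    exact Nat.mul_dvd_mul_right (Nat.dvd_factorial (Nat.succ_pos _) i₁.2) t
  have hbA : b ∣ A := by
    rw [hA]
    unfold AQ
    exact hbK.mul_right _
  have hbh : ∀ j, h j ≠ 0 → b * h j ∣ A := by
    intro j hj
    rw [hA]
    unfold AQ
    apply Nat.mul_dvd_mul hbK
    have h1 := Finset.dvd_prod_of_mem (fun j => if h j = 0 then 1 else h j) (Finset.mem_univ j)
    simp only [if_neg hj] at h1
    exact h1
  refine ⟨fun i => (∏ j, rho (g i j) A b (h j)) * ζ i, ?_, ?_⟩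
  · intro i
    rw [norm_mul, norm_prod, hs.zt, Finset.prod_eq_one (fun j _ => rho_norm _ _ _ _), one_mul]
  · intro η hη
    have h1 : AA N (fun i n => ∀ m : ℤ, n = b * m → (All m → ‖(∏ j, gm (g i j) (m + h j)) - ζ i‖ ≤ η)) :=
      AA_div b hb1 (siz_dir hs η hη)
    have h2 : AA N (fun i n => ∀ j ∈ (Finset.univ : Finset (Fin K)), ∀ j', g i j' (n + ((b * h j : ℕ) : ℤ)).toNat ≠ 0) :=
      AA_all _ (fun j _ => AA_shift hs.inf _ (siz_ne hs))
    have h3 : AA N (fun i n => ∀ j ∈ (Finset.univ : Finset (Fin K)), ∀ m : ℤ, n = b * m → ∀ j', g i j' (m + (h j : ℤ)).toNat ≠ 0) :=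
      AA_all _ (fun j _ => AA_div b hb1 (AA_shift hs.inf _ (siz_ne hs)))
    refine AA_mono ?_ (AA_and h1 (AA_and h2 h3))
    intro i n hn1 _ hh hCL
    obtain ⟨g1, g2, g3⟩ := hh
    obtain ⟨m, hm, hmQ⟩ := hCL
    have hApos : (0 : ℤ) < ((A ^ 2 : ℕ) : ℤ) := by
      have : 0 < A ^ 2 := Nat.pos_of_ne_zero (by positivity)
      exact_mod_cast this
    have hm1 : 1 ≤ m := by
      by_contra hc
      have h4 : ((A ^ 2 : ℕ) : ℤ) * m ≤ 0 := mul_nonpos_of_nonneg_of_nonpos hApos.le (by omega)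
      omega
    obtain ⟨m', rfl⟩ : ∃ m' : ℕ, m = m' := ⟨m.toNat, by omega⟩
    have hmN : m' ≡ 1 [MOD A ^ 2] := (Int.natCast_modEq_iff (a := m') (b := 1) (n := A ^ 2)).1 (by exact_mod_cast hmQ)
    have hk : n = (b : ℤ) * ((A * (A / b) * m' : ℕ) : ℤ) := by
      rw [hm]
      obtain ⟨a', ha'⟩ := hbA
      have h5 : A / b = a' := by rw [ha', Nat.mul_div_cancel_left _ hb1]
      rw [h5, pow_two]
      nth_rewrite 1 [ha']
      push_cast
      ring
    have g1' := g1 _ hk trivial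
    have key : ∀ j, gm (g i j) (n + ((((i₁ : ℕ) + 1) * h j * t : ℕ) : ℤ)) =
        rho (g i j) A b (h j) * gm (g i j) (((A * (A / b) * m' : ℕ) : ℤ) + h j) := by
      intro j
      have e1 : n + ((((i₁ : ℕ) + 1) * h j * t : ℕ) : ℤ) = ((A ^ 2 * m' + b * h j : ℕ) : ℤ) := by
        rw [hm, hb]
        push_cast
        ring
      have e2 : ((A * (A / b) * m' : ℕ) : ℤ) + h j = ((A * (A / b) * m' + h j : ℕ) : ℤ) := by push_cast; ring
      have e3 : n + ((b * h j : ℕ) : ℤ) = ((A ^ 2 * m' + b * h j : ℕ) : ℤ) := by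
        rw [hm]
        push_cast
        ring
      have k1 := g2 j (Finset.mem_univ j) j
      have k2 := g3 j (Finset.mem_univ j) _ hk j
      rw [e3, Int.toNat_natCast] at k1
      rw [e2, Int.toNat_natCast] at k2
      unfold gm
      rw [e1, e2, Int.toNat_natCast, Int.toNat_natCast]
      exact pair_fun (hs.ob i j) hA1 hb1 hbA (hbh j) hmN k1 k2
    show ‖(∏ j, gm (g i j) (n + ((((i₁ : ℕ) + 1) * h j * t : ℕ) : ℤ))) - (∏ j, rho (g i j) A b (h j)) * ζ i‖ ≤ η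
    rw [Finset.prod_congr rfl (fun j _ => key j), Finset.prod_mul_distrib, ← mul_sub, norm_mul, norm_prod,
      Finset.prod_eq_one (fun j _ => rho_norm _ _ _ _), one_mul]
    exact g1'

end Pool.H16.SW
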