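import Mathlib

/-!
# [H16 SW QUA] The integer identity

PROOF. `nodes`: for distinct nodes `x_l`, `l : Fin K`, `f = ∑_l f(x_l) L_l` for every `f` of degree `< K` (`Lagrange.eq_interpolate` or `Lagrange.eq_interpolate_of_eval_eq`, `L_l = Lagrange.basis univ x l`), so `f.coeff e = ∑_l w e l f(x_l)`, `w e l = L_l.coeff e`.
`qua`: `w0 i = w 0 i`, `w1 i = w 1 i` for the nodes `i + 1` (`i : Fin K`), `ω e l` for the nodes `l M'`. Let `f` have degree `< K`, `x = l M'`. The polynomial `ψ(s) = f(x + s η)` in `s` (`f.comp (C x + C η * X)`) has degree `< K`, coefficient `f(x)` at `s^0` and `η f'(x)` at `s^1` (derivative at `0` of the composition: `Polynomial.derivative_comp`, `coeff 1 = derivative.eval 0`). So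
`∑_i w0 i f(x + (i+1) η) = f(x)` and `∑_i w1 i f(x + (i+1) η) = η f'(x)` (for `K = 1` both sides of the second are `0`: then `ψ` is constant, coefficient `1` is `0`). With `a_e = f.coeff e`: `a_e = ∑_l ω e l f(l M')`, and `e a_e = f'.coeff (e-1) = ∑_l ω (e-1) l f'(l M')` for `e ≥ 1`. Hence for
`B i l M = ∑_{e=1}^{K-1} M^e (α w0 i ω e l + β w1 i ω (e-1) l / e)`: `∑_{i,l} B i l M f(l M' + (i+1) η) = ∑_e M^e (α a_e + β η a_e) = (α + β η)(f(M) - f(0))` (`f(M) = ∑_{e<K} a_e M^e`, `Polynomial.eval_eq_sum_range'`). Let `d` be a common denominator of all the rational numbers `α w0 i ω e l + β w1 i ω (e-1) l / e` (product of the denominators) and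
`M = d M'`: all `B i l M` are integers (`e ≥ 1`, so `d ∣ M^e`).
-/

set_option autoImplicit false

namespace Pool.H16.SW

open Finset

theorem nodes (K : ℕ) (x : Fin K → ℚ) (hx : Function.Injective x) : ∃ w : ℕ → Fin K → ℚ, ∀ f : Polynomial ℚ, f.degree < K →
    ∀ e : ℕ, f.coeff e = ∑ l, w e l * f.eval (x l) := by
  refine ⟨fun e l => (Lagrange.basis univ x l).coeff e, fun f hf e => ?_⟩
  have h1 : f = Lagrange.interpolate univ x fun i => f.eval (x i) := by
    refine Lagrange.eq_interpolate (fun a _ b _ hab => hx hab) ?_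
    rw [Finset.card_univ, Fintype.card_fin]
    exact hf
  have h2 := congrArg (fun g : Polynomial ℚ => g.coeff e) h1
  simp only [Lagrange.interpolate_apply, Polynomial.finsetSum_coeff, Polynomial.coeff_C_mul] at h2
  rw [h2]
  exact Finset.sum_congr rfl fun l _ => mul_comm _ _

private theorem qua_comp (K : ℕ) (w : ℕ → Fin K → ℚ) (hw : ∀ f : Polynomial ℚ, f.degree < K →
    ∀ e : ℕ, f.coeff e = ∑ l : Fin K, w e l * f.eval ((l : ℚ) + 1)) (f : Polynomial ℚ) (hf : f.degree < K)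
    (x η : ℚ) : (∑ i : Fin K, w 0 i * f.eval (x + ((i : ℚ) + 1) * η) = f.eval x) ∧
      ∑ i : Fin K, w 1 i * f.eval (x + ((i : ℚ) + 1) * η) = η * f.derivative.eval x := by
  set ψ : Polynomial ℚ := f.comp (Polynomial.C x + Polynomial.C η * Polynomial.X) with hψ
  have hψd : ψ.degree < K := by
    by_cases h0 : f = 0
    · rw [hψ, h0, Polynomial.zero_comp, Polynomial.degree_zero]
      exact WithBot.bot_lt_coe K
    · have h1 : f.natDegree < K := (Polynomial.natDegree_lt_iff_degree_lt h0).2 hf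
      have h2 : ψ.natDegree ≤ f.natDegree := by
        refine (Polynomial.natDegree_comp_le).trans ?_
        have h3 : (Polynomial.C x + Polynomial.C η * Polynomial.X : Polynomial ℚ).natDegree ≤ 1 := by
          rw [add_comm]
          exact Polynomial.natDegree_linear_le
        exact (Nat.mul_le_mul_left _ h3).trans (by rw [mul_one])
      refine lt_of_le_of_lt Polynomial.degree_le_natDegree ?_
      exact_mod_cast lt_of_le_of_lt h2 h1
  have he : ∀ s : ℚ, ψ.eval s = f.eval (x + s * η) := by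
    intro s
    rw [hψ, Polynomial.eval_comp]
    congr 1
    simp only [Polynomial.eval_add, Polynomial.eval_C, Polynomial.eval_mul, Polynomial.eval_X]
    ring
  have h0 := hw ψ hψd 0
  have h1 := hw ψ hψd 1
  simp only [he] at h0 h1
  constructor
  · rw [← h0, Polynomial.coeff_zero_eq_eval_zero, he]
    simp
  · rw [← h1]
    have h2 : ψ.derivative.coeff 0 = ψ.coeff 1 := by
      rw [Polynomial.coeff_derivative]
      simp
    rw [← h2, Polynomial.coeff_zero_eq_eval_zero, hψ, Polynomial.derivative_comp, Polynomial.eval_mul,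
      Polynomial.eval_comp]
    simp

private theorem qua_den {ι : Type} (s : Finset ι) (c : ι → ℚ) :
    ∃ d : ℕ, 1 ≤ d ∧ ∀ i ∈ s, ∃ z : ℤ, (d : ℚ) * c i = z := by
  classical
  refine ⟨∏ i ∈ s, (c i).den, Finset.prod_pos fun i _ => (c i).den_pos, fun i hi => ?_⟩
  refine ⟨(∏ j ∈ s.erase i, ((c j).den : ℤ)) * (c i).num, ?_⟩
  rw [← Finset.mul_prod_erase s _ hi]
  push_cast
  have h1 : ((c i).den : ℚ) * c i = (c i).num := by
    rw [mul_comm]
    exact_mod_cast Rat.mul_den_eq_num (c i)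
  rw [mul_comm ((c i).den : ℚ), mul_assoc, h1]

theorem qua (K : ℕ) (α β : ℚ) (M' : ℕ) (hM' : 1 ≤ M') : ∃ (M : ℕ) (b : Fin K → Fin K → ℤ), 1 ≤ M ∧ M' ∣ M ∧
    ∀ (f : Polynomial ℚ), f.degree < K → ∀ η : ℚ,
      ∑ i : Fin K, ∑ l : Fin K, (b i l : ℚ) * f.eval ((l : ℚ) * M' + ((i : ℚ) + 1) * η) = (α + β * η) * (f.eval (M : ℚ) - f.eval 0) := by
  classical
  obtain ⟨w, hw⟩ := nodes K (fun i => (i : ℚ) + 1) (fun a b hab => by
    have h1 : ((a : ℕ) : ℚ) = ((b : ℕ) : ℚ) := add_right_cancel hab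
    exact Fin.ext (by exact_mod_cast h1))
  have hM0 : (M' : ℚ) ≠ 0 := by
    have : M' ≠ 0 := by omega
    exact_mod_cast this
  obtain ⟨ω, hω⟩ := nodes K (fun l => (l : ℚ) * M') (fun a b hab => by
    have h1 : ((a : ℕ) : ℚ) = ((b : ℕ) : ℚ) := mul_right_cancel₀ hM0 hab
    exact Fin.ext (by exact_mod_cast h1))
  set c : (Fin K × Fin K) × ℕ → ℚ := fun t =>
    α * w 0 t.1.1 * ω t.2 t.1.2 + β * w 1 t.1.1 * ω (t.2 - 1) t.1.2 / t.2 with hc
  obtain ⟨d, hd, hz⟩ := qua_den (univ ×ˢ Finset.Ico 1 K) c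
  choose! z hz using hz
  refine ⟨d * M', fun i l => ∑ e ∈ Finset.Ico 1 K, ((d * M' : ℕ) : ℤ) ^ (e - 1) * M' * z ((i, l), e),
    Nat.mul_pos hd hM', Dvd.intro_left d rfl, fun f hf η => ?_⟩
  -- the coefficients
  have hb : ∀ i l : Fin K, ((∑ e ∈ Finset.Ico 1 K, ((d * M' : ℕ) : ℤ) ^ (e - 1) * M' * z ((i, l), e) : ℤ) : ℚ) =
      ∑ e ∈ Finset.Ico 1 K, ((d * M' : ℕ) : ℚ) ^ e * c ((i, l), e) := by
    intro i l
    push_cast
    refine Finset.sum_congr rfl fun e he => ?_
    have he1 := (Finset.mem_Ico.1 he).1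
    rw [← hz ((i, l), e) (Finset.mem_product.2 ⟨Finset.mem_univ _, he⟩)]
    obtain ⟨k, rfl⟩ : ∃ k, e = k + 1 := ⟨e - 1, by omega⟩
    rw [Nat.add_sub_cancel, pow_succ]
    ring
  -- the identity for every exponent
  have hkey : ∀ e ∈ Finset.Ico 1 K, ∑ i : Fin K, ∑ l : Fin K, c ((i, l), e) *
      f.eval ((l : ℚ) * M' + ((i : ℚ) + 1) * η) = (α + β * η) * f.coeff e := by
    intro e he
    have he1 := (Finset.mem_Ico.1 he).1
    have he0 : (e : ℚ) ≠ 0 := by
      have : e ≠ 0 := by omega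
      exact_mod_cast this
    have hf' : f.derivative.degree < K := lt_of_le_of_lt Polynomial.degree_derivative_le hf
    have h1 : f.derivative.coeff (e - 1) = f.coeff e * e := by
      rw [Polynomial.coeff_derivative]
      obtain ⟨k, rfl⟩ : ∃ k, e = k + 1 := ⟨e - 1, by omega⟩
      rw [Nat.add_sub_cancel]
      push_cast
      ring
    calc ∑ i : Fin K, ∑ l : Fin K, c ((i, l), e) * f.eval ((l : ℚ) * M' + ((i : ℚ) + 1) * η)
        = ∑ l : Fin K, (α * ω e l * ∑ i : Fin K, w 0 i * f.eval ((l : ℚ) * M' + ((i : ℚ) + 1) * η) +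
            β * ω (e - 1) l / e * ∑ i : Fin K, w 1 i * f.eval ((l : ℚ) * M' + ((i : ℚ) + 1) * η)) := by
          rw [Finset.sum_comm]
          refine Finset.sum_congr rfl fun l _ => ?_
          rw [Finset.mul_sum, Finset.mul_sum, ← Finset.sum_add_distrib]
          refine Finset.sum_congr rfl fun i _ => ?_
          simp only [hc]
          ring
      _ = ∑ l : Fin K, (α * (ω e l * f.eval ((l : ℚ) * M')) +
            β * η / e * (ω (e - 1) l * f.derivative.eval ((l : ℚ) * M'))) := by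
          refine Finset.sum_congr rfl fun l _ => ?_
          rw [(qua_comp K w hw f hf _ η).1, (qua_comp K w hw f hf _ η).2]
          ring
      _ = α * f.coeff e + β * η / e * f.derivative.coeff (e - 1) := by
          rw [Finset.sum_add_distrib, ← Finset.mul_sum, ← Finset.mul_sum, hω f hf e,
            hω f.derivative hf' (e - 1)]
      _ = (α + β * η) * f.coeff e := by
          rw [h1]
          field_simp
  -- the values
  have hval : f.eval ((d * M' : ℕ) : ℚ) - f.eval 0 =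
      ∑ e ∈ Finset.Ico 1 K, ((d * M' : ℕ) : ℚ) ^ e * f.coeff e := by
    by_cases h0 : f = 0
    · rw [h0]
      simp
    · have h1 : f.natDegree < K := (Polynomial.natDegree_lt_iff_degree_lt h0).2 hf
      rw [Polynomial.eval_eq_sum_range' h1, ← Polynomial.coeff_zero_eq_eval_zero,
        Finset.range_eq_Ico, Finset.sum_eq_sum_Ico_succ_bot (by omega)]
      rw [pow_zero, mul_one, add_sub_cancel_left]
      exact Finset.sum_congr rfl fun e _ => mul_comm _ _
  rw [hval, Finset.mul_sum]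
  calc ∑ i : Fin K, ∑ l : Fin K, ((∑ e ∈ Finset.Ico 1 K,
        ((d * M' : ℕ) : ℤ) ^ (e - 1) * M' * z ((i, l), e) : ℤ) : ℚ) *
          f.eval ((l : ℚ) * M' + ((i : ℚ) + 1) * η)
      = ∑ i : Fin K, ∑ l : Fin K, ∑ e ∈ Finset.Ico 1 K, ((d * M' : ℕ) : ℚ) ^ e *
          (c ((i, l), e) * f.eval ((l : ℚ) * M' + ((i : ℚ) + 1) * η)) := by
        refine Finset.sum_congr rfl fun i _ => Finset.sum_congr rfl fun l _ => ?_
        rw [hb, Finset.sum_mul]
        exact Finset.sum_congr rfl fun e _ => mul_assoc _ _ _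
    _ = ∑ e ∈ Finset.Ico 1 K, ((d * M' : ℕ) : ℚ) ^ e * ∑ i : Fin K, ∑ l : Fin K,
          c ((i, l), e) * f.eval ((l : ℚ) * M' + ((i : ℚ) + 1) * η) := by
        have e1 : ∀ i : Fin K, ∑ l : Fin K, ∑ e ∈ Finset.Ico 1 K, ((d * M' : ℕ) : ℚ) ^ e *
            (c ((i, l), e) * f.eval ((l : ℚ) * M' + ((i : ℚ) + 1) * η)) =
            ∑ e ∈ Finset.Ico 1 K, ((d * M' : ℕ) : ℚ) ^ e * ∑ l : Fin K,
              c ((i, l), e) * f.eval ((l : ℚ) * M' + ((i : ℚ) + 1) * η) := by
          intro i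
          rw [Finset.sum_comm]
          exact Finset.sum_congr rfl fun e _ => (Finset.mul_sum _ _ _).symm
        rw [Finset.sum_congr rfl fun i _ => e1 i, Finset.sum_comm]
        exact Finset.sum_congr rfl fun e _ => (Finset.mul_sum _ _ _).symm
    _ = ∑ e ∈ Finset.Ico 1 K, (α + β * η) * (((d * M' : ℕ) : ℚ) ^ e * f.coeff e) := by
        refine Finset.sum_congr rfl fun e he => ?_
        rw [hkey e he]
        ring

/-- the identity for binomial coefficients -/
theorem qua_choose (K : ℕ) (α β : ℚ) (M' : ℕ) (hM' : 1 ≤ M') : ∃ (M : ℕ) (b : Fin K → Fin K → ℤ), 1 ≤ M ∧ M' ∣ M ∧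
    ∀ (m : ℕ), m < K → ∀ (h : ℕ) (c : ℤ), (c : ℚ) = α + β * h →
      ∑ i : Fin K, ∑ l : Fin K, b i l * (((l : ℕ) * M' + ((i : ℕ) + 1) * h).choose m : ℤ) = c * ((M.choose m : ℤ) - ((0 : ℕ).choose m : ℤ)) := by
  obtain ⟨M, b, hM, hMM, hq⟩ := qua K α β M' hM'
  refine ⟨M, b, hM, hMM, ?_⟩
  intro m hm h c hc
  have hfac : (m.factorial : ℚ) ≠ 0 := by exact_mod_cast m.factorial_ne_zero
  set f : Polynomial ℚ := Polynomial.C ((m.factorial : ℚ)⁻¹) * descPochhammer ℚ m with hf
  have hev : ∀ n : ℕ, f.eval (n : ℚ) = (n.choose m : ℚ) := by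
    intro n
    rw [hf, Polynomial.eval_mul, Polynomial.eval_C, descPochhammer_eval_eq_descFactorial,
      Nat.descFactorial_eq_factorial_mul_choose]
    push_cast
    rw [← mul_assoc, inv_mul_cancel₀ hfac, one_mul]
  have hdeg : f.degree < K := by
    rw [hf, Polynomial.degree_C_mul (inv_ne_zero hfac)]
    refine lt_of_le_of_lt Polynomial.degree_le_natDegree ?_
    rw [descPochhammer_natDegree]
    exact_mod_cast hm
  have h1 := hq f hdeg h
  have h2 : ∀ i l : Fin K, f.eval ((l : ℚ) * M' + ((i : ℚ) + 1) * h) =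
      (((l : ℕ) * M' + ((i : ℕ) + 1) * h).choose m : ℚ) := by
    intro i l
    rw [← hev]
    push_cast
    rfl
  have h3 : f.eval 0 = ((0 : ℕ).choose m : ℚ) := by
    rw [← hev, Nat.cast_zero]
  rw [hev, h3, ← hc] at h1
  simp only [h2] at h1
  exact_mod_cast h1

end Pool.H16.SW
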