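import Pool.Agent.H16.SW.NWT
import Pool.Agent.H16.SW.QUA
import Pool.Agent.H16.SW.PAIR

/-!
# [H16 SW ALG] The product of the powers is locally constant up to a constant factor

PROOF. `Q = AQ K h t ^ 2`, `M' = Q^2 / t` (`t ∣ Q`). `M, b` from `qua_choose K α β M'`; `W = M t`, so `Q^2 ∣ W`. `C i₁` from `pair` for `i₁ : Fin K`. For `i₁, l : Fin K` let `x = l M' + (i₁+1) h_j`. `pair` at `n + l Q^2` (`Ap_shift`; `n ∈ CL Q → n + l Q^2 ∈ CL Q`: `n + l Q^2 = Q (m + l Q)`; `l Q^2 = l M' t`):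
(1) `∏_j gm g_j (n + x_{i₁ l j} t) ≈ C i₁` on `CL Q`. Let `u_{j m} = df m t (gm g_j) n`. For `j ∉ I`: `gm g_j (n + x t) ≈ ∏_{m<K} u_{j m}^(choose x m)` (`newton`). For `j ∈ I`: `gm g_j (n + x t) ≈ gm g_j n` (`x` times the hypothesis `hI`, `Ap_shift`, `Ap_trans`).
Put `E_j(x) = ∏_{m<K} u_{j m}^(choose x m)` for `j ∉ I` and `E_j(x) = gm g_j n` for `j ∈ I` (modulus 1). So `∏_j E_j(x_{i₁ l j}) ≈ C i₁`; raise to the power `b i₁ l` (`Ap_zpow`) and multiply over `i₁, l` (`Ap_prod`): `∏_{i₁,l} ∏_j E_j(x_{i₁ l j})^(b i₁ l) ≈ κ := ∏_{i₁,l} C i₁^(b i₁ l)`.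
EXACTLY: `∏_{i₁,l} ∏_j E_j(x_{i₁ l j})^(b i₁ l) = ∏_j E_j(M)^(c j) * ∏_j E_j(0)^(-c j)`: for `j ∉ I` the exponent of `u_{j m}` is `∑ b i₁ l choose (x) m = c j (choose M m - choose 0 m)` (`qua_choose`); for `j ∈ I` the exponent of `gm g_j n` is `∑ b i₁ l`, which is `0` if there is some `j' ∉ I` (`qua_choose` with `m = 0`, which needs `0 < K`),
and on the right `c j - c j = 0`. (If all `j` are in `I` the claim is clear with `κ = 1`: `gm g_j (n + W) ≈ gm g_j n`.) Finally `E_j(M) ≈ gm g_j (n + W)`, `E_j(0) ≈ gm g_j n`, so `∏_j gm g_j (n+W)^(c j) ≈ κ ∏_j gm g_j n^(c j)`.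
`alg` is stated with `α, β` and `hc : ∀ j ∉ I, c j = α + β h_j`.
-/

set_option autoImplicit false

namespace Pool.H16.SW

open Finset Pool.H2.MR Pool.H2.WE

private theorem alg_Ix {N : ℕ → ℕ} (hN : Inf N) (t : ℕ) (G : ℕ → ℤ → ℂ)
    (h : Ap N All (fun i n => G i (n + t)) (fun i n => G i n)) (x : ℕ) :
    Ap N All (fun i n => G i (n + x * t)) (fun i n => G i n) := by
  induction x with
  | zero =>
    have e : (fun (i : ℕ) (n : ℤ) => G i (n + ((0 : ℕ) : ℤ) * t)) = fun i n => G i n := by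
      funext i n
      rw [Nat.cast_zero, zero_mul, add_zero]
    rw [e]
    exact Ap_refl _ _ _
  | succ x ih =>
    have h1 := Ap_shift hN (S := All) (S' := All) ((x : ℤ) * t) (fun n _ => trivial) h
    have e : (fun (i : ℕ) (n : ℤ) => G i (n + ((x + 1 : ℕ) : ℤ) * t)) =
        fun i n => G i (n + (x : ℤ) * t + t) := by
      funext i n
      congr 1
      push_cast
      ring
    rw [e]
    exact Ap_trans h1 ih

private theorem alg_CL (Q : ℕ) (l : ℕ) (n : ℤ) (hn : CL Q n) : CL Q (n + ((l * Q ^ 2 : ℕ) : ℤ)) := by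
  obtain ⟨m, hm, hm1⟩ := hn
  refine ⟨m + l * Q, ?_, ?_⟩
  · rw [hm]
    push_cast
    ring
  · refine Int.ModEq.trans ?_ hm1
    refine (Int.modEq_iff_dvd.2 ⟨-l, ?_⟩)
    ring

/-- exponents -/
private theorem alg_exp {K : ℕ} (u : ℕ → ℂ) (hu : ∀ m, u m ≠ 0) (b : Fin K → Fin K → ℤ) (x : Fin K → Fin K → ℕ)
    (c : ℤ) (M : ℕ) (h : ∀ m : ℕ, m < K → ∑ i : Fin K, ∑ l : Fin K, b i l * ((x i l).choose m : ℤ) =
      c * ((M.choose m : ℤ) - ((0 : ℕ).choose m : ℤ))) :
    ∏ i : Fin K, ∏ l : Fin K, (∏ m : Fin K, u m ^ (x i l).choose m) ^ b i l =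
      (∏ m : Fin K, u m ^ M.choose m) ^ c * ((∏ m : Fin K, u m ^ (0 : ℕ).choose m) ^ c)⁻¹ := by
  have h1 : ∀ i l : Fin K, (∏ m : Fin K, u m ^ (x i l).choose m) ^ b i l =
      ∏ m : Fin K, u m ^ (b i l * ((x i l).choose m : ℤ)) := by
    intro i l
    rw [← Finset.prod_zpow]
    refine Finset.prod_congr rfl fun m _ => ?_
    rw [← zpow_natCast, ← zpow_mul, mul_comm]
  have h2 : ∀ y : ℕ, (∏ m : Fin K, u m ^ y.choose m) ^ c = ∏ m : Fin K, u m ^ (c * (y.choose m : ℤ)) := by
    intro y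
    rw [← Finset.prod_zpow]
    refine Finset.prod_congr rfl fun m _ => ?_
    rw [← zpow_natCast, ← zpow_mul, mul_comm]
  rw [h2, h2, ← Finset.prod_inv_distrib, ← Finset.prod_mul_distrib]
  calc ∏ i : Fin K, ∏ l : Fin K, (∏ m : Fin K, u m ^ (x i l).choose m) ^ b i l
      = ∏ i : Fin K, ∏ l : Fin K, ∏ m : Fin K, u m ^ (b i l * ((x i l).choose m : ℤ)) :=
        Finset.prod_congr rfl fun i _ => Finset.prod_congr rfl fun l _ => h1 i l
    _ = ∏ m : Fin K, ∏ i : Fin K, ∏ l : Fin K, u m ^ (b i l * ((x i l).choose m : ℤ)) := by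
        have e1 : ∀ i : Fin K, ∏ l : Fin K, ∏ m : Fin K, u m ^ (b i l * ((x i l).choose m : ℤ)) =
            ∏ m : Fin K, ∏ l : Fin K, u m ^ (b i l * ((x i l).choose m : ℤ)) := fun i =>
          Finset.prod_comm
        rw [Finset.prod_congr rfl fun i _ => e1 i, Finset.prod_comm]
    _ = _ := by
        refine Finset.prod_congr rfl fun m _ => ?_
        have e2 : ∏ i : Fin K, ∏ l : Fin K, u m ^ (b i l * ((x i l).choose m : ℤ)) =
            u m ^ (∑ i : Fin K, ∑ l : Fin K, b i l * ((x i l).choose m : ℤ)) := by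
          have e3 : ∀ (s : Finset (Fin K)) (f : Fin K → ℤ), ∏ i ∈ s, u m ^ f i = u m ^ (∑ i ∈ s, f i) := by
            intro s f
            classical
            induction s using Finset.induction_on with
            | empty => rw [Finset.prod_empty, Finset.sum_empty, zpow_zero]
            | insert a s ha ih => rw [Finset.prod_insert ha, Finset.sum_insert ha, ih, zpow_add₀ (hu m)]
          rw [← e3]
          exact Finset.prod_congr rfl fun i _ => e3 _ _
        rw [e2, h m m.2, ← zpow_neg, ← zpow_add₀ (hu m)]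
        congr 1
        ring

theorem alg {K : ℕ} {h : Fin K → ℕ} {N : ℕ → ℕ} {g : ℕ → Fin K → ℕ → ℂ} {ζ : ℕ → ℂ} (hs : Sit K h N g ζ) (t : ℕ) (ht : 1 ≤ t)
    (I : Finset (Fin K)) (c : Fin K → ℤ) (α β : ℚ) (hc : ∀ j, j ∉ I → (c j : ℚ) = α + β * h j)
    (hP : ∀ j, Ap N All (fun i n => df K t (gm (g i j)) n) (fun _ _ => 1))
    (hI : ∀ j ∈ I, Ap N All (fun i n => gm (g i j) (n + t)) (fun i n => gm (g i j) n)) :
    ∃ (W : ℕ) (κ : ℕ → ℂ), 1 ≤ W ∧ (AQ K h t ^ 2) ^ 2 ∣ W ∧ (∀ i, ‖κ i‖ = 1) ∧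
      Ap N (CL (AQ K h t ^ 2)) (fun i n => ∏ j, gm (g i j) (n + W) ^ c j) (fun i n => κ i * ∏ j, gm (g i j) n ^ c j) := by
  classical
  have hN := hs.inf
  have hA := AQ_pos K h t ht
  set Q := AQ K h t ^ 2 with hQ
  have hQ1 : 1 ≤ Q := Nat.one_le_pow _ _ hA
  have htA : t ∣ AQ K h t := Dvd.dvd.mul_right (Dvd.intro_left _ rfl) _
  have htQ : t ∣ Q ^ 2 := (htA.trans (dvd_pow_self _ two_ne_zero)).trans (dvd_pow_self _ two_ne_zero)
  obtain ⟨M', hM'⟩ := htQ
  have hM'1 : 1 ≤ M' := by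
    rcases Nat.eq_zero_or_pos M' with h0 | h0
    · rw [h0, mul_zero] at hM'
      exact absurd hM' (pow_ne_zero 2 (by omega))
    · exact h0
  have hgn : ∀ j (i : ℕ) (n : ℤ), ‖gm (g i j) n‖ = 1 := fun j i n => gm_norm _ _
  have hIx : ∀ j ∈ I, ∀ x : ℕ, Ap N All (fun i n => gm (g i j) (n + x * t)) (fun i n => gm (g i j) n) :=
    fun j hj x => alg_Ix hN t (fun i => gm (g i j)) (hI j hj) x
  by_cases hall : ∀ j, j ∈ I
  · -- all functions in `I`
    refine ⟨Q ^ 2, fun _ => 1, Nat.one_le_pow _ _ hQ1, dvd_rfl, fun _ => norm_one, ?_⟩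
    simp only [one_mul]
    refine Ap_class (S := All) (fun n _ => trivial) ?_
    refine Ap_prod univ (fun j i n => ?_) (fun j i n => ?_) fun j _ => ?_
    · rw [norm_zpow, hgn, one_zpow]
    · rw [norm_zpow, hgn, one_zpow]
    · refine Ap_zpow (fun i n => hgn _ _ _) (fun i n => hgn _ _ _) ?_ _
      have h1 := hIx j (hall j) M'
      have e : (fun (i : ℕ) (n : ℤ) => gm (g i j) (n + ((Q ^ 2 : ℕ) : ℤ))) =
          fun i n => gm (g i j) (n + (M' : ℤ) * t) := by
        funext i n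
        congr 1
        rw [hM']
        push_cast
        ring
      rw [e]
      exact h1
  · rw [not_forall] at hall
    obtain ⟨j', hj'⟩ := hall
    have hK : 0 < K := lt_of_le_of_lt (Nat.zero_le _) j'.2
    obtain ⟨M, b, hM, hMM, hqc⟩ := qua_choose K α β M' hM'1
    choose C hC1 hC2 using fun i₁ : Fin K => pair hs t ht i₁
    set x : Fin K → Fin K → Fin K → ℕ := fun i₁ l j => (l : ℕ) * M' + ((i₁ : ℕ) + 1) * h j with hx
    -- the functions `E`
    set E : Fin K → ℕ → ℕ → ℤ → ℂ := fun j y i n =>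
      if j ∈ I then gm (g i j) n else ∏ m : Fin K, df m t (gm (g i j)) n ^ y.choose m with hE
    have hEn : ∀ j y i n, ‖E j y i n‖ = 1 := by
      intro j y i n
      simp only [hE]
      split_ifs
      · exact hgn _ _ _
      · rw [norm_prod]
        refine Finset.prod_eq_one fun m _ => ?_
        rw [norm_pow, df_norm _ _ _ (fun n => gm_norm _ _), one_pow]
    have hE0 : ∀ j y i n, E j y i n ≠ 0 := fun j y i n h0 => by
      have := hEn j y i n
      rw [h0, norm_zero] at this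
      exact zero_ne_one this
    have hEap : ∀ j (y : ℕ), Ap N All (fun i n => gm (g i j) (n + y * t)) (E j y) := by
      intro j y
      by_cases hj : j ∈ I
      · have e : E j y = fun i n => gm (g i j) n := by
          funext i n
          simp only [hE, if_pos hj]
        rw [e]
        exact hIx j hj y
      · have e : E j y = fun i n => ∏ m : Fin K, df m t (gm (g i j)) n ^ y.choose m := by
          funext i n
          simp only [hE, if_neg hj]
        rw [e]
        exact newton hN t K (fun i => gm (g i j)) (fun i n => gm_norm _ _) (hP j) y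
    -- (1)
    have h1 : ∀ i₁ l : Fin K, Ap N (CL Q) (fun i n => ∏ j, E j (x i₁ l j) i n) (fun i _ => C i₁ i) := by
      intro i₁ l
      have a1 := Ap_shift hN (S := CL Q) (S' := CL Q) (((l : ℕ) * Q ^ 2 : ℕ) : ℤ) (fun n hn => alg_CL Q l n hn) (hC2 i₁)
      have e : (fun (i : ℕ) (n : ℤ) => ∏ j, gm (g i j) (n + (((l : ℕ) * Q ^ 2 : ℕ) : ℤ) +
          ((((i₁ : ℕ) + 1) * h j * t : ℕ) : ℤ))) = fun i n => ∏ j, gm (g i j) (n + (x i₁ l j : ℤ) * t) := by
        funext i n
        refine Finset.prod_congr rfl fun j _ => ?_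
        congr 1
        rw [hM']
        simp only [hx]
        push_cast
        ring
      rw [e] at a1
      refine Ap_trans (Ap_symm ?_) a1
      refine Ap_class (S := All) (fun n _ => trivial) ?_
      exact Ap_prod univ (fun j i n => (hgn _ _ _).le) (fun j i n => (hEn _ _ _ _).le) fun j _ => hEap j _
    have hprodn : ∀ (y : Fin K → ℕ) i n, ‖∏ j, E j (y j) i n‖ = 1 := by
      intro y i n
      rw [norm_prod]
      exact Finset.prod_eq_one fun j _ => hEn _ _ _ _
    set κ : ℕ → ℂ := fun i => ∏ i₁ : Fin K, ∏ l : Fin K, C i₁ i ^ b i₁ l with hκ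
    have hκn : ∀ i, ‖κ i‖ = 1 := by
      intro i
      simp only [hκ]
      rw [norm_prod]
      refine Finset.prod_eq_one fun i₁ _ => ?_
      rw [norm_prod]
      refine Finset.prod_eq_one fun l _ => ?_
      rw [norm_zpow, hC1, one_zpow]
    have h2 : Ap N (CL Q) (fun i n => ∏ i₁ : Fin K, ∏ l : Fin K, (∏ j, E j (x i₁ l j) i n) ^ b i₁ l) (fun i _ => κ i) := by
      refine Ap_prod univ (u := fun i₁ i n => ∏ l : Fin K, (∏ j, E j (x i₁ l j) i n) ^ b i₁ l)
        (v := fun i₁ i _ => ∏ l : Fin K, C i₁ i ^ b i₁ l) (fun i₁ i n => ?_) (fun i₁ i n => ?_) fun i₁ _ => ?_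
      · refine le_of_eq ?_
        rw [norm_prod]
        refine Finset.prod_eq_one fun l _ => ?_
        rw [norm_zpow, hprodn, one_zpow]
      · refine le_of_eq ?_
        rw [norm_prod]
        refine Finset.prod_eq_one fun l _ => ?_
        rw [norm_zpow, hC1, one_zpow]
      · refine Ap_prod univ (u := fun l i n => (∏ j, E j (x i₁ l j) i n) ^ b i₁ l)
          (v := fun l i _ => C i₁ i ^ b i₁ l) (fun l i n => ?_) (fun l i n => ?_) fun l _ => ?_
        · rw [norm_zpow, hprodn, one_zpow]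
        · rw [norm_zpow, hC1, one_zpow]
        · exact Ap_zpow (fun i n => hprodn _ i n) (fun i n => hC1 i₁ i) (h1 i₁ l) _
    -- the exact identity
    have hex : ∀ i n, ∏ i₁ : Fin K, ∏ l : Fin K, (∏ j, E j (x i₁ l j) i n) ^ b i₁ l =
        ∏ j, (E j M i n ^ c j * (E j 0 i n ^ c j)⁻¹) := by
      intro i n
      have e1 : ∏ i₁ : Fin K, ∏ l : Fin K, (∏ j, E j (x i₁ l j) i n) ^ b i₁ l =
          ∏ j, ∏ i₁ : Fin K, ∏ l : Fin K, E j (x i₁ l j) i n ^ b i₁ l := by
        have e2 : ∀ i₁ : Fin K, ∏ l : Fin K, (∏ j, E j (x i₁ l j) i n) ^ b i₁ l =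
            ∏ j, ∏ l : Fin K, E j (x i₁ l j) i n ^ b i₁ l := by
          intro i₁
          rw [Finset.prod_comm]
          exact Finset.prod_congr rfl fun l _ => (Finset.prod_zpow _ _ _).symm
        rw [Finset.prod_congr rfl fun i₁ _ => e2 i₁, Finset.prod_comm]
      rw [e1]
      refine Finset.prod_congr rfl fun j _ => ?_
      by_cases hj : j ∈ I
      · have e3 : ∀ y, E j y i n = gm (g i j) n := fun y => by simp only [hE, if_pos hj]
        simp only [e3]
        have hz : gm (g i j) n ≠ 0 := by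
          intro h0
          have := hgn j i n
          rw [h0, norm_zero] at this
          exact zero_ne_one this
        have e4 : ∑ i₁ : Fin K, ∑ l : Fin K, b i₁ l = 0 := by
          have := hqc 0 hK (h j') (c j') (hc j' hj')
          simpa using this
        have e5 : ∀ (s : Finset (Fin K)) (f : Fin K → ℤ), ∏ a ∈ s, gm (g i j) n ^ f a = gm (g i j) n ^ (∑ a ∈ s, f a) := by
          intro s f
          induction s using Finset.induction_on with
          | empty => rw [Finset.prod_empty, Finset.sum_empty, zpow_zero]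
          | insert a s ha ih => rw [Finset.prod_insert ha, Finset.sum_insert ha, ih, zpow_add₀ hz]
        rw [Finset.prod_congr rfl fun i₁ _ => e5 univ (b i₁), e5, e4, zpow_zero,
          mul_inv_cancel₀ (zpow_ne_zero _ hz)]
      · have e3 : ∀ y, E j y i n = ∏ m : Fin K, df m t (gm (g i j)) n ^ y.choose m := fun y => by
          simp only [hE, if_neg hj]
        simp only [e3]
        refine alg_exp (fun m => df m t (gm (g i j)) n) (fun m h0 => ?_) b (fun i₁ l => x i₁ l j) (c j) M ?_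
        · have := df_norm m t (gm (g i j)) (fun n => gm_norm _ _) n
          rw [show df m t (gm (g i j)) n = 0 from h0, norm_zero] at this
          exact zero_ne_one this
        · intro m hm
          exact hqc m hm (h j) (c j) (hc j hj)
    have h3 : Ap N (CL Q) (fun i n => ∏ j, E j M i n ^ c j) (fun i n => κ i * ∏ j, E j 0 i n ^ c j) := by
      have hcn : ∀ y i n, ‖∏ j, E j y i n ^ c j‖ = 1 := by
        intro y i n
        rw [norm_prod]
        refine Finset.prod_eq_one fun j _ => ?_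
        rw [norm_zpow, hEn, one_zpow]
      have a1 := Ap_mul (N := N) (S := CL Q)
        (u := fun i n => ∏ i₁ : Fin K, ∏ l : Fin K, (∏ j, E j (x i₁ l j) i n) ^ b i₁ l) (v := fun i _ => κ i)
        (u' := fun i n => ∏ j, E j 0 i n ^ c j) (v' := fun i n => ∏ j, E j 0 i n ^ c j)
        (fun i n => (hcn _ _ _).le) (fun i n => (hκn i).le) h2 (Ap_refl _ _ _)
      have e : (fun (i : ℕ) (n : ℤ) => (∏ i₁ : Fin K, ∏ l : Fin K, (∏ j, E j (x i₁ l j) i n) ^ b i₁ l) *
          ∏ j, E j 0 i n ^ c j) = fun i n => ∏ j, E j M i n ^ c j := by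
        funext i n
        rw [hex, ← Finset.prod_mul_distrib]
        refine Finset.prod_congr rfl fun j _ => ?_
        rw [mul_assoc, inv_mul_cancel₀ (zpow_ne_zero _ (hE0 _ _ _ _)), mul_one]
      rw [e] at a1
      exact a1
    refine ⟨M * t, κ, Nat.mul_pos hM ht, ?_, hκn, ?_⟩
    · rw [hM', mul_comm t M']
      exact Nat.mul_dvd_mul hMM dvd_rfl
    · have hEc : ∀ y : ℕ, Ap N (CL Q) (fun i n => ∏ j, gm (g i j) (n + (y : ℤ) * t) ^ c j)
          (fun i n => ∏ j, E j y i n ^ c j) := by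
        intro y
        refine Ap_class (S := All) (fun n _ => trivial) ?_
        refine Ap_prod univ (fun j i n => ?_) (fun j i n => ?_) fun j _ => ?_
        · rw [norm_zpow, hgn, one_zpow]
        · rw [norm_zpow, hEn, one_zpow]
        · exact Ap_zpow (fun i n => hgn _ _ _) (fun i n => hEn _ _ _ _) (hEap j y) _
      have a1 := hEc M
      have a2 := hEc 0
      have e1 : (fun (i : ℕ) (n : ℤ) => ∏ j, gm (g i j) (n + (M : ℤ) * t) ^ c j) =
          fun i n => ∏ j, gm (g i j) (n + ((M * t : ℕ) : ℤ)) ^ c j := by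
        funext i n
        push_cast
        rfl
      have e2 : (fun (i : ℕ) (n : ℤ) => ∏ j, gm (g i j) (n + ((0 : ℕ) : ℤ) * t) ^ c j) =
          fun i n => ∏ j, gm (g i j) n ^ c j := by
        funext i n
        simp only [Nat.cast_zero, zero_mul, add_zero]
      rw [e1] at a1
      rw [e2] at a2
      refine Ap_trans a1 (Ap_trans h3 ?_)
      refine Ap_mul (u := fun i _ => κ i) (v := fun i _ => κ i) (fun i n => ?_) (fun i n => (hκn i).le)
        (Ap_refl _ _ _) (Ap_symm a2)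
      refine le_of_eq ?_
      rw [norm_prod]
      refine Finset.prod_eq_one fun j _ => ?_
      rw [norm_zpow, hEn, one_zpow]

end Pool.H16.SW
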