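import Pool.Agent.H16.SW.AAL

/-!
# [H16 SW APL] Asymptotic equality for almost all `n`: elementary facts

PROOFS. `Ap_of_AA`: equality for almost all `n` of the class. `Ap_trans`: `η/2 + η/2`, `AA_and`. `Ap_mul`: `u u' - v v' = (u - v) u' + v (u' - v')`, `η/2 + η/2`. `Ap_prod`: induction on `s`. `Ap_conj`: the conjugation is an isometry.
`Ap_pow`: induction. `Ap_zpow`: for `‖z‖ = 1` `z ^ (-m) = conj (z ^ m)` (`z⁻¹ = conj z`). `Ap_shift`: `AA_shift`. `Ap_class`: monotone. All functions have modulus `≤ 1` or `= 1` as stated.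
`Ap_const`: a relation between constants (not depending on `n`) which holds for almost all `n` of a class `n ≡ r mod R` holds for large `i` (`AA_pick` with one condition, `a = 1`, `b = 0`).
-/

set_option autoImplicit false

namespace Pool.H16.SW

open Finset Pool.H2.MR Pool.H2.WE

theorem Ap_of_AA {N : ℕ → ℕ} {S : ℤ → Prop} {u v : ℕ → ℤ → ℂ} (h : AA N (fun i n => S n → u i n = v i n)) : Ap N S u v := by
  intro η hη
  refine AA_mono ?_ h
  intro i n _ _ hq hs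
  rw [hq hs, sub_self, norm_zero]
  exact hη.le

theorem Ap_refl (N : ℕ → ℕ) (S : ℤ → Prop) (u : ℕ → ℤ → ℂ) : Ap N S u u :=
  Ap_of_AA (AA_true N (fun _ _ _ _ _ => rfl))

theorem Ap_symm {N : ℕ → ℕ} {S : ℤ → Prop} {u v : ℕ → ℤ → ℂ} (h : Ap N S u v) : Ap N S v u := by
  intro η hη
  refine AA_mono ?_ (h η hη)
  intro i n _ _ hq hs
  rw [norm_sub_rev]
  exact hq hs

theorem Ap_trans {N : ℕ → ℕ} {S : ℤ → Prop} {u v w : ℕ → ℤ → ℂ} (h : Ap N S u v) (h' : Ap N S v w) : Ap N S u w := by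
  intro η hη
  refine AA_mono ?_ (AA_and (h (η / 2) (by positivity)) (h' (η / 2) (by positivity)))
  intro i n _ _ hq hs
  have h1 := hq.1 hs
  have h2 := hq.2 hs
  have h3 : u i n - w i n = (u i n - v i n) + (v i n - w i n) := by ring
  rw [h3]
  refine (norm_add_le _ _).trans ?_
  linarith

theorem Ap_mul {N : ℕ → ℕ} {S : ℤ → Prop} {u v u' v' : ℕ → ℤ → ℂ} (hu : ∀ i n, ‖u' i n‖ ≤ 1) (hv : ∀ i n, ‖v i n‖ ≤ 1)
    (h : Ap N S u v) (h' : Ap N S u' v') : Ap N S (fun i n => u i n * u' i n) (fun i n => v i n * v' i n) := by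
  intro η hη
  refine AA_mono ?_ (AA_and (h (η / 2) (by positivity)) (h' (η / 2) (by positivity)))
  intro i n _ _ hq hs
  have h1 := hq.1 hs
  have h2 := hq.2 hs
  have h3 : u i n * u' i n - v i n * v' i n = (u i n - v i n) * u' i n + v i n * (u' i n - v' i n) := by ring
  rw [h3]
  refine (norm_add_le _ _).trans ?_
  rw [norm_mul, norm_mul]
  have h4 : ‖u i n - v i n‖ * ‖u' i n‖ ≤ η / 2 * 1 := mul_le_mul h1 (hu i n) (norm_nonneg _) (by positivity)
  have h5 : ‖v i n‖ * ‖u' i n - v' i n‖ ≤ 1 * (η / 2) := mul_le_mul (hv i n) h2 (norm_nonneg _) zero_le_one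
  linarith

theorem Ap_prod {ι : Type} (s : Finset ι) {N : ℕ → ℕ} {S : ℤ → Prop} {u v : ι → ℕ → ℤ → ℂ} (hu : ∀ j i n, ‖u j i n‖ ≤ 1)
    (hv : ∀ j i n, ‖v j i n‖ ≤ 1) (h : ∀ j ∈ s, Ap N S (u j) (v j)) :
    Ap N S (fun i n => ∏ j ∈ s, u j i n) (fun i n => ∏ j ∈ s, v j i n) := by
  classical
  induction s using Finset.induction_on with
  | empty =>
    simp only [Finset.prod_empty]
    exact Ap_refl N S _
  | insert a s ha ih =>
    simp only [Finset.prod_insert ha]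
    refine Ap_mul ?_ (fun i n => hv a i n) (h a (Finset.mem_insert_self a s)) (ih (fun j hj => h j (Finset.mem_insert_of_mem hj)))
    intro i n
    rw [norm_prod]
    exact Finset.prod_le_one (fun _ _ => norm_nonneg _) (fun j _ => hu j i n)

theorem Ap_conj {N : ℕ → ℕ} {S : ℤ → Prop} {u v : ℕ → ℤ → ℂ} (h : Ap N S u v) :
    Ap N S (fun i n => (starRingEnd ℂ) (u i n)) (fun i n => (starRingEnd ℂ) (v i n)) := by
  intro η hη
  refine AA_mono ?_ (h η hη)
  intro i n _ _ hq hs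
  rw [← map_sub, RCLike.norm_conj]
  exact hq hs

theorem Ap_pow {N : ℕ → ℕ} {S : ℤ → Prop} {u v : ℕ → ℤ → ℂ} (hu : ∀ i n, ‖u i n‖ ≤ 1) (hv : ∀ i n, ‖v i n‖ ≤ 1)
    (h : Ap N S u v) (m : ℕ) : Ap N S (fun i n => u i n ^ m) (fun i n => v i n ^ m) := by
  induction m with
  | zero =>
    simp only [pow_zero]
    exact Ap_refl N S _
  | succ m ih =>
    simp only [pow_succ]
    refine Ap_mul hu ?_ ih h
    intro i n
    rw [norm_pow]
    exact pow_le_one₀ (norm_nonneg _) (hv i n)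

theorem Ap_zpow {N : ℕ → ℕ} {S : ℤ → Prop} {u v : ℕ → ℤ → ℂ} (hu : ∀ i n, ‖u i n‖ = 1) (hv : ∀ i n, ‖v i n‖ = 1)
    (h : Ap N S u v) (c : ℤ) : Ap N S (fun i n => u i n ^ c) (fun i n => v i n ^ c) := by
  have hinv : ∀ (z : ℂ) (m : ℕ), ‖z‖ = 1 → z ^ (-(m : ℤ)) = (starRingEnd ℂ) (z ^ m) := by
    intro z m hz
    have hz0 : z ≠ 0 := by
      intro h0
      rw [h0, norm_zero] at hz
      exact zero_ne_one hz
    rw [zpow_neg, zpow_natCast]
    have h1 : z ^ m * (starRingEnd ℂ) (z ^ m) = 1 := by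
      rw [Complex.mul_conj, Complex.normSq_eq_norm_sq, norm_pow, hz]
      simp
    exact inv_eq_of_mul_eq_one_right h1
  obtain ⟨m, hm | hm⟩ := Int.eq_nat_or_neg c
  · subst hm
    simp only [zpow_natCast]
    exact Ap_pow (fun i n => (hu i n).le) (fun i n => (hv i n).le) h m
  · subst hm
    have h1 := Ap_conj (Ap_pow (fun i n => (hu i n).le) (fun i n => (hv i n).le) h m)
    intro η hη
    refine AA_mono ?_ (h1 η hη)
    intro i n _ _ hq hs
    have h2 := hq hs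
    simp only at h2 ⊢
    rw [hinv _ m (hu i n), hinv _ m (hv i n)]
    exact h2

theorem Ap_shift {N : ℕ → ℕ} (hN : Inf N) {S S' : ℤ → Prop} {u v : ℕ → ℤ → ℂ} (a : ℤ) (hS : ∀ n, S' n → S (n + a))
    (h : Ap N S u v) : Ap N S' (fun i n => u i (n + a)) (fun i n => v i (n + a)) := by
  intro η hη
  refine AA_mono ?_ (AA_shift hN a (h η hη))
  intro i n _ _ hq hs
  exact hq (hS n hs)

theorem Ap_class {N : ℕ → ℕ} {S S' : ℤ → Prop} {u v : ℕ → ℤ → ℂ} (hS : ∀ n, S' n → S n) (h : Ap N S u v) : Ap N S' u v := by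
  intro η hη
  refine AA_mono ?_ (h η hη)
  intro i n _ _ hq hs
  exact hq (hS n hs)

theorem Ap_const {N : ℕ → ℕ} (hN : Inf N) {S : ℤ → Prop} (R : ℕ) (hR : 1 ≤ R) (r : ℤ) (hS : ∀ n : ℤ, n ≡ r [ZMOD R] → S n)
    {a b : ℕ → ℂ} (h : Ap N S (fun i _ => a i) (fun i _ => b i)) (η : ℝ) (hη : 0 < η) : ∃ i₀ : ℕ, ∀ i, i₀ ≤ i → ‖a i - b i‖ ≤ η := by
  obtain ⟨i₀, h1⟩ := AA_pick hN R hR r 0 ({()} : Finset Unit) (fun _ => 1) (fun _ _ => le_rfl) (fun _ => 0)
    (fun _ i n => S n → ‖a i - b i‖ ≤ η) (fun _ _ => h η hη)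
  refine ⟨i₀, fun i hi => ?_⟩
  obtain ⟨n, _, hn, hq⟩ := h1 i hi
  have h2 := hq () (Finset.mem_singleton_self _)
  have h3 : (((1 : ℕ) : ℤ) * n + 0) = n := by push_cast; ring
  rw [h3] at h2
  exact h2 (hS n hn)

end Pool.H16.SW
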