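import Pool.Agent.H16.SW.Defs
import Pool.Agent.H2.WE.Rel

/-!
# [H16 SW AREL] Approximate relations

`ARel N G a θ E`: `dls a G` is within `E θ` of a constant of modulus 1 off `E` exceptions in `[1, N]` (the error of the values is coded into `E`, so that `WE.sml` applies).

PROOFS. As in `H2/WE/Rel.lean`. `arel_sub`: `F = dls l G` (modulus 1; `dls_cons`): `‖F(n+a) conj F(n) - c‖ ≤ E θ`, `‖F(n+b) conj F(n) - c'‖ ≤ E' θ`, hence `‖F(n+b) conj F(n+a) - c' conj c‖ ≤ (E + E') θ` (`z w conj(w') ...`: `F(n+b) conj F(n+a) = (F(n+b) conj F(n)) conj (F(n+a) conj F(n))`); replace `n` by `n - a` (`ex_shift`):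
`dl (b - a) F` is within `(E + E') θ` of `c' conj c` off `E + E' + |a|` exceptions (`ex_and`). `arel_mono`: larger `E`. `arel_upd`: `List.ofFn (fun j => update r i x j * s j)` is a permutation of `(x * s i) :: l`, `l` not depending on `x` (see the private lemma `rel_ofFn` in `Rel.lean`, copy its proof), `dls_perm`; then `arel_sub` with `(y - x) s i = y s i - x s i`,
`E + E + B ≤ 2 E + B` (`‖..‖ ≤ 2 E θ ≤ (2 E + B) θ`).
-/

set_option autoImplicit false

namespace Pool.H16.SW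

open Finset Pool.H2.MR Pool.H2.WE

/-- `dls a G` is within `E θ` of a constant off `E` exceptions -/
def ARel (N : ℕ) (G : ℤ → ℂ) (a : List ℤ) (θ : ℝ) (E : ℕ) : Prop :=
  ∃ c : ℂ, ‖c‖ = 1 ∧ ex N (fun n => ‖dls a G n - c‖ ≤ E * θ) ≤ E

theorem arel_mono {N : ℕ} {G : ℤ → ℂ} {a : List ℤ} {θ : ℝ} {E E' : ℕ} (hθ : 0 ≤ θ) (hE : E ≤ E') (h : ARel N G a θ E) :
    ARel N G a θ E' := by
  obtain ⟨c, hc, h1⟩ := h
  refine ⟨c, hc, (le_trans (ex_mono ?_) h1).trans hE⟩
  intro n _ _ hn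
  refine hn.trans (mul_le_mul_of_nonneg_right ?_ hθ)
  exact_mod_cast hE

theorem arel_sub (N : ℕ) (G : ℤ → ℂ) (hG : ∀ n, ‖G n‖ = 1) (a b : ℤ) (l : List ℤ) (θ : ℝ) (hθ : 0 ≤ θ) (E E' : ℕ)
    (h : ARel N G (a :: l) θ E) (h' : ARel N G (b :: l) θ E') : ARel N G ((b - a) :: l) θ (E + E' + a.natAbs) := by
  obtain ⟨c, hc, h1⟩ := h
  obtain ⟨c', hc', h2⟩ := h'
  refine ⟨c' * (starRingEnd ℂ) c, ?_, ?_⟩
  · rw [norm_mul, RCLike.norm_conj, hc, hc', one_mul]
  · have hFn : ∀ n, ‖dls l G n‖ = 1 := dls_norm l G hG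
    have hF : ∀ n, dls l G n * (starRingEnd ℂ) (dls l G n) = 1 := by
      intro n
      rw [Complex.mul_conj, Complex.normSq_eq_norm_sq, hFn]
      simp
    have h3 := ex_and N (fun n => ‖dls (a :: l) G n - c‖ ≤ E * θ) (fun n => ‖dls (b :: l) G n - c'‖ ≤ E' * θ)
    have h4 := ex_shift N (fun n => ‖dls (a :: l) G n - c‖ ≤ E * θ ∧ ‖dls (b :: l) G n - c'‖ ≤ E' * θ) (-a)
    rw [Int.natAbs_neg] at h4
    have h5 : ex N (fun n => ‖dls ((b - a) :: l) G n - c' * (starRingEnd ℂ) c‖ ≤ ((E + E' + a.natAbs : ℕ) : ℝ) * θ) ≤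
        ex N (fun n => ‖dls (a :: l) G (n + -a) - c‖ ≤ E * θ ∧ ‖dls (b :: l) G (n + -a) - c'‖ ≤ E' * θ) := by
      apply ex_mono
      intro n _ _ hn
      rw [dls_cons] at hn
      rw [dls_cons] at hn
      rw [dls_cons]
      obtain ⟨e1, e2⟩ := hn
      unfold dl at e1 e2 ⊢
      rw [show n + -a + a = n by ring] at e1
      rw [show n + -a + b = n + (b - a) by ring] at e2
      obtain ⟨u, hu⟩ : ∃ u, u = dls l G n * (starRingEnd ℂ) (dls l G (n + -a)) := ⟨_, rfl⟩
      obtain ⟨v, hv⟩ : ∃ v, v = dls l G (n + (b - a)) * (starRingEnd ℂ) (dls l G (n + -a)) := ⟨_, rfl⟩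
      rw [← hu] at e1
      rw [← hv] at e2
      have hun : ‖u‖ = 1 := by
        rw [hu, norm_mul, RCLike.norm_conj, hFn, hFn, one_mul]
      have h6 := hF (n + -a)
      have h7 : dls l G (n + (b - a)) * (starRingEnd ℂ) (dls l G n) = v * (starRingEnd ℂ) u := by
        rw [hu, hv, map_mul, Complex.conj_conj]
        calc dls l G (n + (b - a)) * (starRingEnd ℂ) (dls l G n) =
            dls l G (n + (b - a)) * (starRingEnd ℂ) (dls l G n) * 1 := by rw [mul_one]
          _ = _ := by rw [← h6]; ring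
      rw [h7]
      have h8 : v * (starRingEnd ℂ) u - c' * (starRingEnd ℂ) c = (v - c') * (starRingEnd ℂ) u + c' * (starRingEnd ℂ) (u - c) := by
        rw [map_sub]
        ring
      rw [h8]
      refine (norm_add_le _ _).trans ?_
      rw [norm_mul, norm_mul, RCLike.norm_conj, RCLike.norm_conj, hun, hc', mul_one, one_mul]
      have h9 : (0 : ℝ) ≤ (a.natAbs : ℝ) * θ := mul_nonneg (Nat.cast_nonneg _) hθ
      push_cast
      nlinarith
    omega

private theorem arel_ofFn (k : ℕ) : ∀ (i : Fin k) (f : Fin k → ℤ), ∃ l : List ℤ, ∀ g : Fin k → ℤ, (∀ j, j ≠ i → g j = f j) →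
    (List.ofFn g).Perm (g i :: l) := by
  induction k with
  | zero => intro i; exact i.elim0
  | succ k ih =>
    intro i f
    refine Fin.cases ?_ (fun i => ?_) i
    · refine ⟨List.ofFn (fun j : Fin k => f j.succ), ?_⟩
      intro g hg
      rw [List.ofFn_succ]
      have h1 : (fun j : Fin k => g j.succ) = fun j : Fin k => f j.succ := by
        funext j
        exact hg _ (Fin.succ_ne_zero j)
      rw [h1]
    · obtain ⟨l, hl⟩ := ih i (fun j => f j.succ)
      refine ⟨f 0 :: l, ?_⟩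
      intro g hg
      rw [List.ofFn_succ]
      have h1 : g 0 = f 0 := hg 0 (Fin.succ_ne_zero i).symm
      have h2 := hl (fun j => g j.succ) (fun j hj => hg j.succ (fun h => hj (Fin.succ_injective _ h)))
      rw [h1]
      exact (List.Perm.cons _ h2).trans (List.Perm.swap _ _ _)

theorem arel_upd (k N : ℕ) (G : ℤ → ℂ) (hG : ∀ n, ‖G n‖ = 1) (s r : Fin k → ℤ) (i : Fin k) (x y : ℤ) (θ : ℝ) (hθ : 0 ≤ θ)
    (E B : ℕ) (hB : (x * s i).natAbs ≤ B)
    (h1 : ARel N G (List.ofFn fun j => Function.update r i x j * s j) θ E)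
    (h2 : ARel N G (List.ofFn fun j => Function.update r i y j * s j) θ E) :
    ARel N G (List.ofFn fun j => Function.update r i (y - x) j * s j) θ (2 * E + B) := by
  obtain ⟨l, hl⟩ := arel_ofFn k i (fun j => r j * s j)
  have hp : ∀ z : ℤ, (List.ofFn fun j => Function.update r i z j * s j).Perm ((z * s i) :: l) := by
    intro z
    have h := hl (fun j => Function.update r i z j * s j) (fun j hj => by
      simp only [Function.update_of_ne hj])
    simpa only [Function.update_self] using h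
  have hR : ∀ (z : ℤ) (E' : ℕ), ARel N G (List.ofFn fun j => Function.update r i z j * s j) θ E' ↔ ARel N G ((z * s i) :: l) θ E' := by
    intro z E'
    unfold ARel
    rw [dls_perm (hp z) G]
  rw [hR] at h1 h2 ⊢
  have h3 := arel_sub N G hG _ _ _ θ hθ _ _ h1 h2
  rw [show y * s i - x * s i = (y - x) * s i by ring] at h3
  exact arel_mono hθ (by omega) h3

end Pool.H16.SW
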