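import Pool.Agent.H16.SW.Defs

/-!
# [H16 SW GX] The functions `n^(ix)`

PROOFS. `gx x n = exp(i x log n)` for `n ≥ 1` (`Complex.cpow_def_of_ne_zero`, `Complex.natCast_log`). `gx_norm`: `Complex.norm_exp_ofReal_mul_I`. `gx_ob`: `Nat.cast_mul`, `Complex.natCast_mul_natCast_cpow`. `gx_zero`: `x = 0`. `gx_pw`: for `c ≥ 0` `(n^(ix))^c = n^(icx)` (`Complex.cpow_nat_mul` or the exponential form);
for `c < 0` `conj (n^(ix)) = n^(-ix)` (exponential form, `Complex.exp_conj`). `gx_ff`: the product of exponentials (`Complex.exp_sum`). `gx_ni`: `gx x n * conj(n^(I t)) = n^(i(x-t)) = ni (t - x) n`.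
-/

set_option autoImplicit false

namespace Pool.H16.SW

open Finset Pool.H2.MR Pool.H2.WE

/-- `n^(ix)`, with value `0` at `0` -/
noncomputable def gx (x : ℝ) (n : ℕ) : ℂ := if n = 0 then 0 else (n : ℂ) ^ (Complex.I * (x : ℂ))

theorem gx_exp (x : ℝ) (n : ℕ) (hn : n ≠ 0) : gx x n = Complex.exp (((x * Real.log n : ℝ) : ℂ) * Complex.I) := by
  have h : (n : ℂ) ≠ 0 := by exact_mod_cast hn
  rw [gx, if_neg hn, Complex.cpow_def_of_ne_zero h, ← Complex.natCast_log]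
  congr 1
  push_cast
  ring

theorem gx_norm (x : ℝ) (n : ℕ) (hn : n ≠ 0) : ‖gx x n‖ = 1 := by
  rw [gx_exp x n hn, Complex.norm_exp_ofReal_mul_I]

theorem gx_ob (x : ℝ) : OB (gx x) := by
  refine ⟨?_, ?_, ?_⟩
  · rw [gx_exp x 1 one_ne_zero]
    simp
  · intro m n _
    rcases eq_or_ne m 0 with hm | hm
    · subst hm
      simp [gx]
    rcases eq_or_ne n 0 with hn | hn
    · subst hn
      simp [gx]
    rw [gx_exp x _ (mul_ne_zero hm hn), gx_exp x m hm, gx_exp x n hn, ← Complex.exp_add]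
    congr 1
    have h1 : (m : ℝ) ≠ 0 := by exact_mod_cast hm
    have h2 : (n : ℝ) ≠ 0 := by exact_mod_cast hn
    rw [Nat.cast_mul, Real.log_mul h1 h2]
    push_cast
    ring
  · intro n
    rcases eq_or_ne n 0 with hn | hn
    · subst hn
      simp [gx]
    · exact (gx_norm x n hn).le

theorem gx_zero (n : ℕ) (hn : n ≠ 0) : gx 0 n = 1 := by
  rw [gx_exp 0 n hn]
  simp

theorem gx_FO (q : ℕ) (hq : 1 ≤ q) : FO q (gx 0) := by
  intro n
  rcases eq_or_ne n 0 with hn | hn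
  · subst hn
    refine ⟨0, le_rfl, ?_⟩
    have h : q ≠ 0 := by omega
    simp [gx, h]
  · refine ⟨1, zero_le_one, ?_⟩
    rw [gx_zero n hn]
    simp

private theorem gx_pow (x : ℝ) (k n : ℕ) (hn : n ≠ 0) : gx x n ^ k = gx (k * x) n := by
  rw [gx_exp x n hn, gx_exp _ n hn, ← Complex.exp_nat_mul]
  congr 1
  push_cast
  ring

private theorem gx_conj (x : ℝ) (n : ℕ) (hn : n ≠ 0) : (starRingEnd ℂ) (gx x n) = gx (-x) n := by
  rw [gx_exp x n hn, gx_exp _ n hn, ← Complex.exp_conj]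
  congr 1
  rw [map_mul, Complex.conj_ofReal, Complex.conj_I]
  push_cast
  ring

theorem gx_pw (x : ℝ) (c : ℤ) (n : ℕ) (hn : n ≠ 0) : pw (gx x n) c = gx (c * x) n := by
  unfold pw
  split_ifs with h
  · rw [gx_pow x _ n hn]
    have h1 : ((c.toNat : ℕ) : ℝ) = (c : ℝ) := by
      exact_mod_cast congrArg (Int.cast : ℤ → ℝ) (Int.toNat_of_nonneg h)
    rw [h1]
  · rw [gx_conj x n hn, gx_pow _ _ n hn]
    have h1 : (((-c).toNat : ℕ) : ℝ) = ((-c : ℤ) : ℝ) := by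
      exact_mod_cast congrArg (Int.cast : ℤ → ℝ) (Int.toNat_of_nonneg (show (0 : ℤ) ≤ -c by omega))
    rw [h1]
    congr 1
    push_cast
    ring

theorem gx_ff {K : ℕ} (c : Fin K → ℤ) (x : Fin K → ℝ) (n : ℕ) (hn : n ≠ 0) :
    FF c (fun j => gx (x j)) n = gx (∑ j, c j * x j) n := by
  unfold FF
  rw [gx_exp _ n hn, Finset.sum_mul, Complex.ofReal_sum, Finset.sum_mul, Complex.exp_sum]
  refine Finset.prod_congr rfl fun j _ => ?_
  rw [gx_pw _ _ n hn, gx_exp _ n hn]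

/-- the distance to `n^(it)`; `ni t n = n^(-it)` -/
theorem gx_ni (x t : ℝ) (n : ℕ) (hn : n ≠ 0) : gx x n * (starRingEnd ℂ) ((n : ℂ) ^ (Complex.I * (t : ℂ))) = ni (t - x) n := by
  have h : (n : ℂ) ≠ 0 := by exact_mod_cast hn
  have h1 : (n : ℂ) ^ (Complex.I * (t : ℂ)) = gx t n := by rw [gx, if_neg hn]
  rw [h1, gx_conj t n hn, gx_exp x n hn, gx_exp _ n hn, ← Complex.exp_add, ni,
    Complex.cpow_def_of_ne_zero h, ← Complex.natCast_log]
  congr 1
  push_cast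
  ring

end Pool.H16.SW
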