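import Pool.Agent.H16.SW.ZET
import Pool.Agent.H16.SW.GX

/-!
# [H16 SW CHR] Condition (N) for `n^(is)` at one scale

PROOF. `N₀` from `zet (A^3 + 2 A)`; `N` also `≥ 2A`, `≥ 2`. Let `χ` be a character modulo `r`, `0 < r ≤ A`, `|t| ≤ N`, `m = φ(r)`, `1 ≤ m ≤ r ≤ A`. For a prime `p ∤ r`: `χ(p)^m = 1` (`(p : ZMod r)` is a unit, `ZMod.pow_totient`, `map_pow`), so `z = gx s p conj(χ(p) p^(it))` has modulus `1` and `z^m = (p^(i(s-t)))^m = ni (m (t - s)) p` (`gx_ni`, exponential form).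
`1 - Re z^m ≤ m^2 (1 - Re z)` for `|z| = 1`: `‖1 - z^m‖ ≤ m ‖1 - z‖` (telescoping) and `‖1 - z‖^2 = 2(1 - Re z)`. For `p ∣ r`: `χ(p) = 0` (or at any rate the term is `≥ 0`: `‖z‖ ≤ 1`), and `1 - Re ni ≤ 2`. So with `u = m (t - s)`: `DD (fun _ => 1) u N ≤ m^2 Σ + 2 ∑_{p ∣ r} 1/p ≤ A^2 Σ + 2 A`, `Σ` the sum of the claim (at most `r ≤ A` primes divide `r`).
`|u| ≥ |s| - |t| ≥ N` and `|u| ≤ A (N^3 + N) ≤ N^4` (`A ≤ N/2`, `N ≤ N^3`). So `A^3 + 2A ≤ A^2 Σ + 2A`, `Σ ≥ A`.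
-/

set_option autoImplicit false

namespace Pool.H16.SW

open Finset Pool.H2.MR Pool.H2.WE

private theorem chr_geo (z : ℂ) (hz : ‖z‖ = 1) (m : ℕ) : ‖1 - z ^ m‖ ≤ m * ‖1 - z‖ := by
  induction m with
  | zero => simp
  | succ m ih =>
    have h1 : 1 - z ^ (m + 1) = (1 - z ^ m) + z ^ m * (1 - z) := by ring
    have h2 : ‖z ^ m * (1 - z)‖ = ‖1 - z‖ := by
      rw [norm_mul, norm_pow, hz, one_pow, one_mul]
    rw [h1]
    refine (norm_add_le _ _).trans ?_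
    rw [h2]
    push_cast
    linarith

private theorem chr_sq (z : ℂ) (hz : ‖z‖ = 1) : ‖1 - z‖ ^ 2 = 2 * (1 - z.re) := by
  have h1 : z.re * z.re + z.im * z.im = 1 := by
    rw [← Complex.normSq_apply, Complex.normSq_eq_norm_sq, hz, one_pow]
  rw [← Complex.normSq_eq_norm_sq, Complex.normSq_apply, Complex.sub_re, Complex.sub_im,
    Complex.one_re, Complex.one_im]
  linear_combination h1

private theorem chr_re (z : ℂ) (hz : ‖z‖ = 1) (m : ℕ) :
    1 - (z ^ m).re ≤ (m : ℝ) ^ 2 * (1 - z.re) := by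
  have h1 := chr_sq z hz
  have h2 := chr_sq (z ^ m) (by rw [norm_pow, hz, one_pow])
  have h3 := chr_geo z hz m
  have h4 : ‖1 - z ^ m‖ ^ 2 ≤ ((m : ℝ) * ‖1 - z‖) ^ 2 := pow_le_pow_left₀ (norm_nonneg _) h3 2
  rw [mul_pow, h1, h2] at h4
  linarith

private theorem chr_ni_norm (a : ℝ) (p : ℕ) (hp : 0 < p) : ‖ni a p‖ = 1 := by
  unfold ni
  rw [Complex.norm_natCast_cpow_of_pos hp]
  have h : (-((a : ℂ) * Complex.I)).re = 0 := by simp
  rw [h, Real.rpow_zero]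

private theorem chr_ni_pow (a : ℝ) (p m : ℕ) : ni a p ^ m = ni (m * a) p := by
  unfold ni
  rw [← Complex.cpow_nat_mul]
  congr 1
  push_cast
  ring

private theorem chr_unit {r p : ℕ} (χ : DirichletCharacter ℂ r) (h : Nat.Coprime p r) :
    χ (p : ZMod r) ^ (Nat.totient r) = 1 := by
  have h1 := ZMod.pow_totient (ZMod.unitOfCoprime p h)
  have h2 := congrArg (fun u : (ZMod r)ˣ => (u : ZMod r)) h1
  simp only [Units.val_pow_eq_pow_val, ZMod.coe_unitOfCoprime, Units.val_one] at h2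
  rw [← map_pow, h2, map_one]

theorem chr_na (A : ℕ) : ∃ N₀ : ℕ, ∀ N : ℕ, N₀ ≤ N → ∀ s : ℝ, 2 * (N : ℝ) ≤ |s| → |s| ≤ (N : ℝ) ^ 3 → NA A N (gx s) := by
  classical
  obtain ⟨N₀, hN₀⟩ := zet ((A : ℝ) ^ 3 + 2 * A)
  refine ⟨N₀ + 2 * A + 2, fun N hN s hs1 hs2 r χ hr hrA t ht => ?_⟩
  have hA1 : 1 ≤ A := le_trans hr hrA
  have hA1' : (1 : ℝ) ≤ A := by exact_mod_cast hA1
  have hNA : 2 * (A : ℝ) ≤ N := by
    have : 2 * A ≤ N := by omega
    exact_mod_cast this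
  have hN1 : (1 : ℝ) ≤ N := by linarith
  obtain ⟨m, hm⟩ : ∃ m, m = Nat.totient r := ⟨_, rfl⟩
  have hm1 : 1 ≤ m := by
    rw [hm]
    exact Nat.totient_pos.2 hr
  have hmA : m ≤ A := by
    rw [hm]
    exact (Nat.totient_le r).trans hrA
  have hm1' : (1 : ℝ) ≤ m := by exact_mod_cast hm1
  have hmA' : (m : ℝ) ≤ A := by exact_mod_cast hmA
  obtain ⟨u, hu⟩ : ∃ u : ℝ, u = m * (t - s) := ⟨_, rfl⟩
  have hu1 : (N : ℝ) ≤ |u| := by
    rw [hu, abs_mul, abs_of_pos (by linarith : (0 : ℝ) < m)]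
    have h1 : |s| - |t| ≤ |t - s| := by
      rw [abs_sub_comm]
      exact abs_sub_abs_le_abs_sub s t
    nlinarith [abs_nonneg (t - s)]
  have hu2 : |u| ≤ (N : ℝ) ^ 4 := by
    rw [hu, abs_mul, abs_of_pos (by linarith : (0 : ℝ) < m)]
    have h1 : |t - s| ≤ |t| + |s| := abs_sub t s
    have h2 : (N : ℝ) ≤ (N : ℝ) ^ 3 := le_self_pow₀ hN1 (by norm_num)
    have h3 : |t - s| ≤ 2 * (N : ℝ) ^ 3 := by linarith
    calc (m : ℝ) * |t - s| ≤ A * (2 * (N : ℝ) ^ 3) := mul_le_mul hmA' h3 (abs_nonneg _) (by linarith)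
      _ = (2 * A) * (N : ℝ) ^ 3 := by ring
      _ ≤ N * (N : ℝ) ^ 3 := mul_le_mul_of_nonneg_right hNA (by positivity)
      _ = (N : ℝ) ^ 4 := by ring
  have h0 := hN₀ N (by omega) u hu1 hu2
  obtain ⟨z, hz⟩ : ∃ z : ℕ → ℂ, ∀ p, z p = gx s p * (starRingEnd ℂ) (χ (p : ZMod r) *
      (p : ℂ) ^ (Complex.I * (t : ℂ))) := ⟨_, fun _ => rfl⟩
  have hterm : ∀ p ∈ (Icc 1 N).filter Nat.Prime, (1 - ((1 : ℂ) * ni u p).re) / (p : ℝ) ≤
      (A : ℝ) ^ 2 * ((1 - (z p).re) / (p : ℝ)) + if p ∣ r then 1 else 0 := by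
    intro p hp
    have hpp := (Finset.mem_filter.1 hp).2
    have hp0 : (0 : ℝ) < p := by exact_mod_cast hpp.pos
    have hp2 : (2 : ℝ) ≤ p := by exact_mod_cast hpp.two_le
    have hzp : z p = ni (t - s) p * (starRingEnd ℂ) (χ (p : ZMod r)) := by
      rw [hz, map_mul, ← gx_ni s t p hpp.ne_zero]
      ring
    rw [one_mul]
    have hle : (z p).re ≤ 1 := by
      have h1 : ‖z p‖ ≤ 1 := by
        rw [hzp, norm_mul, chr_ni_norm _ _ hpp.pos, one_mul, RCLike.norm_conj]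
        exact DirichletCharacter.norm_le_one χ _
      exact (Complex.re_le_norm _).trans h1
    have hnn : 0 ≤ (1 - (z p).re) / (p : ℝ) := div_nonneg (by linarith) hp0.le
    by_cases hd : p ∣ r
    · rw [if_pos hd]
      have h1 : -1 ≤ (ni u p).re := by
        have h2 := Complex.abs_re_le_norm (ni u p)
        rw [chr_ni_norm _ _ hpp.pos] at h2
        exact (abs_le.1 h2).1
      have h2 : (1 - (ni u p).re) / (p : ℝ) ≤ 1 := by
        rw [div_le_one hp0]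
        linarith
      have h3 : 0 ≤ (A : ℝ) ^ 2 * ((1 - (z p).re) / (p : ℝ)) := mul_nonneg (by positivity) hnn
      linarith
    · rw [if_neg hd, add_zero]
      have hco : Nat.Coprime p r := (Nat.Prime.coprime_iff_not_dvd hpp).2 hd
      have h1 := chr_unit χ hco
      rw [← hm] at h1
      have hχ : ‖χ (p : ZMod r)‖ = 1 := by
        have h2 := congrArg norm h1
        rw [norm_pow, norm_one] at h2
        exact (pow_eq_one_iff_of_nonneg (norm_nonneg _) (by omega)).1 h2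
      have hz1 : ‖z p‖ = 1 := by
        rw [hzp, norm_mul, chr_ni_norm _ _ hpp.pos, one_mul, RCLike.norm_conj, hχ]
      have hzm : z p ^ m = ni u p := by
        rw [hzp, mul_pow, chr_ni_pow, ← map_pow, h1, map_one, mul_one, hu]
      have h3 := chr_re (z p) hz1 m
      rw [hzm] at h3
      rw [← mul_div_assoc]
      apply div_le_div_of_nonneg_right _ hp0.le
      refine h3.trans (mul_le_mul_of_nonneg_right ?_ (by linarith))
      exact pow_le_pow_left₀ (by linarith) hmA' 2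
  have hsum := Finset.sum_le_sum hterm
  rw [Finset.sum_add_distrib, ← Finset.mul_sum] at hsum
  have hcount : ∑ p ∈ (Icc 1 N).filter Nat.Prime, (if p ∣ r then (1 : ℝ) else 0) ≤ A := by
    rw [← Finset.sum_filter, Finset.sum_const, nsmul_eq_mul, mul_one]
    have h1 : (((Icc 1 N).filter Nat.Prime).filter fun p => p ∣ r) ⊆ Icc 1 r := by
      intro p hp
      obtain ⟨hp1, hp2⟩ := Finset.mem_filter.1 hp
      have hpp := (Finset.mem_filter.1 hp1).2
      exact Finset.mem_Icc.2 ⟨hpp.one_le, Nat.le_of_dvd hr hp2⟩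
    have h2 := Finset.card_le_card h1
    rw [Nat.card_Icc] at h2
    have h3 : (((Icc 1 N).filter Nat.Prime).filter fun p => p ∣ r).card ≤ A := by omega
    exact_mod_cast h3
  unfold DD at h0
  have h1 : (A : ℝ) ^ 3 + 2 * A ≤ (A : ℝ) ^ 2 * (∑ p ∈ (Icc 1 N).filter Nat.Prime,
      (1 - (z p).re) / (p : ℝ)) + A := by linarith
  have h2 : (A : ℝ) ^ 2 * A ≤ (A : ℝ) ^ 2 * (∑ p ∈ (Icc 1 N).filter Nat.Prime,
      (1 - (z p).re) / (p : ℝ)) := by nlinarith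
  have h3 := le_of_mul_le_mul_left h2 (by positivity)
  simp only [hz] at h3
  exact h3

end Pool.H16.SW
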