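import Pool.Agent.H2.MU.Ctr
import Pool.Agent.H2.WE.Exl

/-!
# [H16 SW CTC] A function with condition (N) is not almost periodic in direction on a class

PROOF. This is `ctrN` of `H2/MU/Ctr.lean` with the relation only for `n ≡ 1 mod Q`, `Q ∣ K`: copy its proof (it only uses the `n ≡ 1 mod K`, and `n ≡ 1 mod K` implies `n + j K ≡ 1 mod Q` for all `j`).
-/

set_option autoImplicit false

namespace Pool.H16.SW

open Finset Pool.H2.MR Pool.H2.WE

theorem ctc (Q K : ℕ) (hK : 1 ≤ K) (hQK : Q ∣ K) : ∃ (ρ : ℝ) (A : ℕ), 0 < ρ ∧ ∀ N : ℕ, A ≤ N → ∀ f : ℕ → ℂ, OB f → NA A N f →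
    (ex N (fun n => n ≡ 1 [ZMOD Q] → ‖dir (f (n + (K : ℤ)).toNat) - dir (f n.toNat)‖ ≤ ρ) : ℝ) ≤ ρ * N →
      (ex N (fun n => 1 / 2 ≤ ‖f n.toNat‖) : ℝ) ≤ ρ * N → False := by
  classical
  have hKr : (1 : ℝ) ≤ K := by exact_mod_cast hK
  obtain ⟨H₀, hH₀⟩ := mrtU (1 / (16 * (K : ℝ) ^ 2)) (by positivity)
  obtain ⟨H, hH⟩ : ∃ H, H = H₀ + 1 := ⟨_, rfl⟩
  have hHr : (1 : ℝ) ≤ H := by
    have : 1 ≤ H := by omega
    exact_mod_cast this
  obtain ⟨ρ, hρ⟩ : ∃ ρ : ℝ, ρ = 1 / (64 * (K : ℝ) ^ 2 * H) := ⟨_, rfl⟩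
  have hρ0 : 0 < ρ := by rw [hρ]; positivity
  have hρH : H * ρ = 1 / (64 * (K : ℝ) ^ 2) := by
    rw [hρ]
    field_simp
  have hρ4 : H * ρ ≤ 1 / 4 := by
    rw [hρH, div_le_div_iff₀ (by positivity) (by norm_num)]
    nlinarith
  have hHK : H₀ ≤ H * K := by
    have : H * 1 ≤ H * K := Nat.mul_le_mul_left H hK
    omega
  obtain ⟨A', N₀, hmr⟩ := hH₀ (H * K) hHK
  obtain ⟨A, hA⟩ : ∃ A : ℕ, A = ⌈A'⌉₊ + K + N₀ + (8 * H ^ 2 * K ^ 2 + 1) := ⟨_, rfl⟩
  refine ⟨ρ, A, hρ0, ?_⟩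
  intro N hNN f hf hN e1 e2
  have hAA : A' ≤ A := by
    refine (Nat.le_ceil A').trans ?_
    exact_mod_cast (by omega : ⌈A'⌉₊ ≤ A)
  have hNχ : ∀ χ : DirichletCharacter ℂ K,
      ∑ n ∈ Icc 1 N, ‖∑ j ∈ range (H * K), f (n + j) * χ ((n + j : ℕ) : ZMod K)‖ ≤ 1 / (16 * (K : ℝ) ^ 2) * (H * K : ℕ) * N := by
    intro χ
    exact hmr N (by omega) (fun n => f n * χ (n : ZMod K)) (chr_ob f hf K χ)
      (fun t ht => hAA.trans (chr_UN f A N K hN hK (by omega) χ t ht))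
  have hN2 : 8 * H ^ 2 * K ^ 2 + 1 ≤ N := by omega
  have hN3 : 8 * (H : ℝ) ^ 2 * K ^ 2 ≤ N := by
    have : 8 * H ^ 2 * K ^ 2 ≤ N := by omega
    exact_mod_cast this
  have hNr : (1 : ℝ) ≤ N := by
    have : 1 ≤ N := by omega
    exact_mod_cast this
  have hup := ctr_up K H N hK f (1 / (16 * (K : ℝ) ^ 2) * (H * K : ℕ) * N) hNχ
  -- the exceptions
  obtain ⟨Q', hQ⟩ : ∃ Q' : ℤ → Prop, Q' = fun n => n ≡ 1 [ZMOD Q] → ‖dir (f (n + (K : ℤ)).toNat) - dir (f n.toNat)‖ ≤ ρ := ⟨_, rfl⟩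
  obtain ⟨R, hR⟩ : ∃ R : ℤ → Prop, R = fun n => 1 / 2 ≤ ‖f n.toNat‖ := ⟨_, rfl⟩
  obtain ⟨P, hP⟩ : ∃ P : ℕ → Prop, P = fun n => ∀ j ∈ range H, (n ≡ 1 [MOD Q] → ‖dir (f (n + (j + 1) * K)) - dir (f (n + j * K))‖ ≤ ρ) ∧
    1 / 2 ≤ ‖f (n + j * K)‖ := ⟨_, rfl⟩
  have hex : (((Icc 1 N).filter (fun n => ¬ P n)).card : ℝ) ≤ 2 * H * (ρ * N + H * K) := by
    have h1 := ex_nat N P
    rw [← h1]
    have h2 : ex N (fun n => P n.toNat) ≤ ex N (fun n => ∀ j ∈ range H, Q' (n + (j * K : ℕ)) ∧ R (n + (j * K : ℕ))) := by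
      apply ex_mono
      intro n hn1 _ h3
      rw [hP]
      intro j hj
      obtain ⟨h4, h5⟩ := h3 j hj
      rw [hQ] at h4
      rw [hR] at h5
      have h6 : (n + (j * K : ℕ)).toNat = n.toNat + j * K := by omega
      have h7 : (n + (j * K : ℕ) + (K : ℤ)).toNat = n.toNat + (j + 1) * K := by
        have h8 : (j + 1) * K = j * K + K := by ring
        rw [h8]
        omega
      rw [h6, h7] at h4
      rw [h6] at h5
      refine ⟨fun hnQ => h4 ?_, h5⟩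
      have h9 : ((j * K : ℕ) : ℤ) ≡ 0 [ZMOD Q] := by
        rw [Int.modEq_zero_iff_dvd]
        exact_mod_cast hQK.mul_left j
      have h10 : n ≡ 1 [ZMOD Q] := by
        have h11 := (Int.natCast_modEq_iff (a := n.toNat) (b := 1) (n := Q)).2 hnQ
        rwa [show ((n.toNat : ℕ) : ℤ) = n by omega] at h11
      simpa using h10.add h9
    have h3 := ex_all (range H) N (fun j n => Q' (n + (j * K : ℕ)) ∧ R (n + (j * K : ℕ)))
    have h4 : ∀ j ∈ range H, ((ex N (fun n => Q' (n + (j * K : ℕ)) ∧ R (n + (j * K : ℕ))) : ℕ) : ℝ) ≤ 2 * (ρ * N + H * K) := by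
      intro j hj
      rw [Finset.mem_range] at hj
      have h5 := ex_and N (fun n => Q' (n + (j * K : ℕ))) (fun n => R (n + (j * K : ℕ)))
      have h6 := ex_shift N Q' (j * K : ℕ)
      have h7 := ex_shift N R (j * K : ℕ)
      rw [Int.natAbs_natCast] at h6 h7
      have h8 : (ex N Q' : ℝ) ≤ ρ * N := by
        rw [hQ]
        exact e1
      have h9 : (ex N R : ℝ) ≤ ρ * N := by
        rw [hR]
        exact e2
      have h10 : (ex N (fun n => Q' (n + (j * K : ℕ)) ∧ R (n + (j * K : ℕ))) : ℝ) ≤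
          (ex N Q' + j * K) + (ex N R + j * K) := by
        exact_mod_cast h5.trans (add_le_add h6 h7)
      have h11 : (j : ℝ) * K ≤ H * K := mul_le_mul_of_nonneg_right (by exact_mod_cast hj.le) (by linarith)
      linarith
    have h5 : (ex N (fun n => P n.toNat) : ℝ) ≤ ∑ j ∈ range H, ((ex N (fun n => Q' (n + (j * K : ℕ)) ∧ R (n + (j * K : ℕ))) : ℕ) : ℝ) := by
      exact_mod_cast h2.trans h3
    refine h5.trans ((Finset.sum_le_sum h4).trans (le_of_eq ?_))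
    rw [Finset.sum_const, Finset.card_range, nsmul_eq_mul]
    ring
  -- the lower bound
  have hlow : 3 / 8 * (H : ℝ) * ((N : ℝ) / K - 2 * H * (ρ * N + H * K)) ≤
      ∑ n ∈ (Icc 1 N).filter (fun n => n % K = 1 % K), ‖∑ j ∈ range H, f (n + j * K)‖ := by
    have h1 := ctr_cnt K N hK (by omega)
    have h2 : ((Icc 1 N).filter (fun n => n % K = 1 % K)).card ≤
        (((Icc 1 N).filter (fun n => n % K = 1 % K)).filter P).card + ((Icc 1 N).filter (fun n => ¬ P n)).card := by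
      rw [← Finset.card_filter_add_card_filter_not (s := (Icc 1 N).filter (fun n => n % K = 1 % K)) P]
      apply Nat.add_le_add_left
      apply Finset.card_le_card
      intro n hn
      rw [Finset.mem_filter, Finset.mem_filter] at hn
      rw [Finset.mem_filter]
      exact ⟨hn.1.1, hn.2⟩
    have h3 : (((Icc 1 N).filter (fun n => n % K = 1 % K)).card : ℝ) ≤
        ((((Icc 1 N).filter (fun n => n % K = 1 % K)).filter P).card : ℝ) + (((Icc 1 N).filter (fun n => ¬ P n)).card : ℝ) := by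
      exact_mod_cast h2
    have h4 : ∑ n ∈ ((Icc 1 N).filter (fun n => n % K = 1 % K)).filter P, 3 / 8 * (H : ℝ) ≤
        ∑ n ∈ ((Icc 1 N).filter (fun n => n % K = 1 % K)).filter P, ‖∑ j ∈ range H, f (n + j * K)‖ := by
      apply Finset.sum_le_sum
      intro n hn
      have h5 := (Finset.mem_filter.1 hn).2
      rw [hP] at h5
      have h8 : n ≡ 1 [MOD Q] := by
        have h9 : n ≡ 1 [MOD K] := (Finset.mem_filter.1 (Finset.mem_filter.1 hn).1).2
        exact h9.of_dvd hQK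
      exact ctr_low H (fun j => f (n + j * K)) ρ hρ0.le hρ4 (fun j hj => (h5 j hj).1 h8) (fun j hj => (h5 j hj).2)
    rw [Finset.sum_const, nsmul_eq_mul] at h4
    have h5 := Finset.sum_le_sum_of_subset_of_nonneg
      (Finset.filter_subset P ((Icc 1 N).filter (fun n => n % K = 1 % K)))
      (fun n _ _ => norm_nonneg (∑ j ∈ range H, f (n + j * K)))
    have h6 : (N : ℝ) / K - 2 * H * (ρ * N + H * K) ≤ ((((Icc 1 N).filter (fun n => n % K = 1 % K)).filter P).card : ℝ) := by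
      linarith
    have h7 := mul_le_mul_of_nonneg_left h6 (show (0 : ℝ) ≤ 3 / 8 * H by positivity)
    linarith
  have hcmp := hlow.trans hup
  -- comparison
  obtain ⟨y, hy⟩ : ∃ y : ℝ, y = (N : ℝ) / K := ⟨_, rfl⟩
  have hy0 : 0 < y := by
    rw [hy]
    positivity
  have k1 : 1 / (16 * (K : ℝ) ^ 2) * (H * K : ℕ) * N = H * y / 16 := by
    rw [hy]
    push_cast
    field_simp
  have k2 : 2 * (H : ℝ) * (ρ * N + H * K) ≤ y / 32 + y / 4 := by
    have k3 : 2 * (H : ℝ) * (ρ * N + H * K) = 2 * (H * ρ) * N + 2 * H ^ 2 * K := by ring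
    rw [k3, hρH]
    have k4 : 2 * (1 / (64 * (K : ℝ) ^ 2)) * N ≤ y / 32 := by
      rw [hy, div_div]
      have k5 : 2 * (1 / (64 * (K : ℝ) ^ 2)) * N = N / (32 * K ^ 2) := by
        field_simp
        norm_num
      rw [k5]
      apply div_le_div_of_nonneg_left (by linarith) (by positivity)
      nlinarith
    have k6 : 2 * (H : ℝ) ^ 2 * K ≤ y / 4 := by
      rw [hy, div_div, le_div_iff₀ (by positivity)]
      nlinarith
    linarith
  rw [k1, ← hy] at hcmp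
  have k7 : 3 / 8 * (H : ℝ) * (y / 2) ≤ 3 / 8 * (H : ℝ) * (y - 2 * H * (ρ * N + H * K)) := by
    apply mul_le_mul_of_nonneg_left _ (by positivity)
    linarith
  have k8 : 0 < (H : ℝ) * y := by positivity
  linarith

end Pool.H16.SW
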