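import Pool.Agent.H16.SW.APL

/-!
# [H16 SW DSC] From the multiples of `Q` to the class of `1`

PROOF. `n = Q m`, `m ≡ 1 mod Q`, `m ≤ N/Q`; `W1 = Q K1`, `Q ∣ K1`. `m` and `m + K1` are coprime to `Q`, so `f(Q m) = f(Q) f(m)`, `f(Q m + W1) = f(Q) f(m + K1)`; if these are nonzero `gm f (Q m) = dir f(Q) gm f m`, `gm f (Q m + W1) = dir f(Q) gm f (m + K1)` (`WE.dir_mul`), so `‖gm f (m + K1) - gm f m‖ = ‖gm f (Q m + W1) - gm f (Q m)‖`.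
`AA_dil` with `a = Q` for the property `n ∈ CL Q → ‖..‖ ≤ η`, for `f n ≠ 0` and (`AA_shift` first) `f (n + W1) ≠ 0`.
-/

set_option autoImplicit false

namespace Pool.H16.SW

open Finset Pool.H2.MR Pool.H2.WE

private theorem dsc_split {f : ℕ → ℂ} (hf : OB f) {Q : ℕ} {m : ℤ} (hm : 1 ≤ m) (hmQ : m ≡ 1 [ZMOD Q]) :
    f ((Q : ℤ) * m).toNat = f Q * f m.toNat := by
  obtain ⟨k, rfl⟩ : ∃ k : ℕ, m = k := ⟨m.toNat, by omega⟩
  have h1 : ((Q : ℤ) * (k : ℤ)).toNat = Q * k := by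
    rw [← Nat.cast_mul, Int.toNat_natCast]
  rw [h1, Int.toNat_natCast]
  apply hf.mul
  have h2 : k ≡ 1 [MOD Q] := by
    have := (Int.natCast_modEq_iff (a := k) (b := 1) (n := Q)).1 (by exact_mod_cast hmQ)
    exact this
  rw [Nat.coprime_comm]
  have h3 := h2.gcd_eq
  rw [Nat.Coprime, h3]
  simp

theorem dsc {N : ℕ → ℕ} (hN : Inf N) (f : ℕ → ℕ → ℂ) (hf : ∀ i, OB (f i)) (hne : AA N (fun i n => f i n.toNat ≠ 0)) (Q K1 : ℕ)
    (hQ : 1 ≤ Q) (hK : 1 ≤ K1) (hQK : Q ∣ K1)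
    (h : Ap N (CL Q) (fun i n => gm (f i) (n + ((Q * K1 : ℕ) : ℤ))) (fun i n => gm (f i) n)) :
    Ap (fun i => N i / Q) (fun m => m ≡ 1 [ZMOD Q]) (fun i m => gm (f i) (m + K1)) (fun i m => gm (f i) m) := by
  intro η hη
  have h1 := h η hη
  have h2 := AA_shift hN ((Q * K1 : ℕ) : ℤ) hne
  have h3 := AA_dil hN Q hQ (AA_and h1 (AA_and hne h2))
  refine AA_mono ?_ h3
  intro i m hm1 _ hh hmQ
  obtain ⟨g1, g2, g3⟩ := hh
  have g4 := g1 ⟨m, rfl, hmQ⟩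
  have hmQ' : m + K1 ≡ 1 [ZMOD Q] := by
    have h9 : ((K1 : ℕ) : ℤ) ≡ 0 [ZMOD Q] := by
      rw [Int.modEq_zero_iff_dvd]
      exact_mod_cast hQK
    simpa using hmQ.add h9
  have h5 : (Q : ℤ) * m + ((Q * K1 : ℕ) : ℤ) = (Q : ℤ) * (m + K1) := by push_cast; ring
  rw [h5] at g3
  have g4' : ‖gm (f i) ((Q : ℤ) * (m + K1)) - gm (f i) ((Q : ℤ) * m)‖ ≤ η := by
    rw [← h5]
    exact g4
  have e1 := dsc_split (hf i) hm1 hmQ
  have e2 := dsc_split (hf i) (m := m + K1) (by omega) hmQ'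
  rw [e1] at g2
  rw [e2] at g3
  have n1 : f i Q ≠ 0 := fun hz => g2 (by rw [hz, zero_mul])
  have n2 : f i m.toNat ≠ 0 := fun hz => g2 (by rw [hz, mul_zero])
  have n3 : f i (m + K1).toNat ≠ 0 := fun hz => g3 (by rw [hz, mul_zero])
  have d1 : gm (f i) ((Q : ℤ) * m) = dir (f i Q) * gm (f i) m := by
    unfold gm
    rw [e1, dir_mul _ _ n1 n2]
  have d2 : gm (f i) ((Q : ℤ) * (m + K1)) = dir (f i Q) * gm (f i) (m + K1) := by
    unfold gm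
    rw [e2, dir_mul _ _ n1 n3]
  rw [d1, d2, ← mul_sub, norm_mul, dir_norm, one_mul] at g4'
  exact g4'

end Pool.H16.SW
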