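import Pool.Agent.H2.MU.Res

/-!
# Sharp weak Elliott (MP_0c9a68_nt): definitions and plan

`K` 1-bounded multiplicative functions `g_j`, distinct shifts `h_j ≥ 0`, `F = ∏ g_j^(c_j)` (`FF c g`).  If `c_j = α + β h_j` for all
`j` outside a set `I` of functions of finite order, and if `F` satisfies condition (N) at the scale `N`, then
`|∑_{n≤N} ∏ g_j(n + h_j)| ≤ (1 - δ) N`.  If `c` is not of this form the uniform statement is false.

The proof is by contradiction, with a sequence of counterexamples `N i → ∞`, `g i`.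

* `AA N Q`: `Q i n` holds for all but `o(N i)` of the `n ≤ N i`; `Ap N S u v`: `u i n - v i n → 0` for almost all `n` of the class `S`.
* `Sit K h N g ζ`: the standing situation `∏ g_j(n + h_j) ≈ ζ`.
* `gm g n`: the direction of `g n`.
* `AAL` (facts about `AA`, `Ap`), `SIZ`, `AREL`, `POL`, `EQS`, `PLY`, `TOR` (the `K`-th differences of the directions are `≈ 1`),
  `NWT` (Newton's formula), `PAIR` (small pairs), `QUA` (integer identity), `ALG`, `KAP`, `DSC`, `CTC`, `NAQ`, `FinA`, `ResA`.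
* Necessity: `LINB`, `ZET`, `CHR`, `MEX`, `FinB`.
-/

set_option autoImplicit false

namespace Pool.H16.SW

open Finset Pool.H2.MR Pool.H2.WE

/-- `Q i n` holds for all but `o(N i)` of the integers `n` in `[1, N i]` -/
def AA (N : ℕ → ℕ) (Q : ℕ → ℤ → Prop) : Prop :=
  ∀ ε : ℝ, 0 < ε → ∃ i₀ : ℕ, ∀ i, i₀ ≤ i → (ex (N i) (Q i) : ℝ) ≤ ε * N i

/-- `u i n - v i n → 0` for almost all `n` in the class `S` -/
def Ap (N : ℕ → ℕ) (S : ℤ → Prop) (u v : ℕ → ℤ → ℂ) : Prop :=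
  ∀ η : ℝ, 0 < η → AA N (fun i n => S n → ‖u i n - v i n‖ ≤ η)

/-- `N i → ∞` -/
def Inf (N : ℕ → ℕ) : Prop := ∀ B : ℕ, ∃ i₀ : ℕ, ∀ i, i₀ ≤ i → B ≤ N i

/-- all integers -/
def All (_ : ℤ) : Prop := True

/-- the direction of `g n` -/
noncomputable def gm (g : ℕ → ℂ) (n : ℤ) : ℂ := dir (g n.toNat)

/-- integral powers, the negative ones being powers of the conjugate -/
noncomputable def pw (z : ℂ) (c : ℤ) : ℂ := if 0 ≤ c then z ^ c.toNat else (starRingEnd ℂ z) ^ (-c).toNat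

/-- `∏ g_j^(c_j)` -/
noncomputable def FF {K : ℕ} (c : Fin K → ℤ) (g : Fin K → ℕ → ℂ) (n : ℕ) : ℂ := ∏ j, pw (g j n) (c j)

/-- the class of the `n = Q m` with `m ≡ 1` modulo `Q` -/
def CL (Q : ℕ) (n : ℤ) : Prop := ∃ m : ℤ, n = Q * m ∧ m ≡ 1 [ZMOD Q]

/-- finite order: all values are in `[0, 1] μ_q` -/
def FO (q : ℕ) (f : ℕ → ℂ) : Prop := ∀ n, ∃ r : ℝ, 0 ≤ r ∧ f n ^ q = r

/-- the iterated difference of order `m` with step `t` -/
noncomputable def df (m t : ℕ) (G : ℤ → ℂ) : ℤ → ℂ := dls (List.replicate m (t : ℤ)) G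

/-- the standing situation -/
structure Sit (K : ℕ) (h : Fin K → ℕ) (N : ℕ → ℕ) (g : ℕ → Fin K → ℕ → ℂ) (ζ : ℕ → ℂ) : Prop where
  inf : Inf N
  ob : ∀ i j, OB (g i j)
  zt : ∀ i, ‖ζ i‖ = 1
  ap : Ap N All (fun i n => ∏ j, g i j (n + h j).toNat) (fun i _ => ζ i)

theorem gm_norm (g : ℕ → ℂ) (n : ℤ) : ‖gm g n‖ = 1 := dir_norm _

end Pool.H16.SW
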