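import Pool.Agent.H16.SW.Defs
import Pool.Agent.H2.WE.Rel

/-!
# [H16 SW EQS] From mixed differences to pure differences with one step

PROOF. Call `A(l, η, E)`: `‖dls l G n - 1‖ ≤ η` off `E` exceptions. (a) `dls (t :: l) G = dl t (dls l G)` (`dls_cons`), `F = dls l G` is within `η` of `c` off `E` exceptions, so `F(n+t) conj F(n)` is within `2η` of `c conj c = 1` off `2E + t` exceptions (`ex_shift`, `ex_and`): `A(t :: l, 2η, 2E + t)`.
(b) `A(a :: l, η, E)` and `t = m a`, `m ≠ 0`, `|m| ≤ t`: `H = dls l G` (modulus 1): for `m > 0` `H(n + m a) conj H(n) = ∏_{i<m} H(n + (i+1) a) conj H(n + i a)` is within `m η` of `1` off `m (E + m |a|)` exceptions; for `m < 0` apply this at the point `n + t = n - |m| a` ... : `dl (m a) H n = conj (dl (|m| a) H (n + m a))`, one more shift by `m a`.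
So `A(t :: l, t η, t (E + t) + t)`. (c) Start with `t :: l` and replace the elements of `l` by `t`, one after the other (`dls_perm` to bring an element to the front; e.g. induction on the length of `l` for the statement: `A(replicate m t ++ l, η, E)` implies `A(replicate (m + l.length) t, C η, C (E + 1))`). All constants depend on `t` and `k` only.
-/

set_option autoImplicit false

namespace Pool.H16.SW

open Finset Pool.H2.MR Pool.H2.WE

private theorem conj_one {F : ℤ → ℂ} (hF : ∀ n, ‖F n‖ = 1) (n : ℤ) : F n * (starRingEnd ℂ) (F n) = 1 := by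
  rw [Complex.mul_conj, Complex.normSq_eq_norm_sq, hF]
  simp

private theorem dl_n {F : ℤ → ℂ} (hF : ∀ n, ‖F n‖ = 1) (a n : ℤ) : ‖dl a F n‖ = 1 := by
  unfold dl
  rw [norm_mul, RCLike.norm_conj, hF, hF, one_mul]

private theorem ex_zero (N : ℕ) (Q : ℤ → Prop) (h : ∀ n, Q n) : ex N Q = 0 := by
  classical
  unfold ex
  refine Finset.card_eq_zero.2 (Finset.filter_eq_empty_iff.2 ?_)
  intro n _ hn
  exact hn (h n)

private theorem chain1 (N : ℕ) (F : ℤ → ℂ) (hF : ∀ n, ‖F n‖ = 1) (a : ℤ) (η : ℝ) (E : ℕ)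
    (h : ex N (fun n => ‖dl a F n - 1‖ ≤ η) ≤ E) (m : ℕ) :
    ex N (fun n => ‖dl (m * a) F n - 1‖ ≤ m * η) ≤ m * (E + m * a.natAbs) := by
  induction m with
  | zero =>
    rw [ex_zero N _ (fun n => ?_)]
    · exact Nat.zero_le _
    · unfold dl
      rw [Nat.cast_zero, zero_mul, add_zero, conj_one hF n, sub_self, norm_zero, Nat.cast_zero, zero_mul]
  | succ m ih =>
    have h1 : ex N (fun n => ‖dl (((m + 1 : ℕ) : ℤ) * a) F n - 1‖ ≤ ((m + 1 : ℕ) : ℝ) * η) ≤
        ex N (fun n => ‖dl a F (n + m * a) - 1‖ ≤ η ∧ ‖dl (m * a) F n - 1‖ ≤ m * η) := by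
      apply ex_mono
      intro n _ _ hn
      obtain ⟨e1, e2⟩ := hn
      have h2 : dl (((m + 1 : ℕ) : ℤ) * a) F n = dl a F (n + m * a) * dl (m * a) F n := by
        unfold dl
        have h3 := conj_one hF (n + m * a)
        rw [show n + ((m + 1 : ℕ) : ℤ) * a = n + m * a + a by push_cast; ring]
        calc F (n + m * a + a) * (starRingEnd ℂ) (F n) = F (n + m * a + a) * (starRingEnd ℂ) (F n) * 1 := by rw [mul_one]
          _ = _ := by rw [← h3]; ring
      rw [h2]
      have h4 : dl a F (n + m * a) * dl (m * a) F n - 1 = (dl a F (n + m * a) - 1) * dl (m * a) F n + (dl (m * a) F n - 1) := by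
        ring
      rw [h4]
      refine (norm_add_le _ _).trans ?_
      rw [norm_mul, dl_n hF, mul_one]
      push_cast
      linarith
    have h2 := ex_and N (fun n => ‖dl a F (n + m * a) - 1‖ ≤ η) (fun n => ‖dl (m * a) F n - 1‖ ≤ m * η)
    have h3 := ex_shift N (fun n => ‖dl a F n - 1‖ ≤ η) (m * a)
    have h4 : ((m : ℤ) * a).natAbs = m * a.natAbs := by
      rw [Int.natAbs_mul, Int.natAbs_natCast]
    rw [h4] at h3
    have h5 : (m + 1) * (E + (m + 1) * a.natAbs) = m * (E + m * a.natAbs) + (E + m * a.natAbs) + (m + 1) * a.natAbs := by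
      ring
    have h6 : 0 ≤ (m + 1) * a.natAbs := Nat.zero_le _
    omega

private theorem chain2 (N : ℕ) (F : ℤ → ℂ) (hF : ∀ n, ‖F n‖ = 1) (t : ℕ) (ht : 1 ≤ t) (a : ℤ) (ha : a ∣ (t : ℤ)) (η : ℝ) (hη : 0 ≤ η)
    (E : ℕ) (h : ex N (fun n => ‖dl a F n - 1‖ ≤ η) ≤ E) :
    ex N (fun n => ‖dl t F n - 1‖ ≤ t * η) ≤ t * (E + t) + t := by
  obtain ⟨m, hm⟩ := ha
  have h0 : m.natAbs * a.natAbs = t := by
    have h1 := congrArg Int.natAbs hm
    rw [Int.natAbs_mul, Int.natAbs_natCast] at h1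
    rw [h1, mul_comm]
  have ha1 : 1 ≤ a.natAbs := by
    rcases Nat.eq_zero_or_pos a.natAbs with h1 | h1
    · rw [h1, mul_zero] at h0
      omega
    · exact h1
  have hmt : m.natAbs ≤ t := by
    rw [← h0]
    exact Nat.le_mul_of_pos_right _ ha1
  have hmr : (m.natAbs : ℝ) * η ≤ t * η := by
    refine mul_le_mul_of_nonneg_right ?_ hη
    exact_mod_cast hmt
  have hcnt : m.natAbs * (E + m.natAbs * a.natAbs) ≤ t * (E + t) := by
    rw [h0]
    exact Nat.mul_le_mul_right _ hmt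
  have hch := chain1 N F hF a η E h m.natAbs
  rcases le_or_gt 0 m with h1 | h1
  · have h2 : ((m.natAbs : ℕ) : ℤ) * a = t := by
      rw [Int.natAbs_of_nonneg h1, hm, mul_comm]
    rw [h2] at hch
    refine le_trans (le_trans (ex_mono ?_) hch) (by omega)
    intro n _ _ hn
    exact hn.trans hmr
  · have h2 : ((m.natAbs : ℕ) : ℤ) * a = -t := by
      have h3 : ((m.natAbs : ℕ) : ℤ) = -m := by omega
      rw [h3, hm]
      ring
    rw [h2] at hch
    have h3 := ex_shift N (fun n => ‖dl (-(t : ℤ)) F n - 1‖ ≤ m.natAbs * η) t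
    rw [Int.natAbs_natCast] at h3
    refine le_trans (le_trans (ex_mono ?_) h3) (by omega)
    intro n _ _ hn
    have h4 : dl (-(t : ℤ)) F (n + t) = (starRingEnd ℂ) (dl t F n) := by
      unfold dl
      rw [map_mul, Complex.conj_conj, show n + (t : ℤ) + -(t : ℤ) = n by ring, mul_comm]
    rw [h4] at hn
    have h5 : (starRingEnd ℂ) (dl t F n) - 1 = (starRingEnd ℂ) (dl t F n - 1) := by
      rw [map_sub, map_one]
    rw [h5, RCLike.norm_conj] at hn
    exact hn.trans hmr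

private theorem eqs_ind (t : ℕ) (ht : 1 ≤ t) (N : ℕ) (G : ℤ → ℂ) (hG : ∀ n, ‖G n‖ = 1) (l : List ℤ) :
    (∀ a ∈ l, a ∣ (t : ℤ)) → ∀ (m E : ℕ) (η : ℝ), 0 ≤ η →
      ex N (fun n => ‖dls (List.replicate m (t : ℤ) ++ l) G n - 1‖ ≤ η) ≤ E →
      ex N (fun n => ‖dls (List.replicate (m + l.length) (t : ℤ)) G n - 1‖ ≤ t ^ l.length * η) + 1 ≤
        (2 * (t + 1) ^ 2) ^ l.length * (E + 1) := by
  induction l with
  | nil =>
    intro _ m E η _ h
    rw [List.append_nil] at h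
    simp only [List.length_nil, add_zero, pow_zero, one_mul]
    omega
  | cons a l ih =>
    intro hl m E η hη h
    have ha : a ∣ (t : ℤ) := hl a List.mem_cons_self
    have hp : (List.replicate m (t : ℤ) ++ a :: l).Perm (a :: (List.replicate m (t : ℤ) ++ l)) := List.perm_middle
    rw [dls_perm hp G, dls_cons] at h
    have h1 := chain2 N (dls (List.replicate m (t : ℤ) ++ l) G) (dls_norm _ G hG) t ht a ha η hη E h
    have h2 := ih (fun b hb => hl b (List.mem_cons_of_mem _ hb)) (m + 1) (t * (E + t) + t) (t * η) (by positivity) (by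
      rw [List.replicate_succ, List.cons_append, dls_cons]
      exact h1)
    have h3 : m + 1 + l.length = m + (a :: l).length := by
      rw [List.length_cons]
      ring
    rw [h3] at h2
    have h4 : (t : ℝ) ^ (a :: l).length * η = t ^ l.length * (t * η) := by
      rw [List.length_cons, pow_succ]
      ring
    rw [h4]
    refine h2.trans ?_
    rw [List.length_cons, pow_succ (2 * (t + 1) ^ 2) l.length, mul_assoc]
    refine Nat.mul_le_mul_left _ ?_
    nlinarith [Nat.zero_le (t * E), Nat.zero_le (t * t * E), Nat.zero_le E, Nat.zero_le t]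

theorem eqs (t : ℕ) (ht : 1 ≤ t) (k : ℕ) : ∃ C : ℕ, ∀ l : List ℤ, l.length = k → (∀ a ∈ l, a ∣ (t : ℤ)) →
    ∀ (N : ℕ) (G : ℤ → ℂ) (E : ℕ) (η : ℝ) (c : ℂ), (∀ n, ‖G n‖ = 1) → ‖c‖ = 1 → 0 ≤ η →
      ex N (fun n => ‖dls l G n - c‖ ≤ η) ≤ E →
      ex N (fun n => ‖df (k + 1) t G n - 1‖ ≤ C * η) ≤ C * (E + 1) := by
  refine ⟨(2 * (t + 1) ^ 2) ^ k * (t + 2) + t ^ k * 2, ?_⟩
  intro l hlk hl N G E η c hG hc hη h
  obtain ⟨F, hF⟩ : ∃ F, F = dls l G := ⟨_, rfl⟩
  have hFn : ∀ n, ‖F n‖ = 1 := by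
    rw [hF]
    exact dls_norm l G hG
  have hcc : c * (starRingEnd ℂ) c = 1 := by
    rw [Complex.mul_conj, Complex.normSq_eq_norm_sq, hc]
    simp
  have h0 : ex N (fun n => ‖dls (List.replicate 1 (t : ℤ) ++ l) G n - 1‖ ≤ 2 * η) ≤ 2 * E + t := by
    rw [List.replicate_one, List.singleton_append, dls_cons, ← hF]
    rw [← hF] at h
    have h1 := ex_shift N (fun n => ‖F n - c‖ ≤ η) t
    rw [Int.natAbs_natCast] at h1
    have h2 := ex_and N (fun n => ‖F (n + t) - c‖ ≤ η) (fun n => ‖F n - c‖ ≤ η)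
    have h3 : ex N (fun n => ‖dl t F n - 1‖ ≤ 2 * η) ≤ ex N (fun n => ‖F (n + t) - c‖ ≤ η ∧ ‖F n - c‖ ≤ η) := by
      apply ex_mono
      intro n _ _ hn
      obtain ⟨e1, e2⟩ := hn
      unfold dl
      have h4 : F (n + t) * (starRingEnd ℂ) (F n) - 1 = (F (n + t) - c) * (starRingEnd ℂ) (F n) + c * (starRingEnd ℂ) (F n - c) := by
        rw [map_sub]
        linear_combination hcc
      rw [h4]
      refine (norm_add_le _ _).trans ?_
      rw [norm_mul, norm_mul, RCLike.norm_conj, RCLike.norm_conj, hFn, hc, mul_one, one_mul]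
      linarith
    omega
  have h1 := eqs_ind t ht N G hG l hl 1 (2 * E + t) (2 * η) (by positivity) h0
  rw [hlk, show 1 + k = k + 1 by ring] at h1
  unfold df
  have h2 : ex N (fun n => ‖dls (List.replicate (k + 1) (t : ℤ)) G n - 1‖ ≤ (((2 * (t + 1) ^ 2) ^ k * (t + 2) + t ^ k * 2 : ℕ) : ℝ) * η) ≤
      ex N (fun n => ‖dls (List.replicate (k + 1) (t : ℤ)) G n - 1‖ ≤ t ^ k * (2 * η)) := by
    apply ex_mono
    intro n _ _ hn
    refine hn.trans ?_
    have h3 : (0 : ℝ) ≤ (2 * (t + 1) ^ 2) ^ k * (t + 2) * η := by positivity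
    push_cast
    nlinarith
  have h3 : (2 * (t + 1) ^ 2) ^ k * (2 * E + t + 1) ≤ ((2 * (t + 1) ^ 2) ^ k * (t + 2) + t ^ k * 2) * (E + 1) := by
    have h4 : 2 * E + t + 1 ≤ (t + 2) * (E + 1) := by
      nlinarith [Nat.zero_le (t * E)]
    have h5 : (2 * (t + 1) ^ 2) ^ k * (2 * E + t + 1) ≤ (2 * (t + 1) ^ 2) ^ k * ((t + 2) * (E + 1)) := Nat.mul_le_mul_left _ h4
    have h6 : 0 ≤ t ^ k * 2 * (E + 1) := Nat.zero_le _
    nlinarith
  omega

end Pool.H16.SW
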