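import Pool.Agent.H16.SW.APL

/-!
# [H16 SW KAP] The constant factor is 1

PROOF. `p` prime with `p ≡ 1 mod Q`, `p > W` (`Nat.exists_prime_gt_modEq_one`). Let `G i n = gm (f i) n`. For `l ≤ p` (`Ap_shift`, `n + l W ∈ CL Q` as `Q^2 ∣ W`): `G(n + l W) ≈ κ^l G(n)` on `CL Q`; in particular `l = p`: (1) `G(n + p W) ≈ κ^p G(n)`. `AA_pick` with the class `n ≡ Q + Q^2 .. `: we want `n ∈ CL Q`,
`p ∤ n`, `p ∤ n + W`: take `n ≡ r mod Q^2 p` where `r ≡ Q mod Q^2` (so `n = Q m`, `m ≡ 1 mod Q`) and `r ≡ 1 mod p` (CRT, `p` is coprime to `Q`; then `n ≡ 1`, `n + W ≡ 1 + W mod p`, and `0 < 1 + W`, `1 + W < p` if `p > W + 1`: take `p > W + 1`). Conditions: (1) at `p n` (`p n ∈ CL Q`: `p n = Q (p m)`, `p m ≡ 1`),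
`G(n + W) ≈ κ G(n)` at `n`, and `f` nonzero at `n, n + W, p n, p n + p W`. As `f(p n) = f(p) f(n)`, `f(p n + p W) = f(p) f(n + W)` (coprime), `f(p) ≠ 0` and `G(p n) = dir f(p) G(n)`, `G(p(n+W)) = dir f(p) G(n + W)` (`WE.dir_mul`): `κ^p G(p n) ≈ G(p n + p W) = dir f(p) G(n+W) ≈ κ dir f(p) G(n) = κ G(p n)`, so `‖κ i^p - κ i‖ ≤ 2 η` for large `i`.
Then `W1 = (p - 1) W`: `G(n + W1) ≈ κ^(p-1) G(n)` and `‖κ^(p-1) - 1‖ = ‖κ^p - κ‖ → 0`.
-/

set_option autoImplicit false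

namespace Pool.H16.SW

open Finset Pool.H2.MR Pool.H2.WE

private theorem kap_cl {Q W : ℕ} (hQW : Q ^ 2 ∣ W) (l : ℕ) (n : ℤ) (h : CL Q n) :
    CL Q (n + (l : ℤ) * W) := by
  obtain ⟨m, hm, hm1⟩ := h
  obtain ⟨w, hw⟩ := hQW
  refine ⟨m + l * Q * w, ?_, ?_⟩
  · rw [hm, hw]
    push_cast
    ring
  · have h1 : m + l * Q * w ≡ m [ZMOD Q] := by
      have h2 : (l * Q * w : ℤ) ≡ 0 [ZMOD Q] :=
        Int.modEq_zero_iff_dvd.2 ⟨l * w, by ring⟩
      have h3 := h2.add_left m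
      rwa [add_zero] at h3
    exact h1.trans hm1

private theorem kap_pow {N : ℕ → ℕ} (hN : Inf N) (f : ℕ → ℕ → ℂ) {Q W : ℕ}
    (hQW : Q ^ 2 ∣ W) (κ : ℕ → ℂ) (hκ : ∀ i, ‖κ i‖ = 1)
    (h : Ap N (CL Q) (fun i n => gm (f i) (n + W)) (fun i n => κ i * gm (f i) n)) (l : ℕ) :
    Ap N (CL Q) (fun i n => gm (f i) (n + (l : ℤ) * W)) (fun i n => κ i ^ l * gm (f i) n) := by
  induction l with
  | zero =>
    have h1 := Ap_refl N (CL Q) (fun i n => gm (f i) n)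
    simp only [Nat.cast_zero, zero_mul, add_zero, pow_zero, one_mul]
    exact h1
  | succ l ih =>
    have h1 := Ap_shift hN ((l : ℤ) * W) (kap_cl hQW l) h
    have h2 : Ap N (CL Q) (fun i n => κ i * gm (f i) (n + (l : ℤ) * W))
        (fun i n => κ i * (κ i ^ l * gm (f i) n)) := by
      refine Ap_mul (u := fun i _ => κ i) (v := fun i _ => κ i) ?_ ?_ (Ap_refl _ _ _) ih
      · intro i n
        exact (gm_norm _ _).le
      · intro i n
        exact (hκ i).le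
    have h3 := Ap_trans h1 h2
    intro η hη
    refine AA_mono ?_ (h3 η hη)
    intro i n _ _ h4 h5
    have h6 := h4 h5
    have e1 : n + ((l + 1 : ℕ) : ℤ) * W = n + (l : ℤ) * W + W := by
      push_cast
      ring
    show ‖gm (f i) (n + ((l + 1 : ℕ) : ℤ) * W) - κ i ^ (l + 1) * gm (f i) n‖ ≤ η
    rw [e1, pow_succ', mul_assoc]
    exact h6

theorem kap {N : ℕ → ℕ} (hN : Inf N) (f : ℕ → ℕ → ℂ) (hf : ∀ i, OB (f i)) (hne : AA N (fun i n => f i n.toNat ≠ 0)) (Q W : ℕ)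
    (hQ : 1 ≤ Q) (hW : 1 ≤ W) (hQW : Q ^ 2 ∣ W) (κ : ℕ → ℂ) (hκ : ∀ i, ‖κ i‖ = 1)
    (h : Ap N (CL Q) (fun i n => gm (f i) (n + W)) (fun i n => κ i * gm (f i) n)) :
    ∃ W1 : ℕ, 1 ≤ W1 ∧ Q ^ 2 ∣ W1 ∧ Ap N (CL Q) (fun i n => gm (f i) (n + W1)) (fun i n => gm (f i) n) := by
  obtain ⟨p, hp, hpW, hpQ⟩ := Nat.exists_prime_gt_modEq_one (k := Q) (W + 1) (by omega)
  have hQW' : Q ^ 2 ≤ W := Nat.le_of_dvd hW hQW
  have hQp : Q < p := by nlinarith
  have hco : Nat.Coprime (Q ^ 2) p := by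
    apply Nat.Coprime.pow_left
    apply Nat.Coprime.symm
    exact (Nat.Prime.coprime_iff_not_dvd hp).2 fun hd => absurd (Nat.le_of_dvd hQ hd) (by omega)
  obtain ⟨r, hr1, hr2⟩ := Nat.chineseRemainder hco Q 1
  have hp1 : 1 < p := hp.one_lt
  have hkey : ∀ η : ℝ, 0 < η → ∃ i₀ : ℕ, ∀ i, i₀ ≤ i → ‖κ i ^ p - κ i‖ ≤ η := by
    intro η hη
    have hA := h (η / 2) (by positivity)
    have hB := kap_pow hN f hQW κ hκ h p (η / 2) (by positivity)
    have h1 := AA_and hA (AA_and hne (AA_shift hN (W : ℤ) hne))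
    have h2 := AA_and hB hne
    obtain ⟨Q1, hQ1⟩ : ∃ Q1 : ℕ → ℤ → Prop, Q1 = fun i n =>
      (CL Q n → ‖gm (f i) (n + W) - κ i * gm (f i) n‖ ≤ η / 2) ∧
        (f i n.toNat ≠ 0 ∧ f i (n + (W : ℤ)).toNat ≠ 0) := ⟨_, rfl⟩
    obtain ⟨Q2, hQ2⟩ : ∃ Q2 : ℕ → ℤ → Prop, Q2 = fun i n =>
      (CL Q n → ‖gm (f i) (n + (p : ℤ) * W) - κ i ^ p * gm (f i) n‖ ≤ η / 2) ∧
        f i n.toNat ≠ 0 := ⟨_, rfl⟩
    have h1' : AA N Q1 := by rw [hQ1]; exact h1
    have h2' : AA N Q2 := by rw [hQ2]; exact h2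
    obtain ⟨i₀, hi₀⟩ := AA_pick hN (Q ^ 2 * p) (Nat.mul_pos (by positivity) hp.pos) (r : ℤ) 1
      (Finset.univ : Finset Bool) (fun b => bif b then 1 else p)
      (fun b _ => by cases b <;> simp [hp.one_le]) (fun _ => 0) (fun b => bif b then Q1 else Q2)
      (fun b _ => by cases b <;> simp [h1', h2'])
    refine ⟨i₀, fun i hi => ?_⟩
    obtain ⟨n, hn1, hnr, hn⟩ := hi₀ i hi
    have c1 : Q1 i (((1 : ℕ) : ℤ) * n + 0) := hn true (Finset.mem_univ _)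
    have c2 : Q2 i ((p : ℤ) * n + 0) := hn false (Finset.mem_univ _)
    rw [Nat.cast_one, one_mul, add_zero] at c1
    rw [add_zero] at c2
    obtain ⟨k, rfl⟩ := Int.eq_ofNat_of_zero_le (by omega : 0 ≤ n)
    have hkr : k ≡ r [MOD Q ^ 2 * p] := by exact_mod_cast hnr
    have hk1 : k ≡ Q [MOD Q ^ 2] := (hkr.of_mul_right _).trans hr1
    have hk2 : k ≡ 1 [MOD p] := (hkr.of_mul_left _).trans hr2
    have hcl : ∃ m : ℤ, (k : ℤ) = Q * m ∧ m ≡ 1 [ZMOD Q] := by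
      obtain ⟨c, hc⟩ := Nat.modEq_iff_dvd.1 hk1
      refine ⟨1 - Q * c, ?_, ?_⟩
      · push_cast at hc
        linear_combination -hc
      · have h3 : (Q * c : ℤ) ≡ 0 [ZMOD Q] := Int.modEq_zero_iff_dvd.2 ⟨c, rfl⟩
        have h4 := h3.sub_left 1
        rwa [sub_zero] at h4
    have hcl2 : CL Q ((p : ℤ) * k) := by
      obtain ⟨m, hm, hm1⟩ := hcl
      refine ⟨p * m, by rw [hm]; ring, ?_⟩
      have h3 : (p : ℤ) ≡ 1 [ZMOD Q] := by
        have h4 := (Int.natCast_modEq_iff (a := p) (b := 1) (n := Q)).2 hpQ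
        rwa [Nat.cast_one] at h4
      have h4 := h3.mul hm1
      rwa [one_mul] at h4
    have hpk : Nat.Coprime p k := by
      have h3 := hk2.gcd_eq
      rw [Nat.gcd_one_left] at h3
      exact Nat.Coprime.symm h3
    have hpkW : Nat.Coprime p (k + W) := by
      have h3 : k + W ≡ 1 + W [MOD p] := hk2.add_right W
      have h4 := h3.gcd_eq
      have h5 : Nat.Coprime p (1 + W) := (Nat.Prime.coprime_iff_not_dvd hp).2 fun hd =>
        absurd (Nat.le_of_dvd (by omega) hd) (by omega)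
      rw [Nat.Coprime.symm h5] at h4
      exact Nat.Coprime.symm h4
    rw [hQ1] at c1
    rw [hQ2] at c2
    obtain ⟨d1, d2, d3⟩ := c1
    obtain ⟨d4, d5⟩ := c2
    have g1 := d1 hcl
    have g2 := d4 hcl2
    have e1 : ((k : ℤ) + (W : ℤ)).toNat = k + W := by omega
    have e2 : ((p : ℤ) * (k : ℤ)).toNat = p * k := by
      rw [← Nat.cast_mul, Int.toNat_natCast]
    have e3 : ((p : ℤ) * (k : ℤ) + (p : ℤ) * (W : ℤ)).toNat = p * (k + W) := by
      rw [← Nat.cast_mul, ← Nat.cast_mul, ← Nat.cast_add, Int.toNat_natCast]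
      ring
    have e4 : ((k : ℤ)).toNat = k := Int.toNat_natCast k
    rw [e1] at d3
    rw [e2, (hf i).mul p k hpk] at d5
    rw [e4] at d2
    have hfp : f i p ≠ 0 := left_ne_zero_of_mul d5
    unfold gm at g1 g2
    rw [e1, e4] at g1
    rw [e2, e3, (hf i).mul p k hpk, (hf i).mul p (k + W) hpkW, dir_mul _ _ hfp d2,
      dir_mul _ _ hfp d3] at g2
    have hd : ‖dir (f i p)‖ = 1 := dir_norm _
    have hd' : ‖dir (f i k)‖ = 1 := dir_norm _
    have g3 : ‖dir (f i (k + W)) - κ i ^ p * dir (f i k)‖ ≤ η / 2 := by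
      have h3 : dir (f i p) * dir (f i (k + W)) - κ i ^ p * (dir (f i p) * dir (f i k)) =
          dir (f i p) * (dir (f i (k + W)) - κ i ^ p * dir (f i k)) := by ring
      rw [h3, norm_mul, hd, one_mul] at g2
      exact g2
    have g4 : κ i ^ p - κ i = ((dir (f i (k + W)) - κ i * dir (f i k)) -
        (dir (f i (k + W)) - κ i ^ p * dir (f i k))) * (starRingEnd ℂ) (dir (f i k)) := by
      have h3 : dir (f i k) * (starRingEnd ℂ) (dir (f i k)) = 1 := by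
        rw [Complex.mul_conj, Complex.normSq_eq_norm_sq, hd']
        norm_num
      linear_combination (κ i - κ i ^ p) * h3
    rw [g4, norm_mul, RCLike.norm_conj, hd', mul_one]
    calc _ ≤ ‖dir (f i (k + W)) - κ i * dir (f i k)‖ +
          ‖dir (f i (k + W)) - κ i ^ p * dir (f i k)‖ := norm_sub_le _ _
      _ ≤ η / 2 + η / 2 := add_le_add g1 g3
      _ = η := by ring
  refine ⟨(p - 1) * W, Nat.mul_pos (by omega) hW, Dvd.dvd.mul_left hQW _, ?_⟩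
  have h3 := kap_pow hN f hQW κ hκ h (p - 1)
  have h4 : Ap N (CL Q) (fun i n => κ i ^ (p - 1) * gm (f i) n) (fun i n => gm (f i) n) := by
    intro η hη
    obtain ⟨i₀, hi₀⟩ := hkey η hη
    refine AA_ev (Q := fun _ _ => True) i₀ ?_ (AA_true N fun _ _ _ _ => trivial)
    intro i hi n _ _ _ _
    have h5 : κ i * (κ i ^ (p - 1) * gm (f i) n - gm (f i) n) = (κ i ^ p - κ i) * gm (f i) n := by
      have h6 : κ i ^ p = κ i * κ i ^ (p - 1) := by
        rw [← pow_succ']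
        congr 1
        omega
      rw [h6]
      ring
    have h6 := congrArg norm h5
    rw [norm_mul, hκ, one_mul, norm_mul, gm_norm, mul_one] at h6
    show ‖κ i ^ (p - 1) * gm (f i) n - gm (f i) n‖ ≤ η
    rw [h6]
    exact hi₀ i hi
  have h5 := Ap_trans h3 h4
  intro η hη
  refine AA_mono ?_ (h5 η hη)
  intro i n _ _ h6 h7
  have h8 := h6 h7
  show ‖gm (f i) (n + (((p - 1) * W : ℕ) : ℤ)) - gm (f i) n‖ ≤ η
  rw [Nat.cast_mul]
  exact h8

end Pool.H16.SW
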