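import Pool.Agent.H2.MU.Res

/-!
# [H16 SW NAQ] Condition (N) at a smaller scale

PROOF. As `NA_shift` in `H2/MU/Res.lean`. For `r ≤ A`, `|t| ≤ N/Q ≤ N`: the sum over the primes `p ≤ N` is at least `A + 4Q + 4`; its terms are in `[0, 2/p]` (`NA_term`), and the part `N/Q < p ≤ N` is at most `∑_{N/Q < n ≤ N} 2/n ≤ 2 N/(N/Q + 1) ≤ 2 Q` (each `n ≥ N/Q + 1`, `(N/Q + 1) Q > N`).
-/

set_option autoImplicit false

namespace Pool.H16.SW

open Finset Pool.H2.MR Pool.H2.WE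

theorem NA_div (f : ℕ → ℂ) (hf : OB f) (A N Q : ℕ) (hQ : 1 ≤ Q) (h : NA (A + 4 * Q + 4) N f) : NA A (N / Q) f := by
  obtain ⟨X, hX⟩ : ∃ X, X = N / Q := ⟨_, rfl⟩
  rw [← hX]
  have hXN : X ≤ N := by rw [hX]; exact Nat.div_le_self N Q
  have hQX : N < (X + 1) * Q := by
    rw [hX]
    have h1 := Nat.div_add_mod N Q
    have h2 := Nat.mod_lt N (by omega : Q > 0)
    nlinarith
  intro r χ hr hrA t ht
  have hNT : (X : ℝ) ≤ N := by exact_mod_cast hXN
  have h1 := h r χ hr (by omega) t (ht.trans hNT)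
  obtain ⟨F, hF⟩ : ∃ F : ℕ → ℝ, F = fun p => (1 - (f p * starRingEnd ℂ (χ (p : ZMod r) * (p : ℂ) ^ (Complex.I * (t : ℂ)))).re) / (p : ℝ) := ⟨_, rfl⟩
  have h1' : ((A : ℝ) + 4 * Q + 4) ≤ ∑ p ∈ (Icc 1 N).filter Nat.Prime, F p := by
    rw [hF]
    exact_mod_cast h1
  have hF0 : ∀ p : ℕ, 1 ≤ p → 0 ≤ F p := fun p hp => by rw [hF]; exact (NA_term f hf r χ t p hp).1
  have hF2 : ∀ p : ℕ, 1 ≤ p → F p ≤ 2 / p := fun p hp => by rw [hF]; exact (NA_term f hf r χ t p hp).2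
  have h2 : ∑ p ∈ (Icc 1 N).filter Nat.Prime, F p ≤ ∑ p ∈ (Icc 1 X).filter Nat.Prime, F p + ∑ p ∈ Ioc X N, F p := by
    rw [← Finset.sum_union]
    · refine Finset.sum_le_sum_of_subset_of_nonneg ?_ ?_
      · intro p hp
        rw [Finset.mem_filter, Finset.mem_Icc] at hp
        rw [Finset.mem_union, Finset.mem_filter, Finset.mem_Icc, Finset.mem_Ioc]
        by_cases hpN : p ≤ X
        · exact Or.inl ⟨⟨hp.1.1, hpN⟩, hp.2⟩
        · exact Or.inr ⟨by omega, hp.1.2⟩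
      · intro p hp _
        rw [Finset.mem_union, Finset.mem_filter, Finset.mem_Icc, Finset.mem_Ioc] at hp
        exact hF0 p (by omega)
    · rw [Finset.disjoint_left]
      intro p hp hp'
      rw [Finset.mem_filter, Finset.mem_Icc] at hp
      rw [Finset.mem_Ioc] at hp'
      omega
  have hX0 : (0 : ℝ) < (X : ℝ) + 1 := by positivity
  have h3 : ∑ p ∈ Ioc X N, F p ≤ 2 * Q := by
    have h4 : ∑ p ∈ Ioc X N, F p ≤ ∑ p ∈ Ioc X N, 2 / ((X : ℝ) + 1) := by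
      refine Finset.sum_le_sum fun p hp => ?_
      rw [Finset.mem_Ioc] at hp
      refine (hF2 p (by omega)).trans ?_
      have hpX : (X : ℝ) + 1 ≤ p := by exact_mod_cast hp.1
      exact div_le_div_of_nonneg_left (by norm_num) hX0 hpX
    refine h4.trans ?_
    rw [Finset.sum_const, Nat.card_Ioc, nsmul_eq_mul]
    have h5 : ((N - X : ℕ) : ℝ) ≤ (X + 1) * Q := by
      have : N - X ≤ (X + 1) * Q := by omega
      exact_mod_cast this
    calc ((N - X : ℕ) : ℝ) * (2 / ((X : ℝ) + 1)) ≤ ((X + 1) * Q) * (2 / ((X : ℝ) + 1)) :=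
          mul_le_mul_of_nonneg_right h5 (by positivity)
      _ = 2 * Q := by field_simp
  have h4 : (A : ℝ) ≤ ∑ p ∈ (Icc 1 X).filter Nat.Prime, F p := by
    have : (0 : ℝ) ≤ Q := Nat.cast_nonneg _
    linarith
  rw [hF] at h4
  exact h4

end Pool.H16.SW
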