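import Pool.Agent.H16.SW.APL

/-!
# [H16 SW SIZ] Sizes and directions in the standing situation

PROOFS. `siz_le`: a product of numbers of modulus `≤ 1` has modulus at most that of each factor (`WE.fac_le`), so where `‖∏_j g_j(n + h_j) - ζ‖ ≤ η` we have `‖g_j(n + h_j)‖ ≥ 1 - η`; shift by `-h_j` (`AA_shift`; `(n - h_j + h_j).toNat = n.toNat`).
`siz_dir`: `∏_j gm (g_j)(n + h_j)`: where all `‖g_j(n + h_j)‖ ≥ 1 - η` (`siz_le` shifted by `h_j`), `‖gm - g_j‖ = 1 - ‖g_j‖ ≤ η` (`WE.dir_sub`, `‖g‖ ≤ 1`), so the products differ by at most `K η` (`Ap_prod` with `gm ≈ g`), then `Sit.ap`.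
`siz_ne`: `siz_le` with `η = 1/2`, all `j` (`AA_all`). `ff_dir`: if all `g_j n ≠ 0`: `dir` is multiplicative on nonzero numbers (`WE.dir_mul`), `dir (z^m) = (dir z)^m`, `dir (conj z) = conj (dir z) = (dir z)⁻¹`, so `dir (pw z c) = (dir z)^c` and
`dir (FF c g n) = ∏ (dir (g_j n))^(c_j)`. `ff_OB`: `pw (z w) c = pw z c * pw w c`, `pw 1 c = 1`, `‖pw z c‖ ≤ 1` for `‖z‖ ≤ 1`. `ff_half`: with `C = ∑ |c_j| + 1` and `η = 1/(2C)`: `‖FF‖ ≥ (1 - η)^C ≥ 1 - C η ≥ 1/2` (Bernoulli).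
-/

set_option autoImplicit false

namespace Pool.H16.SW

open Finset Pool.H2.MR Pool.H2.WE

private theorem prodLe {K : ℕ} (y : Fin K → ℂ) (hy : ∀ i, ‖y i‖ ≤ 1) (i : Fin K) :
    ‖∏ j, y j‖ ≤ ‖y i‖ := by
  rw [norm_prod, ← mul_prod_erase univ (fun j => ‖y j‖) (mem_univ i)]
  refine mul_le_of_le_one_right (norm_nonneg _) ?_
  exact prod_le_one (fun j _ => norm_nonneg _) fun j _ => hy j

theorem siz_le {K : ℕ} {h : Fin K → ℕ} {N : ℕ → ℕ} {g : ℕ → Fin K → ℕ → ℂ} {ζ : ℕ → ℂ} (hs : Sit K h N g ζ) (j : Fin K)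
    (η : ℝ) (hη : 0 < η) : AA N (fun i n => 1 - η ≤ ‖g i j n.toNat‖) := by
  have h1 : AA N (fun i n => 1 - η ≤ ‖g i j (n + h j).toNat‖) := by
    refine AA_mono ?_ (hs.ap η hη)
    intro i n _ _ hn
    have h2 := hn trivial
    have h3 := prodLe (fun j => g i j (n + h j).toNat) (fun j => (hs.ob i j).bd _) j
    have h4 : ‖ζ i‖ - ‖∏ j, g i j (n + h j).toNat‖ ≤ ‖ζ i - ∏ j, g i j (n + h j).toNat‖ :=
      norm_sub_norm_le _ _
    rw [hs.zt i, norm_sub_rev] at h4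
    show 1 - η ≤ ‖g i j (n + h j).toNat‖
    linarith
  have h2 := AA_shift hs.inf (-(h j : ℤ)) h1
  refine AA_mono ?_ h2
  intro i n _ _ hn
  have e : n + -(h j : ℤ) + h j = n := by ring
  rw [e] at hn
  exact hn

theorem siz_dir {K : ℕ} {h : Fin K → ℕ} {N : ℕ → ℕ} {g : ℕ → Fin K → ℕ → ℂ} {ζ : ℕ → ℂ} (hs : Sit K h N g ζ) :
    Ap N All (fun i n => ∏ j, gm (g i j) (n + h j)) (fun i _ => ζ i) := by
  refine Ap_trans ?_ hs.ap
  refine Ap_prod univ (u := fun j i n => gm (g i j) (n + h j))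
    (v := fun j i n => g i j (n + h j).toNat) (fun j i n => (gm_norm _ _).le)
    (fun j i n => (hs.ob i j).bd _) ?_
  intro j _ η hη
  refine AA_mono ?_ (AA_shift hs.inf (h j : ℤ) (siz_le hs j η hη))
  intro i n _ _ hn _
  show ‖dir (g i j (n + h j).toNat) - g i j (n + h j).toNat‖ ≤ η
  rw [norm_sub_rev, dir_sub, abs_of_nonneg (by linarith [(hs.ob i j).bd (n + h j).toNat])]
  linarith

theorem siz_ne {K : ℕ} {h : Fin K → ℕ} {N : ℕ → ℕ} {g : ℕ → Fin K → ℕ → ℂ} {ζ : ℕ → ℂ} (hs : Sit K h N g ζ) :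
    AA N (fun i n => ∀ j, g i j n.toNat ≠ 0) := by
  have h1 := AA_all (univ : Finset (Fin K)) (Q := fun j i n => 1 - 1 / 2 ≤ ‖g i j n.toNat‖)
    (fun j _ => siz_le hs j (1 / 2) (by norm_num))
  refine AA_mono ?_ h1
  intro i n _ _ hn j h0
  have h2 : (1 : ℝ) - 1 / 2 ≤ ‖g i j n.toNat‖ := hn j (mem_univ j)
  rw [h0, norm_zero] at h2
  norm_num at h2

theorem pw_ne {z : ℂ} (hz : z ≠ 0) (c : ℤ) : pw z c ≠ 0 := by
  unfold pw
  split_ifs
  · exact pow_ne_zero _ hz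
  · exact pow_ne_zero _ ((map_ne_zero _).2 hz)

private theorem dirPow {z : ℂ} (hz : z ≠ 0) (m : ℕ) : dir (z ^ m) = dir z ^ m := by
  unfold dir
  rw [if_neg (pow_ne_zero m hz), if_neg hz, norm_pow, div_pow]
  push_cast
  rfl

private theorem dirConj {z : ℂ} (hz : z ≠ 0) : dir ((starRingEnd ℂ) z) = (dir z)⁻¹ := by
  have h1 : (‖z‖ : ℂ) ≠ 0 := by exact_mod_cast (norm_ne_zero_iff.2 hz)
  unfold dir
  rw [if_neg ((map_ne_zero _).2 hz), if_neg hz, Complex.norm_conj, inv_div]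
  rw [div_eq_div_iff h1 hz]
  have h2 := Complex.mul_conj z
  rw [Complex.normSq_eq_norm_sq] at h2
  push_cast at h2
  rw [mul_comm, h2, sq]

theorem dir_pw {z : ℂ} (hz : z ≠ 0) (c : ℤ) : dir (pw z c) = dir z ^ c := by
  unfold pw
  split_ifs with h
  · rw [dirPow hz]
    conv_rhs => rw [← Int.toNat_of_nonneg h, zpow_natCast]
  · rw [dirPow ((map_ne_zero _).2 hz), dirConj hz, inv_pow, ← zpow_natCast, ← zpow_neg]
    congr 1
    omega

theorem ff_dir {K : ℕ} (c : Fin K → ℤ) (g : Fin K → ℕ → ℂ) (n : ℕ) (hz : ∀ j, g j n ≠ 0) :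
    FF c g n ≠ 0 ∧ dir (FF c g n) = ∏ j, dir (g j n) ^ c j := by
  have key : ∀ s : Finset (Fin K), (∏ j ∈ s, pw (g j n) (c j)) ≠ 0 ∧
      dir (∏ j ∈ s, pw (g j n) (c j)) = ∏ j ∈ s, dir (g j n) ^ c j := by
    intro s
    induction s using Finset.induction_on with
    | empty =>
      rw [prod_empty, prod_empty]
      refine ⟨one_ne_zero, ?_⟩
      unfold dir
      rw [if_neg one_ne_zero, norm_one]
      simp
    | insert a s ha ih =>
      rw [prod_insert ha, prod_insert ha]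
      refine ⟨mul_ne_zero (pw_ne (hz a) _) ih.1, ?_⟩
      rw [dir_mul _ _ (pw_ne (hz a) _) ih.1, dir_pw (hz a), ih.2]
  exact key univ

private theorem pwNorm (z : ℂ) (c : ℤ) : ‖pw z c‖ = ‖z‖ ^ c.natAbs := by
  unfold pw
  split_ifs with h
  · rw [norm_pow]
    congr 1
    omega
  · rw [norm_pow, Complex.norm_conj]
    congr 1
    omega

private theorem pwMul (z w : ℂ) (c : ℤ) : pw (z * w) c = pw z c * pw w c := by
  unfold pw
  split_ifs with h
  · rw [mul_pow]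
  · rw [map_mul, mul_pow]

private theorem pwOne (c : ℤ) : pw 1 c = 1 := by
  unfold pw
  split_ifs with h
  · rw [one_pow]
  · rw [map_one, one_pow]

theorem ff_OB {K : ℕ} (c : Fin K → ℤ) (g : Fin K → ℕ → ℂ) (hg : ∀ j, OB (g j)) : OB (FF c g) := by
  refine ⟨?_, ?_, ?_⟩
  · unfold FF
    refine prod_eq_one fun j _ => ?_
    rw [(hg j).one, pwOne]
  · intro m n hmn
    unfold FF
    rw [← prod_mul_distrib]
    refine prod_congr rfl fun j _ => ?_
    rw [(hg j).mul m n hmn, pwMul]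
  · intro n
    unfold FF
    rw [norm_prod]
    refine prod_le_one (fun j _ => norm_nonneg _) fun j _ => ?_
    rw [pwNorm]
    exact pow_le_one₀ (norm_nonneg _) ((hg j).bd n)

theorem ff_half {K : ℕ} {h : Fin K → ℕ} {N : ℕ → ℕ} {g : ℕ → Fin K → ℕ → ℂ} {ζ : ℕ → ℂ} (hs : Sit K h N g ζ) (c : Fin K → ℤ) :
    AA N (fun i n => 1 / 2 ≤ ‖FF c (g i) n.toNat‖) := by
  set C : ℕ := ∑ j, (c j).natAbs with hC
  set η : ℝ := 1 / (2 * (C + 1)) with hηd
  have hC0 : (0 : ℝ) ≤ C := Nat.cast_nonneg C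
  have hη : 0 < η := by positivity
  have hη1 : η ≤ 1 := by
    rw [hηd, div_le_one (by positivity)]
    linarith
  have hηC : (C : ℝ) * η ≤ 1 / 2 := by
    rw [hηd, mul_one_div, div_le_div_iff₀ (by positivity) (by norm_num)]
    linarith
  have h1 := AA_all (univ : Finset (Fin K)) (Q := fun j i n => 1 - η ≤ ‖g i j n.toNat‖)
    (fun j _ => siz_le hs j η hη)
  refine AA_mono ?_ h1
  intro i n _ _ hn
  show 1 / 2 ≤ ‖∏ j, pw (g i j n.toNat) (c j)‖
  rw [norm_prod]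
  have h2 : ∏ j, (1 - η) ^ (c j).natAbs ≤ ∏ j, ‖pw (g i j n.toNat) (c j)‖ := by
    refine prod_le_prod (fun j _ => pow_nonneg (by linarith) _) fun j _ => ?_
    rw [pwNorm]
    exact pow_le_pow_left₀ (by linarith) (hn j (mem_univ j)) _
  rw [prod_pow_eq_pow_sum, ← hC] at h2
  have h3 : 1 + (C : ℝ) * (-η) ≤ (1 + -η) ^ C := one_add_mul_le_pow (by linarith) C
  rw [← sub_eq_add_neg] at h3
  linarith

end Pool.H16.SW
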