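import Pool.Agent.H16.SW.POL
import Pool.Agent.H16.SW.EQS
import Pool.Agent.H16.SW.SIZ

/-!
# [H16 SW PLY] Polynomiality of all directions

PROOF. `K = 0` is trivial (`Fin 0` is empty), let `K = k + 1`. For each `j` let `h^j = h ∘ Equiv.swap 0 j`, `D_j, Cc_j` from `pol k h^j` (`h^j i ≠ h^j 0` for `i ≠ 0` by injectivity); `Mh = ∑ h i + 1`; `t₀ = ∏_j (D_j Mh)!`. Let `t₀ ∣ t`. Every `a = d i ((h^j 0) - h^j i.succ)`, `1 ≤ d i ≤ D_j`, is nonzero with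
`|a| ≤ D_j Mh`, so `a ∣ (D_j Mh)! ∣ t₀ ∣ t` (`Nat.dvd_factorial`). `C` from `eqs t k`. Given a `Sit` and `η, ε > 0` (target: `ex ≤ ε N` for `‖df K t .. - 1‖ ≤ η`): choose `η' , ε' > 0` with `C Cc_j η' ≤ η`, `(k+3) η' ≤ 1`, `C (Cc_j ε' + ε') ≤ ε`, `ε' ≤ 1`; `N₀, δ` from `pol`. For large `i` `N i ≥ N₀`, `Sit.ap` with `η'/2` and `δ` gives the hypothesis of `pol` for
`g i ∘ swap 0 j` (`ex_nat` turns `ex` into the card of the filter; `(n + h).toNat = n + h` for `n : ℕ`; the product is invariant under the permutation, `Equiv.prod_comp`), and `eqs` with `E = ⌊Cc_j ε' N⌋` gives the conclusion with `C (E + 1) ≤ C (Cc_j ε' N + ε' N)` as soon as `ε' N ≥ 1`.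
-/

set_option autoImplicit false

namespace Pool.H16.SW

open Finset Pool.H2.MR Pool.H2.WE

/-- `pol` in the standing situation, for any of the functions -/
theorem ply_at (k : ℕ) (h : Fin (k + 1) → ℕ) (hh : Function.Injective h) (j : Fin (k + 1)) : ∃ (D : ℕ) (Cc : ℝ) (s : Fin k → ℤ),
    1 ≤ D ∧ 1 ≤ Cc ∧ (∀ l, s l ≠ 0) ∧ (∀ l, (s l).natAbs ≤ ∑ i, h i + 1) ∧
    ∀ (N : ℕ → ℕ) (g : ℕ → Fin (k + 1) → ℕ → ℂ) (ζ : ℕ → ℂ), Sit (k + 1) h N g ζ →
      ∀ ε η : ℝ, 0 < ε → ε ≤ 1 → 0 < η → ((k : ℝ) + 3) * η ≤ 1 → ∃ i₀ : ℕ, ∀ i, i₀ ≤ i →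
        ∃ d : Fin k → ℤ, (∀ l, 1 ≤ d l ∧ d l ≤ D) ∧ ∃ C : ℂ, ‖C‖ = 1 ∧
          (ex (N i) (fun n => ‖dls (List.ofFn fun l => d l * s l) (gm (g i j)) n - C‖ ≤ Cc * η) : ℝ) ≤ Cc * ε * N i := by
  classical
  obtain ⟨hj, hhj⟩ : ∃ hj : Fin (k + 1) → ℕ, hj = fun i => h (Equiv.swap 0 j i) := ⟨_, rfl⟩
  have hinj : ∀ i, i ≠ 0 → hj i ≠ hj 0 := by
    intro i hi he
    rw [hhj] at he
    exact hi ((Equiv.swap 0 j).injective (hh he))
  have hle : ∀ i, hj i ≤ ∑ i, h i := by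
    intro i
    rw [hhj]
    exact Finset.single_le_sum (f := h) (fun _ _ => Nat.zero_le _) (Finset.mem_univ (Equiv.swap 0 j i))
  obtain ⟨D, Cc, hD, hCc, hpol⟩ := pol k hj hinj
  refine ⟨D, Cc, fun l => (hj 0 : ℤ) - hj l.succ, hD, hCc, ?_, ?_, ?_⟩
  · intro l
    have h1 := hinj l.succ (Fin.succ_ne_zero l)
    simp only
    omega
  · intro l
    have h1 := hle 0
    have h2 := hle l.succ
    simp only
    omega
  · intro N g ζ hs ε η hε hε1 hη hη1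
    obtain ⟨N₀, δ, hδ, hp⟩ := hpol ε η hε hε1 hη hη1
    obtain ⟨i₁, hi₁⟩ := hs.inf N₀
    obtain ⟨i₂, hi₂⟩ := hs.ap (η / 2) (by positivity) δ hδ
    refine ⟨max i₁ i₂, fun i hi => ?_⟩
    have h1 := hi₁ i (le_trans (le_max_left _ _) hi)
    have h2 := hi₂ i (le_trans (le_max_right _ _) hi)
    obtain ⟨d, hd, C, hC, hex⟩ := hp (N i) (fun l => g i (Equiv.swap 0 j l)) (ζ i) h1 (fun l => hs.ob i _) (hs.zt i) (by
      refine le_trans ?_ h2
      have h3 := ex_nat (N i) (fun n : ℕ => ‖∏ l, g i l (n + h l) - ζ i‖ ≤ η / 2)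
      have h4 : ((Icc 1 (N i)).filter (fun n => η / 2 < ‖∏ l, g i (Equiv.swap 0 j l) (n + hj l) - ζ i‖)).card =
          ((Icc 1 (N i)).filter (fun n => ¬ ‖∏ l, g i l (n + h l) - ζ i‖ ≤ η / 2)).card := by
        congr 1
        apply Finset.filter_congr
        intro n _
        rw [not_le]
        have h5 : ∏ l, g i (Equiv.swap 0 j l) (n + hj l) = ∏ l, g i l (n + h l) := by
          rw [hhj]
          exact Equiv.prod_comp (Equiv.swap 0 j) (fun l => g i l (n + h l))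
        rw [h5]
      rw [h4, ← h3]
      have h6 : ex (N i) (fun n => ‖∏ l, g i l (n.toNat + h l) - ζ i‖ ≤ η / 2) ≤
          ex (N i) (fun n => All n → ‖∏ l, g i l (n + h l).toNat - ζ i‖ ≤ η / 2) := by
        apply ex_mono
        intro n hn1 _ hn
        have h7 : ∀ l, (n + (h l : ℤ)).toNat = n.toNat + h l := by
          intro l
          omega
        have h8 := hn trivial
        simp only [h7] at h8
        exact h8
      exact_mod_cast h6)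
    refine ⟨d, hd, C, hC, ?_⟩
    simp only [Equiv.swap_apply_left] at hex
    exact hex

theorem ply (K : ℕ) (h : Fin K → ℕ) (hh : Function.Injective h) : ∃ t₀ : ℕ, 1 ≤ t₀ ∧ ∀ t : ℕ, 1 ≤ t → t₀ ∣ t →
    ∀ (N : ℕ → ℕ) (g : ℕ → Fin K → ℕ → ℂ) (ζ : ℕ → ℂ), Sit K h N g ζ →
      ∀ j, Ap N All (fun i n => df K t (gm (g i j)) n) (fun _ _ => 1) := by
  classical
  rcases K with _ | k
  · exact ⟨1, le_rfl, fun t _ _ N g ζ _ j => j.elim0⟩
  choose D Cc s hD hCc hs0 hsM hp using ply_at k h hh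
  refine ⟨∏ j, (D j * (∑ i, h i + 1)).factorial, Nat.one_le_iff_ne_zero.2 (Finset.prod_ne_zero_iff.2 fun j _ => Nat.factorial_ne_zero _), ?_⟩
  intro t ht htt N g ζ hs j
  obtain ⟨C, hC⟩ := eqs t ht k
  intro η hη ε hε
  have hCc1 := hCc j
  have hC0 : (0 : ℝ) ≤ C := Nat.cast_nonneg C
  have hk3 : (0 : ℝ) < (k : ℝ) + 3 := by positivity
  obtain ⟨η', hη'⟩ : ∃ η' : ℝ, η' = min (η / (C * Cc j + 1)) (1 / ((k : ℝ) + 3)) := ⟨_, rfl⟩
  obtain ⟨ε', hε'⟩ : ∃ ε' : ℝ, ε' = min 1 (ε / (C * (Cc j + 1) + 1)) := ⟨_, rfl⟩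
  have hCC : 0 ≤ (C : ℝ) * Cc j := by positivity
  have hη0 : 0 < η' := by
    rw [hη']
    exact lt_min (by positivity) (by positivity)
  have hε0 : 0 < ε' := by
    rw [hε']
    exact lt_min one_pos (by positivity)
  have hε1 : ε' ≤ 1 := by
    rw [hε']
    exact min_le_left _ _
  have hη1 : ((k : ℝ) + 3) * η' ≤ 1 := by
    have h1 : η' ≤ 1 / ((k : ℝ) + 3) := by
      rw [hη']
      exact min_le_right _ _
    rw [le_div_iff₀ hk3] at h1
    linarith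
  have hηC : C * (Cc j * η') ≤ η := by
    have h1 : η' ≤ η / (C * Cc j + 1) := by
      rw [hη']
      exact min_le_left _ _
    rw [le_div_iff₀ (by positivity)] at h1
    nlinarith
  have hεC : C * (Cc j + 1) * ε' ≤ ε := by
    have h1 : ε' ≤ ε / (C * (Cc j + 1) + 1) := by
      rw [hε']
      exact min_le_right _ _
    rw [le_div_iff₀ (by positivity)] at h1
    nlinarith
  obtain ⟨i₁, hi₁⟩ := hp j N g ζ hs ε' η' hε0 hε1 hη0 hη1
  obtain ⟨i₂, hi₂⟩ := hs.inf ⌈1 / ε'⌉₊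
  refine ⟨max i₁ i₂, fun i hi => ?_⟩
  obtain ⟨d, hd, C1, hC1, hex⟩ := hi₁ i (le_trans (le_max_left _ _) hi)
  have h1 := hi₂ i (le_trans (le_max_right _ _) hi)
  have hN1 : 1 ≤ ε' * N i := by
    have h2 : 1 / ε' ≤ N i := (Nat.le_ceil _).trans (by exact_mod_cast h1)
    rw [div_le_iff₀ hε0] at h2
    linarith
  have hfl : ex (N i) (fun n => ‖dls (List.ofFn fun l => d l * s j l) (gm (g i j)) n - C1‖ ≤ Cc j * η') ≤ ⌊Cc j * ε' * N i⌋₊ :=
    Nat.le_floor hex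
  have h2 := hC (List.ofFn fun l => d l * s j l) (by rw [List.length_ofFn]) (by
    intro a ha
    rw [List.mem_ofFn] at ha
    obtain ⟨l, rfl⟩ := ha
    obtain ⟨e1, e2⟩ := hd l
    have h3 : (d l * s j l).natAbs ≤ D j * (∑ i, h i + 1) := by
      rw [Int.natAbs_mul]
      exact Nat.mul_le_mul (by omega) (hsM j l)
    have h4 : 0 < (d l * s j l).natAbs := by
      rw [Int.natAbs_pos]
      exact mul_ne_zero (by omega) (hs0 j l)
    have h5 : (d l * s j l).natAbs ∣ t :=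
      (Nat.dvd_factorial h4 h3).trans ((Finset.dvd_prod_of_mem (fun j => (D j * (∑ i, h i + 1)).factorial) (Finset.mem_univ j)).trans htt)
    exact Int.natAbs_dvd_natAbs.1 (by simpa using h5)) (N i) (gm (g i j)) _ (Cc j * η') C1 (gm_norm _) hC1 (by positivity) hfl
  have h3 : ex (N i) (fun n => All n → ‖df (k + 1) t (gm (g i j)) n - 1‖ ≤ η) ≤ C * (⌊Cc j * ε' * N i⌋₊ + 1) := by
    refine le_trans (ex_mono ?_) h2
    intro n _ _ hn _
    exact hn.trans hηC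
  have h4 : (ex (N i) (fun n => All n → ‖df (k + 1) t (gm (g i j)) n - 1‖ ≤ η) : ℝ) ≤ C * (⌊Cc j * ε' * N i⌋₊ + 1) := by
    exact_mod_cast h3
  refine h4.trans ?_
  have h5 : (⌊Cc j * ε' * N i⌋₊ : ℝ) ≤ Cc j * ε' * N i := Nat.floor_le (by positivity)
  have hNN : (0 : ℝ) ≤ N i := Nat.cast_nonneg _
  calc (C : ℝ) * (⌊Cc j * ε' * N i⌋₊ + 1) ≤ C * (Cc j * ε' * N i + ε' * N i) := mul_le_mul_of_nonneg_left (by linarith) hC0
    _ = C * (Cc j + 1) * ε' * N i := by ring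
    _ ≤ ε * N i := mul_le_mul_of_nonneg_right hεC hNN

end Pool.H16.SW
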