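import Pool.Agent.H16.SW.POL
import Pool.Agent.H16.SW.SIZ
import Pool.Agent.H16.SW.PLY
import Pool.Agent.H2.WE.Rel
import Pool.Agent.H2.WE.Ord

/-!
# [H16 SW TOR] Functions of finite order are locally periodic

PROOF. As `ply`: `K = k + 1`, `j`, `h^j = h ∘ swap 0 j`, `D_j, Cc_j` from `pol k h^j`, `Mh = ∑ h i + 1`, `t₁ = ∏_j (q (D_j Mh)!)^k`. Let `G n = gm (g i j) n`; `G n ^ q = 1` (`WE.dir_pow`). Take `η'` with `2 Cc_j η' < 1/q`, `(k+3) η' ≤ 1`, and `ε'` small. For large `i` `pol` gives `d` and `C` with `dls (..) G` within `Cc_j η'` of `C` off `E = ⌊Cc_j ε' N⌋` exceptions; `rel_of_approx` (`H2/WE/Rel.lean`):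
`dls (..) G` is equal to a constant off `E` exceptions; `ord q (D_j Mh) hq k` (all `|d_i (h^j 0 - h^j i.succ)| ≤ D_j Mh`, `≠ 0`): `G (n + K') = G n`, `K' = (q (D_j Mh)!)^k`, off `C' (E + 1)` exceptions; `ex_chain` with `t = m K'`: `G (n + t) = G n` off `m (C' (E+1) + m K')` exceptions, which is `≤ ε N` for large `i` if `ε'` is small
(`m, C', K'` do not depend on `ε'`).
-/

set_option autoImplicit false

namespace Pool.H16.SW

open Finset Pool.H2.MR Pool.H2.WE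

theorem tor (K : ℕ) (h : Fin K → ℕ) (hh : Function.Injective h) (q : ℕ) (hq : 1 ≤ q) : ∃ t₁ : ℕ, 1 ≤ t₁ ∧
    ∀ t : ℕ, 1 ≤ t → t₁ ∣ t → ∀ (N : ℕ → ℕ) (g : ℕ → Fin K → ℕ → ℂ) (ζ : ℕ → ℂ), Sit K h N g ζ →
      ∀ j, (∀ i, FO q (g i j)) → Ap N All (fun i n => gm (g i j) (n + t)) (fun i n => gm (g i j) n) := by
  classical
  rcases K with _ | k
  · exact ⟨1, le_rfl, fun t _ _ N g ζ _ j => j.elim0⟩
  choose D Cc s hD hCc hs0 hsM hp using ply_at k h hh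
  refine ⟨∏ j, (q * (D j * (∑ i, h i + 1)).factorial) ^ k, Nat.one_le_iff_ne_zero.2 (Finset.prod_ne_zero_iff.2 fun j _ => ?_), ?_⟩
  · exact pow_ne_zero _ (mul_ne_zero (by omega) (Nat.factorial_ne_zero _))
  intro t ht htt N g ζ hs j hfo
  obtain ⟨m, hm⟩ : (q * (D j * (∑ i, h i + 1)).factorial) ^ k ∣ t :=
    (Finset.dvd_prod_of_mem (fun j => (q * (D j * (∑ i, h i + 1)).factorial) ^ k) (Finset.mem_univ j)).trans htt
  obtain ⟨C, hC⟩ := ord q (D j * (∑ i, h i + 1)) hq k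
  obtain ⟨K', hK'⟩ : ∃ K' : ℕ, K' = (q * (D j * (∑ i, h i + 1)).factorial) ^ k := ⟨_, rfl⟩
  rw [← hK'] at hm hC
  have hGq : ∀ i n, gm (g i j) n ^ q = 1 := by
    intro i n
    obtain ⟨r, hr1, hr2⟩ := hfo i n.toNat
    exact dir_pow q _ r hr1 hr2
  intro η hη ε hε
  have hCc1 := hCc j
  have hC0 : (0 : ℝ) ≤ C := Nat.cast_nonneg C
  have hq0 : (0 : ℝ) < q := by exact_mod_cast hq
  have hk3 : (0 : ℝ) < (k : ℝ) + 3 := by positivity
  have hCc0 : 0 < Cc j := by linarith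
  have hm0 : (0 : ℝ) ≤ m := Nat.cast_nonneg m
  have hK0 : (0 : ℝ) ≤ K' := Nat.cast_nonneg K'
  obtain ⟨η', hη'⟩ : ∃ η' : ℝ, η' = min (1 / (4 * q * Cc j)) (1 / ((k : ℝ) + 3)) := ⟨_, rfl⟩
  obtain ⟨A, hA⟩ : ∃ A : ℝ, A = m * (C * (Cc j + 1) + m * K') := ⟨_, rfl⟩
  have hA0 : 0 ≤ A := by
    rw [hA]
    positivity
  obtain ⟨ε', hε'⟩ : ∃ ε' : ℝ, ε' = min 1 (ε / (A + 1)) := ⟨_, rfl⟩
  have hη0 : 0 < η' := by
    rw [hη']
    exact lt_min (by positivity) (by positivity)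
  have hε0 : 0 < ε' := by
    rw [hε']
    exact lt_min one_pos (by positivity)
  have hε1 : ε' ≤ 1 := by
    rw [hε']
    exact min_le_left _ _
  have hη1 : ((k : ℝ) + 3) * η' ≤ 1 := by
    have h1 : η' ≤ 1 / ((k : ℝ) + 3) := by
      rw [hη']
      exact min_le_right _ _
    rw [le_div_iff₀ hk3] at h1
    linarith
  have hηq : 2 * (Cc j * η') < 1 / q := by
    have h1 : η' ≤ 1 / (4 * q * Cc j) := by
      rw [hη']
      exact min_le_left _ _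
    rw [le_div_iff₀ (by positivity)] at h1
    rw [lt_div_iff₀ hq0]
    nlinarith
  have hεA : A * ε' ≤ ε := by
    have h1 : ε' ≤ ε / (A + 1) := by
      rw [hε']
      exact min_le_right _ _
    rw [le_div_iff₀ (by positivity)] at h1
    nlinarith
  obtain ⟨i₁, hi₁⟩ := hp j N g ζ hs ε' η' hε0 hε1 hη0 hη1
  obtain ⟨i₂, hi₂⟩ := hs.inf ⌈1 / ε'⌉₊
  refine ⟨max i₁ i₂, fun i hi => ?_⟩
  obtain ⟨d, hd, C1, hC1, hex⟩ := hi₁ i (le_trans (le_max_left _ _) hi)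
  have h1 := hi₂ i (le_trans (le_max_right _ _) hi)
  have hN1 : 1 ≤ ε' * N i := by
    have h2 : 1 / ε' ≤ N i := (Nat.le_ceil _).trans (by exact_mod_cast h1)
    rw [div_le_iff₀ hε0] at h2
    linarith
  have hfl : ex (N i) (fun n => ‖dls (List.ofFn fun l => d l * s j l) (gm (g i j)) n - C1‖ ≤ Cc j * η') ≤ ⌊Cc j * ε' * N i⌋₊ :=
    Nat.le_floor hex
  obtain ⟨c, hc, hrel⟩ := rel_of_approx q hq (N i) (gm (g i j)) (hGq i) _ C1 (Cc j * η') hηq _ hfl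
  have h2 := hC (List.ofFn fun l => d l * s j l) (by rw [List.length_ofFn]) (by
    intro a ha
    rw [List.mem_ofFn] at ha
    obtain ⟨l, rfl⟩ := ha
    obtain ⟨e1, e2⟩ := hd l
    refine ⟨mul_ne_zero (by omega) (hs0 j l), ?_⟩
    rw [Int.natAbs_mul]
    exact Nat.mul_le_mul (by omega) (hsM j l)) (N i) (gm (g i j)) _ c (hGq i) hrel
  have h3 := ex_chain (N i) (gm (g i j)) (K' : ℤ) m _ h2
  rw [Int.natAbs_natCast] at h3
  have h4 : ex (N i) (fun n => All n → ‖gm (g i j) (n + t) - gm (g i j) n‖ ≤ η) ≤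
      m * (C * (⌊Cc j * ε' * N i⌋₊ + 1) + m * K') := by
    refine le_trans (ex_mono ?_) h3
    intro n _ _ hn _
    have h5 : n + (t : ℤ) = n + m * (K' : ℤ) := by
      rw [hm]
      push_cast
      ring
    rw [h5, hn, sub_self, norm_zero]
    exact hη.le
  have h5 : (ex (N i) (fun n => All n → ‖gm (g i j) (n + t) - gm (g i j) n‖ ≤ η) : ℝ) ≤
      m * (C * (⌊Cc j * ε' * N i⌋₊ + 1) + m * K') := by exact_mod_cast h4
  refine h5.trans ?_
  have h6 : (⌊Cc j * ε' * N i⌋₊ : ℝ) ≤ Cc j * ε' * N i := Nat.floor_le (by positivity)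
  have hNN : (0 : ℝ) ≤ N i := Nat.cast_nonneg _
  have h7 : C * ((⌊Cc j * ε' * N i⌋₊ : ℝ) + 1) ≤ C * (Cc j * ε' * N i + ε' * N i) := mul_le_mul_of_nonneg_left (by linarith) hC0
  have h8 : (m : ℝ) * K' ≤ m * K' * (ε' * N i) := le_mul_of_one_le_right (by positivity) hN1
  calc (m : ℝ) * (C * (⌊Cc j * ε' * N i⌋₊ + 1) + m * K') ≤ m * (C * (Cc j * ε' * N i + ε' * N i) + m * K' * (ε' * N i)) :=
        mul_le_mul_of_nonneg_left (by linarith) hm0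
    _ = A * ε' * N i := by
      rw [hA]
      ring
    _ ≤ ε * N i := mul_le_mul_of_nonneg_right hεA hNN

end Pool.H16.SW
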