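import Pool.Agent.H16.SW.STR
import Pool.Agent.H16.SW.PLY
import Pool.Agent.H16.SW.TOR
import Pool.Agent.H16.SW.ALG
import Pool.Agent.H16.SW.KAP
import Pool.Agent.H16.SW.DSC
import Pool.Agent.H16.SW.CTC
import Pool.Agent.H16.SW.NAQ

/-!
# [H16 SW FINA] Assembly of the sufficiency
-/

set_option autoImplicit false

namespace Pool.H16.SW

open Finset Pool.H2.MR Pool.H2.WE

/-- the direction of the product of the powers -/
private theorem ff_gm {K : ℕ} {h : Fin K → ℕ} {N : ℕ → ℕ} {g : ℕ → Fin K → ℕ → ℂ} {ζ : ℕ → ℂ} (hs : Sit K h N g ζ) (c : Fin K → ℤ) :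
    AA N (fun i n => gm (FF c (g i)) n = ∏ j, gm (g i j) n ^ c j) := by
  refine AA_mono ?_ (siz_ne hs)
  intro i n _ _ hn
  exact (ff_dir c (g i) n.toNat hn).2

private theorem ff_rel {K : ℕ} {h : Fin K → ℕ} {N : ℕ → ℕ} {g : ℕ → Fin K → ℕ → ℂ} {ζ : ℕ → ℂ} (hs : Sit K h N g ζ) (c : Fin K → ℤ)
    (S : ℤ → Prop) (W : ℕ) (κ : ℕ → ℂ)
    (halg : Ap N S (fun i n => ∏ j, gm (g i j) (n + W) ^ c j) (fun i n => κ i * ∏ j, gm (g i j) n ^ c j)) :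
    Ap N S (fun i n => gm (FF c (g i)) (n + W)) (fun i n => κ i * gm (FF c (g i)) n) := by
  have hdir := ff_gm hs c
  have e1 : AA N (fun i n => gm (FF c (g i)) (n + W) = ∏ j, gm (g i j) (n + W) ^ c j) := AA_shift hs.inf (W : ℤ) hdir
  have e2 : Ap N S (fun i n => gm (FF c (g i)) (n + W)) (fun i n => ∏ j, gm (g i j) (n + W) ^ c j) := by
    apply Ap_of_AA
    exact AA_mono (fun i n _ _ hn _ => hn) e1
  have e3 : Ap N S (fun i n => κ i * ∏ j, gm (g i j) n ^ c j) (fun i n => κ i * gm (FF c (g i)) n) := by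
    apply Ap_of_AA
    refine AA_mono ?_ hdir
    intro i n _ _ hn _
    show κ i * ∏ j, gm (g i j) n ^ c j = κ i * gm (FF c (g i)) n
    rw [hn]
  exact Ap_trans e2 (Ap_trans halg e3)

theorem finA {K : ℕ} (h : Fin K → ℕ) (hh : Function.Injective h) (q : ℕ) (hq : 1 ≤ q) (I : Finset (Fin K)) (c : Fin K → ℤ)
    (α β : ℚ) (hc : ∀ j, j ∉ I → (c j : ℚ) = α + β * h j) : ∃ (δ : ℝ) (A : ℕ), 0 < δ ∧ ∀ N : ℕ, A ≤ N →
      ∀ g : Fin K → ℕ → ℂ, (∀ j, OB (g j)) → (∀ j ∈ I, FO q (g j)) → NA A N (FF c g) →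
        ‖∑ n ∈ Icc 1 N, ∏ j, g j (n + h j)‖ ≤ (1 - δ) * N := by
  by_contra hcon
  push Not at hcon
  have key : ∀ i : ℕ, ∃ (N : ℕ) (g : Fin K → ℕ → ℂ), i + 1 ≤ N ∧ (∀ j, OB (g j)) ∧ (∀ j ∈ I, FO q (g j)) ∧
      NA (i + 1) N (FF c g) ∧ (1 - 1 / ((i : ℝ) + 1)) * N < ‖∑ n ∈ Icc 1 N, ∏ j, g j (n + h j)‖ := by
    intro i
    obtain ⟨N, h1, g, h2, h3, h4, h5⟩ := hcon (1 / ((i : ℝ) + 1)) (i + 1) (by positivity)
    exact ⟨N, g, h1, h2, h3, h4, h5⟩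
  choose N g hN hg hI hNA hS using key
  have hinf : Inf N := fun B => ⟨B, fun i hi => by have := hN i; omega⟩
  have hs := sit_of h N hinf g hg hS
  obtain ⟨t₀, ht₀, hply⟩ := ply K h hh
  obtain ⟨t₁, ht₁, htor⟩ := tor K h hh q hq
  obtain ⟨t, ht⟩ : ∃ t, t = t₀ * t₁ := ⟨_, rfl⟩
  have ht1 : 1 ≤ t := by rw [ht]; exact Nat.mul_pos ht₀ ht₁
  have hP := hply t ht1 ⟨t₁, ht⟩ N g _ hs
  have hT := fun j => htor t ht1 ⟨t₀, by rw [ht, mul_comm]⟩ N g _ hs j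
  obtain ⟨W, κ, hW, hQW, hκ, halg⟩ := alg hs t ht1 I c α β hc hP (fun j hj => hT j (fun i => hI i j hj))
  obtain ⟨Q, hQd⟩ : ∃ Q, Q = AQ K h t ^ 2 := ⟨_, rfl⟩
  rw [← hQd] at hQW halg
  have hQ : 1 ≤ Q := by
    rw [hQd]
    exact Nat.one_le_pow _ _ (AQ_pos K h t ht1)
  have hhalf := ff_half hs c
  have hne : AA N (fun i n => FF c (g i) n.toNat ≠ 0) := by
    refine AA_mono ?_ hhalf
    intro i n _ _ hn h0
    rw [h0, norm_zero] at hn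
    norm_num at hn
  have hob : ∀ i, OB (FF c (g i)) := fun i => ff_OB c (g i) (hg i)
  have h1 := ff_rel hs c (CL Q) W κ halg
  obtain ⟨W1, hW1, hQW1, h2⟩ := kap hinf (fun i => FF c (g i)) hob hne Q W hQ hW hQW κ hκ h1
  obtain ⟨m, hm⟩ := hQW1
  obtain ⟨K1, hK1⟩ : ∃ K1, K1 = Q * m := ⟨_, rfl⟩
  have hWK : W1 = Q * K1 := by rw [hm, hK1]; ring
  have hK11 : 1 ≤ K1 := by
    rcases Nat.eq_zero_or_pos K1 with h0 | h0
    · rw [h0, mul_zero] at hWK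
      omega
    · exact h0
  rw [hWK] at h2
  have h3 := dsc hinf (fun i => FF c (g i)) hob hne Q K1 hQ hK11 ⟨m, hK1⟩ h2
  obtain ⟨ρ, A, hρ, hctc⟩ := ctc Q K1 hK11 ⟨m, hK1⟩
  obtain ⟨i₁, hi₁⟩ := h3 ρ hρ ρ hρ
  obtain ⟨i₂, hi₂⟩ := AA_res hinf Q hQ hhalf ρ hρ
  obtain ⟨i₃, hi₃⟩ := Inf_div hinf Q hQ A
  obtain ⟨i, hi⟩ : ∃ i, i = i₁ + i₂ + i₃ + (A + 4 * Q + 4) := ⟨_, rfl⟩
  have e1 := hi₁ i (by omega)
  have e2 := hi₂ i (by omega)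
  have e3 := hi₃ i (by omega)
  have hNAi : NA A (N i / Q) (FF c (g i)) := NA_div (FF c (g i)) (hob i) A (N i) Q hQ (NA_mono (hNA i) (by omega))
  refine hctc (N i / Q) e3 (FF c (g i)) (hob i) hNAi (by simpa only [gm] using e1) e2

end Pool.H16.SW
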