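import Pool.Agent.H16.SW.GX

/-!
# [H16 SW MEX] Mean values of `∏ (n + h_j)^(i p_j t)`

PROOF. Let `H = ∑ |h_j| + 1`, `P = ∑ |p_j| h_j^2 + 1`. For `n ≥ 2H` all `n + h_j ≥ n/2 > 0` and `gx (p_j t) (n + h_j) = exp(i p_j t log(n + h_j))` (`gx_exp`), so the product is `exp(i t L(n))`, `L(n) = ∑ p_j log(n + h_j) = ∑ p_j (log(n + h_j) - log n - h_j/n)` (because `∑ p_j = 0 = ∑ p_j h_j`),
and `|log(1 + x) - x| ≤ x^2` for `|x| ≤ 1/2` (e.g. `Real.abs_log_sub_add_sum_range_le`, or `Real.log_le_sub_one_of_pos` and `Real.one_sub_inv_le_log_of_pos`: `x - x^2 ≤ x/(1+x) ≤ log(1+x) ≤ x` for `x ≥ 0`, and `x/(1+x) ≥ x - 2x^2` for `|x| ≤ 1/2`): `|L(n)| ≤ 2P/n^2`.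
`|exp(iy) - 1| ≤ |y|` (`Complex.norm_exp_I_mul_ofReal_sub_one_le` / `Real.norm_exp_I_mul_ofReal_sub_one_le`), so the product is within `2P |t|/n^2` of `1`. We may assume `δ ≤ 1`. Take `γ = δ^3/(2^8 P)` and `N₀` with `N₀ ≥ 16H/δ`, `N₀ ≥ 1`. For `δN/8 ≤ n ≤ N` (then `n ≥ 2H`) the product is within
`2P γ N^2/(δN/8)^2 = 128 P γ/δ^2 = δ/2` of `1`. There are at most `δN/8 + 1 ≤ δN/4` (`N₀ ≥ 8/δ`) others, where the distance to `1` is at most `2`... use instead: `‖∑ x_n‖ ≥ N - ∑ ‖x_n - 1‖ ≥ N - N δ/2 - 2 (δN/8 + 1)·` hence `> (1 - δ) N` if `N` is large (`N₀ > 8/δ`, as `δN/2 + δN/4 + 2 < δN`).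
(Here `‖x_n‖ ≤ 1`.)
-/

set_option autoImplicit false

namespace Pool.H16.SW

open Finset Pool.H2.MR Pool.H2.WE

private theorem mex_log (x : ℝ) (hx : |x| ≤ 1 / 2) : |Real.log (1 + x) - x| ≤ 2 * x ^ 2 := by
  have h1 : |(-x)| < 1 := by rw [abs_neg]; linarith
  have h := Real.abs_log_sub_add_sum_range_le h1 1
  simp only [Finset.sum_range_one, Nat.cast_zero, zero_add, pow_one, div_one, sub_neg_eq_add,
    abs_neg, Nat.reduceAdd] at h
  have h2 : |Real.log (1 + x) - x| = |(-x) + Real.log (1 + x)| := by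
    congr 1; ring
  rw [h2]
  refine h.trans ?_
  rw [div_le_iff₀ (by linarith [abs_nonneg x])]
  rw [sq_abs]
  nlinarith [sq_nonneg x]

private theorem mex_pt {K : ℕ} (h p : Fin K → ℤ) (h0 : ∑ j, p j = 0) (h1 : ∑ j, p j * h j = 0)
    (t : ℝ) (n : ℕ) (hn : 2 * (∑ j, |h j| + 1) ≤ n) :
    ‖∏ j, gx (p j * t) ((n : ℤ) + h j).toNat - 1‖ ≤ 2 * (∑ j, |(p j : ℝ)| * (h j : ℝ) ^ 2) * |t| / (n : ℝ) ^ 2 := by
  have hj : ∀ j, |h j| ≤ ∑ j, |h j| := fun j =>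
    Finset.single_le_sum (fun i _ => abs_nonneg (h i)) (Finset.mem_univ j)
  have hn0 : (0 : ℝ) < n := by
    have : 0 ≤ ∑ j, |h j| := Finset.sum_nonneg fun i _ => abs_nonneg (h i)
    have : (0 : ℤ) < n := by linarith
    exact_mod_cast this
  have hx : ∀ j, |(h j : ℝ) / n| ≤ 1 / 2 := by
    intro j
    rw [abs_div, abs_of_pos hn0, div_le_iff₀ hn0]
    have h2 : 2 * |h j| ≤ n := by linarith [hj j]
    have h3 : 2 * |(h j : ℝ)| ≤ n := by exact_mod_cast h2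
    linarith
  have hlog : ∀ j, Real.log (((n : ℤ) + h j).toNat : ℕ) = Real.log n + Real.log (1 + (h j : ℝ) / n) := by
    intro j
    have h2 : 0 ≤ (n : ℤ) + h j := by
      have := hj j
      have := neg_abs_le (h j)
      linarith
    have h3 : ((((n : ℤ) + h j).toNat : ℕ) : ℝ) = n + h j := by
      have := congrArg (Int.cast : ℤ → ℝ) (Int.toNat_of_nonneg h2)
      push_cast at this
      exact this
    have h4 : (n : ℝ) + h j = n * (1 + (h j : ℝ) / n) := by field_simp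
    have h5 : (0 : ℝ) < 1 + (h j : ℝ) / n := by
      have := neg_abs_le ((h j : ℝ) / n)
      have := hx j
      linarith
    rw [h3, h4, Real.log_mul hn0.ne' h5.ne']
  have hne : ∀ j, ((n : ℤ) + h j).toNat ≠ 0 := by
    intro j
    have := hj j
    have := neg_abs_le (h j)
    have := abs_nonneg (h j)
    have h2 : 0 < (n : ℤ) + h j := by linarith
    omega
  set L : ℝ := ∑ j, (p j : ℝ) * (Real.log (1 + (h j : ℝ) / n) - (h j : ℝ) / n) with hL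
  have e0 : ∑ j, (p j : ℝ) = 0 := by exact_mod_cast h0
  have e1 : ∑ j, (p j : ℝ) * h j = 0 := by exact_mod_cast h1
  have hprod : ∏ j, gx (p j * t) ((n : ℤ) + h j).toNat = Complex.exp (Complex.I * ((t * L : ℝ) : ℂ)) := by
    have h2 : ∀ j ∈ (Finset.univ : Finset (Fin K)), gx (p j * t) ((n : ℤ) + h j).toNat =
        Complex.exp (((p j * t * (Real.log n + Real.log (1 + (h j : ℝ) / n)) : ℝ) : ℂ) * Complex.I) := by
      intro j _
      rw [gx_exp _ _ (hne j), hlog j]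
    rw [Finset.prod_congr rfl h2, ← Complex.exp_sum, ← Finset.sum_mul, ← Complex.ofReal_sum, mul_comm]
    congr 3
    have h3 : ∀ j, (p j : ℝ) * t * (Real.log n + Real.log (1 + (h j : ℝ) / n)) =
        t * ((p j : ℝ) * (Real.log (1 + (h j : ℝ) / n) - (h j : ℝ) / n)) + t * Real.log n * (p j : ℝ)
          + t / n * ((p j : ℝ) * h j) := by
      intro j
      field_simp
      ring
    simp only [h3, Finset.sum_add_distrib, ← Finset.mul_sum, e0, e1, mul_zero, add_zero]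
    rw [hL]
  rw [hprod]
  refine (Real.norm_exp_I_mul_ofReal_sub_one_le).trans ?_
  rw [Real.norm_eq_abs, abs_mul]
  have hLb : |L| ≤ ∑ j, |(p j : ℝ)| * (2 * ((h j : ℝ) / n) ^ 2) := by
    rw [hL]
    refine (Finset.abs_sum_le_sum_abs _ _).trans (Finset.sum_le_sum fun j _ => ?_)
    rw [abs_mul]
    exact mul_le_mul_of_nonneg_left (mex_log _ (hx j)) (abs_nonneg _)
  have h4 : ∑ j, |(p j : ℝ)| * (2 * ((h j : ℝ) / n) ^ 2) = 2 * (∑ j, |(p j : ℝ)| * (h j : ℝ) ^ 2) / (n : ℝ) ^ 2 := by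
    rw [Finset.mul_sum, Finset.sum_div]
    refine Finset.sum_congr rfl fun j _ => ?_
    rw [div_pow]
    ring
  rw [h4] at hLb
  calc |t| * |L| ≤ |t| * (2 * (∑ j, |(p j : ℝ)| * (h j : ℝ) ^ 2) / (n : ℝ) ^ 2) :=
        mul_le_mul_of_nonneg_left hLb (abs_nonneg _)
    _ = _ := by ring

theorem mex {K : ℕ} (h p : Fin K → ℤ) (h0 : ∑ j, p j = 0) (h1 : ∑ j, p j * h j = 0) (δ : ℝ) (hδ : 0 < δ) :
    ∃ γ : ℝ, 0 < γ ∧ ∃ N₀ : ℕ, ∀ N : ℕ, N₀ ≤ N → ∀ t : ℝ, |t| ≤ γ * (N : ℝ) ^ 2 →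
      (1 - δ) * N < ‖∑ n ∈ Icc 1 N, ∏ j, gx (p j * t) ((n : ℤ) + h j).toNat‖ := by
  set P : ℝ := ∑ j, |(p j : ℝ)| * (h j : ℝ) ^ 2 + 1 with hP
  have hP0 : 0 ≤ ∑ j, |(p j : ℝ)| * (h j : ℝ) ^ 2 :=
    Finset.sum_nonneg fun j _ => mul_nonneg (abs_nonneg _) (sq_nonneg _)
  have hPp : 0 < P := by linarith
  set H : ℤ := ∑ j, |h j| + 1 with hH
  have hHp : 0 < H := by
    have : 0 ≤ ∑ j, |h j| := Finset.sum_nonneg fun i _ => abs_nonneg (h i)
    linarith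
  refine ⟨δ ^ 3 / (256 * P), by positivity, ⌈16 * (H : ℝ) / δ⌉₊ + 1, fun N hN t ht => ?_⟩
  have hN1 : 16 * (H : ℝ) / δ ≤ N := by
    have h2 : ((⌈16 * (H : ℝ) / δ⌉₊ + 1 : ℕ) : ℝ) ≤ N := by exact_mod_cast hN
    push_cast at h2
    linarith [Nat.le_ceil (16 * (H : ℝ) / δ)]
  have hN0 : (0 : ℝ) < N := by
    have : 0 < N := by omega
    exact_mod_cast this
  set B : ℕ := ⌊δ * N / 8⌋₊ with hB
  set x : ℕ → ℂ := fun n => ∏ j, gx (p j * t) ((n : ℤ) + h j).toNat with hx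
  have hx1 : ∀ n, ‖x n‖ ≤ 1 := by
    intro n
    rw [hx]
    simp only [norm_prod]
    exact Finset.prod_le_one (fun j _ => norm_nonneg _) fun j _ => (gx_ob _).bd _
  have hpt : ∀ n ∈ Icc 1 N, ‖x n - 1‖ ≤ (if n ≤ B then 2 else 0) + δ / 2 := by
    intro n _
    split_ifs with hnB
    · have : ‖x n - 1‖ ≤ ‖x n‖ + ‖(1 : ℂ)‖ := norm_sub_le _ _
      rw [norm_one] at this
      have := hx1 n
      linarith
    · have hn1 : δ * N / 8 < n := by
        rw [hB] at hnB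
        push Not at hnB
        exact (Nat.floor_lt (by positivity)).1 hnB
      have hn0 : (0 : ℝ) < n := lt_of_le_of_lt (by positivity) hn1
      have hn2 : 2 * H ≤ n := by
        have h2 : 2 * (H : ℝ) ≤ δ * N / 8 := by
          rw [div_le_iff₀ hδ] at hN1
          linarith
        have h3 : 2 * (H : ℝ) ≤ n := by linarith
        exact_mod_cast h3
      have h4 := mex_pt h p h0 h1 t n hn2
      rw [zero_add]
      refine h4.trans ?_
      have h5 : 2 * (∑ j, |(p j : ℝ)| * (h j : ℝ) ^ 2) ≤ 2 * P := by linarith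
      have h6 : |t| ≤ δ / (4 * P) * (n : ℝ) ^ 2 := by
        refine ht.trans ?_
        have h7 : (δ * N) ^ 2 ≤ (8 * n) ^ 2 := by
          apply pow_le_pow_left₀ (by positivity)
          linarith
        calc δ ^ 3 / (256 * P) * (N : ℝ) ^ 2 = δ / (256 * P) * (δ * N) ^ 2 := by ring
          _ ≤ δ / (256 * P) * (8 * n) ^ 2 := mul_le_mul_of_nonneg_left h7 (by positivity)
          _ = δ / (4 * P) * (n : ℝ) ^ 2 := by ring_nf
      rw [div_le_iff₀ (by positivity)]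
      calc 2 * (∑ j, |(p j : ℝ)| * (h j : ℝ) ^ 2) * |t| ≤ 2 * P * (δ / (4 * P) * (n : ℝ) ^ 2) :=
            mul_le_mul h5 h6 (abs_nonneg _) (by positivity)
        _ = δ / 2 * (n : ℝ) ^ 2 := by field_simp; ring
  have hsum : ∑ n ∈ Icc 1 N, ‖x n - 1‖ ≤ 2 * B + δ / 2 * N := by
    refine (Finset.sum_le_sum hpt).trans ?_
    rw [Finset.sum_add_distrib, Finset.sum_const, Nat.card_Icc, Nat.add_sub_cancel, nsmul_eq_mul,
      ← Finset.sum_filter, Finset.sum_const, nsmul_eq_mul]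
    have h2 : ((Icc 1 N).filter (fun n => n ≤ B)).card ≤ B := by
      have : (Icc 1 N).filter (fun n => n ≤ B) ⊆ Icc 1 B := by
        intro n hn
        rw [Finset.mem_filter, Finset.mem_Icc] at hn
        exact Finset.mem_Icc.2 ⟨hn.1.1, hn.2⟩
      have := Finset.card_le_card this
      simpa using this
    have h3 : (((Icc 1 N).filter (fun n => n ≤ B)).card : ℝ) ≤ B := by exact_mod_cast h2
    nlinarith
  have hBb : (B : ℝ) ≤ δ * N / 8 := Nat.floor_le (by positivity)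
  have hone : (∑ n ∈ Icc 1 N, x n) = (N : ℂ) + ∑ n ∈ Icc 1 N, (x n - 1) := by
    rw [Finset.sum_sub_distrib, Finset.sum_const, Nat.card_Icc, Nat.add_sub_cancel]
    simp
  have hfin : (N : ℝ) - ∑ n ∈ Icc 1 N, ‖x n - 1‖ ≤ ‖∑ n ∈ Icc 1 N, x n‖ := by
    have h2 : ‖(N : ℂ)‖ ≤ ‖∑ n ∈ Icc 1 N, x n‖ + ‖∑ n ∈ Icc 1 N, (x n - 1)‖ := by
      have : (N : ℂ) = ∑ n ∈ Icc 1 N, x n - ∑ n ∈ Icc 1 N, (x n - 1) := by rw [hone]; ring
      calc ‖(N : ℂ)‖ = ‖∑ n ∈ Icc 1 N, x n - ∑ n ∈ Icc 1 N, (x n - 1)‖ := by rw [← this]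
        _ ≤ _ := norm_sub_le _ _
    rw [Complex.norm_natCast] at h2
    have h3 := norm_sum_le (Icc 1 N) (fun n => x n - 1)
    linarith
  have : (1 - δ) * (N : ℝ) < N - ∑ n ∈ Icc 1 N, ‖x n - 1‖ := by nlinarith
  exact lt_of_lt_of_le this hfin

end Pool.H16.SW
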