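import Pool.Agent.H16.SW.LINB
import Pool.Agent.H16.SW.MEX
import Pool.Agent.H16.SW.CHR

/-!
# [H16 SW FINB] Assembly of the necessity
-/

set_option autoImplicit false

namespace Pool.H16.SW

open Finset Pool.H2.MR Pool.H2.WE

theorem finB {K : ℕ} (h : Fin K → ℤ) (hh : Function.Injective h) (I : Finset (Fin K)) (c : Fin K → ℤ)
    (hc : ¬ ∃ α β : ℚ, ∀ j, j ∉ I → (c j : ℚ) = α + β * h j) (δ : ℝ) (hδ : 0 < δ) (A : ℕ) :
    ∃ N : ℕ, A ≤ N ∧ ∃ x : Fin K → ℝ, (∀ j ∈ I, x j = 0) ∧ NA A N (FF c (fun j => gx (x j))) ∧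
      (1 - δ) * N < ‖∑ n ∈ Icc 1 N, ∏ j, gx (x j) ((n : ℤ) + h j).toNat‖ := by
  obtain ⟨p, hpI, hp0, hp1, hpc⟩ := linb h hh I c hc
  obtain ⟨S, hS⟩ : ∃ S : ℤ, S = ∑ j, c j * p j := ⟨_, rfl⟩
  rw [← hS] at hpc
  obtain ⟨γ, hγ, N₁, h1⟩ := mex h p hp0 hp1 δ hδ
  obtain ⟨N₂, h2⟩ := chr_na A
  obtain ⟨N₃, h3⟩ := exists_nat_ge (2 / γ)
  obtain ⟨N₄, h4⟩ := exists_nat_ge (γ * |(S : ℝ)|)
  obtain ⟨N, hN⟩ : ∃ N : ℕ, N = A + N₁ + N₂ + N₃ + N₄ + 1 := ⟨_, rfl⟩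
  have hN1 : (1 : ℝ) ≤ N := by
    rw [hN]; push_cast
    have e1 : (0 : ℝ) ≤ A := Nat.cast_nonneg _
    have e2 : (0 : ℝ) ≤ N₁ := Nat.cast_nonneg _
    have e3 : (0 : ℝ) ≤ N₂ := Nat.cast_nonneg _
    have e4 : (0 : ℝ) ≤ N₃ := Nat.cast_nonneg _
    have e5 : (0 : ℝ) ≤ N₄ := Nat.cast_nonneg _
    linarith
  have hN3 : 2 / γ ≤ N := h3.trans (by exact_mod_cast (by omega : N₃ ≤ N))
  have hN4 : γ * |(S : ℝ)| ≤ N := h4.trans (by exact_mod_cast (by omega : N₄ ≤ N))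
  have hS1 : (1 : ℝ) ≤ |(S : ℝ)| := by
    have : (1 : ℤ) ≤ |S| := Int.one_le_abs hpc
    exact_mod_cast this
  have ht : |γ * (N : ℝ) ^ 2| ≤ γ * (N : ℝ) ^ 2 := by rw [abs_of_nonneg (by positivity)]
  refine ⟨N, by omega, fun j => p j * (γ * (N : ℝ) ^ 2), ?_, ?_, ?_⟩
  · intro j hj
    simp [hpI j hj]
  · have hs : ∑ j, (c j : ℝ) * (p j * (γ * (N : ℝ) ^ 2)) = S * (γ * (N : ℝ) ^ 2) := by
      rw [hS]; push_cast
      rw [Finset.sum_mul]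
      exact Finset.sum_congr rfl fun j _ => by ring
    have h5 := h2 N (by omega) (S * (γ * (N : ℝ) ^ 2)) ?_ ?_
    · intro r χ hr hrA t htN
      refine (h5 r χ hr hrA t htN).trans (le_of_eq ?_)
      refine Finset.sum_congr rfl fun q hq => ?_
      have hq0 : q ≠ 0 := by
        have := (Finset.mem_filter.1 hq).2.pos
        omega
      rw [gx_ff c _ q hq0, hs]
    · rw [abs_mul, abs_of_nonneg (show 0 ≤ γ * (N : ℝ) ^ 2 by positivity)]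
      rw [div_le_iff₀ hγ] at hN3
      have e1 : 2 * (N : ℝ) ≤ γ * (N : ℝ) ^ 2 := by nlinarith
      have e2 : γ * (N : ℝ) ^ 2 ≤ |(S : ℝ)| * (γ * (N : ℝ) ^ 2) := le_mul_of_one_le_left (by positivity) hS1
      exact e1.trans e2
    · rw [abs_mul, abs_of_nonneg (show 0 ≤ γ * (N : ℝ) ^ 2 by positivity)]
      have e1 : |(S : ℝ)| * (γ * (N : ℝ) ^ 2) = (γ * |(S : ℝ)|) * (N : ℝ) ^ 2 := by ring
      rw [e1, pow_succ' _ 2]
      exact mul_le_mul_of_nonneg_right hN4 (by positivity)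
  · exact h1 N (by omega) (γ * (N : ℝ) ^ 2) ht

end Pool.H16.SW
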