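import Mathlib

/-!
# [H16 SW LINB] Linear algebra for the necessity

PROOF. Let `J` be the complement of `I`. There are `j₁ ≠ j₂` in `J`: otherwise `J` is empty or `{j₁}` and `α = c j₁` (or `0`), `β = 0` contradicts `hc`. As `h j₁ ≠ h j₂` take `β = (c j₁ - c j₂)/(h j₁ - h j₂)`, `α = c j₁ - β h j₁`: then `c j = α + β h j` for `j = j₁, j₂`.
By `hc` there is `j₃ ∈ J` with `c j₃ ≠ α + β h j₃`, so `j₃ ≠ j₁, j₂`. Let `p = (h j₂ - h j₃) e_{j₁} + (h j₃ - h j₁) e_{j₂} + (h j₁ - h j₂) e_{j₃}` (`Pi.single`). Then `∑ p = 0`, `∑ p h = 0` (`ring`), and `∑ c p = (c j₃ - α - β h j₃)(h j₁ - h j₂) ≠ 0`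
(cast to `ℚ`; `(α + β x₁)(x₂ - x₃) + (α + β x₂)(x₃ - x₁) + c₃ (x₁ - x₂) = (c₃ - α - β x₃)(x₁ - x₂)`).
-/

set_option autoImplicit false

namespace Pool.H16.SW

open Finset

theorem linb {K : ℕ} (h : Fin K → ℤ) (hh : Function.Injective h) (I : Finset (Fin K)) (c : Fin K → ℤ)
    (hc : ¬ ∃ α β : ℚ, ∀ j, j ∉ I → (c j : ℚ) = α + β * h j) :
    ∃ p : Fin K → ℤ, (∀ j ∈ I, p j = 0) ∧ ∑ j, p j = 0 ∧ ∑ j, p j * h j = 0 ∧ ∑ j, c j * p j ≠ 0 := by
  -- two indices outside `I`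
  have hex : ∃ j₁ j₂ : Fin K, j₁ ∉ I ∧ j₂ ∉ I ∧ j₁ ≠ j₂ := by
    by_contra hn
    push Not at hn
    apply hc
    by_cases he : ∃ j₁, j₁ ∉ I
    · obtain ⟨j₁, hj⟩ := he
      refine ⟨c j₁, 0, fun j hjI => ?_⟩
      rw [hn j j₁ hjI hj]
      simp
    · push Not at he
      exact ⟨0, 0, fun j hjI => absurd (he j) hjI⟩
  obtain ⟨j₁, j₂, h1, h2, h12⟩ := hex
  have hne : (h j₁ : ℚ) - h j₂ ≠ 0 := by
    rw [sub_ne_zero]
    intro he
    exact h12 (hh (by exact_mod_cast he))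
  set β : ℚ := ((c j₁ : ℚ) - c j₂) / ((h j₁ : ℚ) - h j₂) with hβ
  set α : ℚ := (c j₁ : ℚ) - β * h j₁ with hα
  have e1 : (c j₁ : ℚ) = α + β * h j₁ := by rw [hα]; ring
  have e2 : (c j₂ : ℚ) = α + β * h j₂ := by
    have : β * ((h j₁ : ℚ) - h j₂) = (c j₁ : ℚ) - c j₂ := by
      rw [hβ]; field_simp
    rw [hα]; linarith
  have h3 : ∃ j₃, j₃ ∉ I ∧ (c j₃ : ℚ) ≠ α + β * h j₃ := by
    by_contra hn
    push Not at hn
    exact hc ⟨α, β, hn⟩
  obtain ⟨j₃, h3, e3⟩ := h3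
  have h31 : j₃ ≠ j₁ := fun he => e3 (he ▸ e1)
  have h32 : j₃ ≠ j₂ := fun he => e3 (he ▸ e2)
  let p : Fin K → ℤ := fun j => (h j₂ - h j₃) * (if j = j₁ then 1 else 0) +
    (h j₃ - h j₁) * (if j = j₂ then 1 else 0) + (h j₁ - h j₂) * (if j = j₃ then 1 else 0)
  have hs : ∀ f : Fin K → ℤ, ∑ j, f j * p j =
      f j₁ * (h j₂ - h j₃) + f j₂ * (h j₃ - h j₁) + f j₃ * (h j₁ - h j₂) := by
    intro f
    have : ∀ j, f j * p j = (if j = j₁ then f j * (h j₂ - h j₃) else 0) +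
        (if j = j₂ then f j * (h j₃ - h j₁) else 0) + (if j = j₃ then f j * (h j₁ - h j₂) else 0) := by
      intro j
      simp only [p]
      split_ifs <;> ring
    simp only [this, Finset.sum_add_distrib, Finset.sum_ite_eq', Finset.mem_univ, if_true]
  refine ⟨p, ?_, ?_, ?_, ?_⟩
  · intro j hj
    have a1 : j ≠ j₁ := fun he => h1 (he ▸ hj)
    have a2 : j ≠ j₂ := fun he => h2 (he ▸ hj)
    have a3 : j ≠ j₃ := fun he => h3 (he ▸ hj)
    simp [p, a1, a2, a3]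
  · have := hs (fun _ => 1)
    simp only [one_mul] at this
    rw [this]; ring
  · have := hs h
    have h' : ∑ j, p j * h j = ∑ j, h j * p j := Finset.sum_congr rfl fun j _ => mul_comm _ _
    rw [h', this]; ring
  · rw [hs c]
    intro he
    have he' : (c j₁ : ℚ) * (h j₂ - h j₃) + c j₂ * (h j₃ - h j₁) + c j₃ * (h j₁ - h j₂) = 0 := by
      exact_mod_cast he
    rw [e1, e2] at he'
    have : ((c j₃ : ℚ) - (α + β * h j₃)) * ((h j₁ : ℚ) - h j₂) = 0 := by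
      linear_combination he'
    rcases mul_eq_zero.1 this with h | h
    · exact e3 (by linarith)
    · exact hne h

end Pool.H16.SW
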