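import Pool.Agent.H16.SW.APL
import Pool.Agent.H2.WE.Rel

/-!
# [H16 SW NWT] Newton's formula

PROOFS. `df_succ`: `df (m+1) t G n = df m t G (n + t) * conj (df m t G n)` (`dls_cons`: `dls (a :: l) G = dl a (dls l G)`). `df_norm`: modulus 1 (`dls_norm`). `newton_exact` (`‖G n‖ = 1`): `G(n + x t) = ∏_{m ≤ x} (df m t G n)^(choose x m)`: induction on `x` for all `n`... e.g. prove for all `m`: `df m t G (n + x t) = ∏_{l ≤ x} (df (m+l) t G n)^(choose x l)` by induction on `x`:
`df m (n + (x+1) t) = df (m+1)(n + x t) · df m (n + x t)` (because `z conj w · w = z`), and Pascal's rule. `df_ge`: if `df K t (G i) ≈ 1` then `df m t (G i) ≈ 1` for all `m ≥ K`: induction with `df_succ`, `Ap_shift`, `Ap_mul`, `Ap_conj`. `newton`: the factors with `m ≥ K` are `≈ 1` (`Ap_pow`, `Ap_prod`), the factors `m ≤ x`, `m < K` remain, and the factors with `x < m < K` have exponent `choose x m = 0`.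
-/

set_option autoImplicit false

namespace Pool.H16.SW

open Finset Pool.H2.MR Pool.H2.WE

theorem df_norm (m t : ℕ) (G : ℤ → ℂ) (hG : ∀ n, ‖G n‖ = 1) (n : ℤ) : ‖df m t G n‖ = 1 :=
  dls_norm _ G hG n

theorem df_succ (m t : ℕ) (G : ℤ → ℂ) (n : ℤ) : df (m + 1) t G n = df m t G (n + t) * (starRingEnd ℂ) (df m t G n) := by
  unfold df
  rw [List.replicate_succ, dls_cons]
  rfl

private theorem newton_step (m t : ℕ) (G : ℤ → ℂ) (hG : ∀ n, ‖G n‖ = 1) (n : ℤ) :
    df m t G (n + t) = df (m + 1) t G n * df m t G n := by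
  rw [df_succ, mul_assoc, mul_comm ((starRingEnd ℂ) _), Complex.mul_conj, Complex.normSq_eq_norm_sq,
    df_norm m t G hG n]
  simp

private theorem newton_gen (t : ℕ) (G : ℤ → ℂ) (hG : ∀ n, ‖G n‖ = 1) (x : ℕ) : ∀ (m : ℕ) (n : ℤ),
    df m t G (n + x * t) = ∏ l ∈ range (x + 1), df (m + l) t G n ^ x.choose l := by
  induction x with
  | zero =>
    intro m n
    simp
  | succ x ih =>
    intro m n
    have h1 : n + ((x + 1 : ℕ) : ℤ) * t = n + x * t + t := by push_cast; ring
    rw [h1, newton_step m t G hG, ih (m + 1) n, ih m n, Finset.prod_range_succ' (fun l => df (m + l) t G n ^ (x + 1).choose l)]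
    have h2 : ∏ l ∈ range (x + 1), df (m + l) t G n ^ x.choose l =
        (∏ l ∈ range (x + 1), df (m + (l + 1)) t G n ^ x.choose (l + 1)) * df m t G n := by
      rw [Finset.prod_range_succ' (fun l => df (m + l) t G n ^ x.choose l),
        Finset.prod_range_succ (fun l => df (m + (l + 1)) t G n ^ x.choose (l + 1))]
      simp
    rw [h2, ← mul_assoc, ← Finset.prod_mul_distrib]
    congr 1
    · apply Finset.prod_congr rfl
      intro l _
      rw [Nat.choose_succ_succ, pow_add, show m + 1 + l = m + (l + 1) by ring]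
    · simp

theorem newton_exact (t : ℕ) (G : ℤ → ℂ) (hG : ∀ n, ‖G n‖ = 1) (x : ℕ) (n : ℤ) :
    G (n + x * t) = ∏ m ∈ range (x + 1), df m t G n ^ x.choose m := by
  have h := newton_gen t G hG x 0 n
  simp only [zero_add] at h
  exact h

theorem df_ge {N : ℕ → ℕ} (hN : Inf N) (t K : ℕ) (G : ℕ → ℤ → ℂ) (hG : ∀ i n, ‖G i n‖ = 1)
    (h : Ap N All (fun i n => df K t (G i) n) (fun _ _ => 1)) (m : ℕ) (hm : K ≤ m) :
    Ap N All (fun i n => df m t (G i) n) (fun _ _ => 1) := by
  induction m, hm using Nat.le_induction with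
  | base => exact h
  | succ m _ ih =>
    have h1 : Ap N All (fun i n => df m t (G i) (n + t)) (fun _ _ => 1) :=
      Ap_shift (N := N) hN (S := All) (S' := All) (u := fun i n => df m t (G i) n) (v := fun _ _ => 1) (t : ℤ)
        (fun _ _ => trivial) ih
    have h2 : Ap N All (fun i n => (starRingEnd ℂ) (df m t (G i) n)) (fun _ _ => (starRingEnd ℂ) 1) :=
      Ap_conj (u := fun i n => df m t (G i) n) (v := fun _ _ => 1) ih
    have h3 := Ap_mul (N := N) (S := All) (u := fun i n => df m t (G i) (n + t)) (v := fun _ _ => 1)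
      (u' := fun i n => (starRingEnd ℂ) (df m t (G i) n)) (v' := fun _ _ => (starRingEnd ℂ) 1)
      (fun i n => by rw [RCLike.norm_conj, df_norm m t (G i) (hG i)]) (fun i n => by simp) h1 h2
    intro η hη
    refine AA_mono ?_ (h3 η hη)
    intro i n _ _ h4 h5
    have h6 := h4 h5
    simp only [map_one, mul_one] at h6
    show ‖df (m + 1) t (G i) n - 1‖ ≤ η
    rw [df_succ]
    exact h6

theorem newton {N : ℕ → ℕ} (hN : Inf N) (t K : ℕ) (G : ℕ → ℤ → ℂ) (hG : ∀ i n, ‖G i n‖ = 1)
    (h : Ap N All (fun i n => df K t (G i) n) (fun _ _ => 1)) (x : ℕ) :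
    Ap N All (fun i n => G i (n + x * t)) (fun i n => ∏ m : Fin K, df m t (G i) n ^ x.choose m) := by
  obtain ⟨M, hM⟩ : ∃ M, M = max (x + 1) K := ⟨_, rfl⟩
  have hnp : ∀ (m : ℕ) (i : ℕ) (n : ℤ), ‖df m t (G i) n ^ x.choose m‖ = 1 := by
    intro m i n
    rw [norm_pow, df_norm m t (G i) (hG i), one_pow]
  have h1 : ∀ i n, G i (n + x * t) = (∏ m ∈ range K, df m t (G i) n ^ x.choose m) *
      ∏ m ∈ Finset.Ico K M, df m t (G i) n ^ x.choose m := by
    intro i n
    rw [Finset.prod_range_mul_prod_Ico _ (by rw [hM]; exact le_max_right _ _), newton_exact t (G i) (hG i) x n,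
      ← Finset.prod_range_mul_prod_Ico _ (show x + 1 ≤ M by rw [hM]; exact le_max_left _ _)]
    rw [Finset.prod_eq_one (s := Finset.Ico (x + 1) M), mul_one]
    intro m hm
    rw [Finset.mem_Ico] at hm
    rw [Nat.choose_eq_zero_of_lt (by omega), pow_zero]
  have h2 : Ap N All (fun i n => ∏ m ∈ Finset.Ico K M, df m t (G i) n ^ x.choose m) (fun _ _ => 1) := by
    have h3 := Ap_prod (N := N) (S := All) (Finset.Ico K M) (u := fun m i n => df m t (G i) n ^ x.choose m)
      (v := fun _ _ _ => 1) (fun m i n => (hnp m i n).le) (fun _ _ _ => by simp) (by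
        intro m hm
        rw [Finset.mem_Ico] at hm
        have h4 := Ap_pow (N := N) (S := All) (fun i n => (df_norm m t (G i) (hG i) n).le) (fun _ _ => by simp)
          (df_ge hN t K G hG h m hm.1) (x.choose m)
        simpa using h4)
    simpa using h3
  have h5 := Ap_mul (N := N) (S := All) (u := fun i n => ∏ m ∈ range K, df m t (G i) n ^ x.choose m)
    (v := fun i n => ∏ m ∈ range K, df m t (G i) n ^ x.choose m)
    (u' := fun i n => ∏ m ∈ Finset.Ico K M, df m t (G i) n ^ x.choose m) (v' := fun _ _ => 1)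
    (fun i n => by rw [norm_prod, Finset.prod_eq_one (fun m _ => hnp m i n)])
    (fun i n => by rw [norm_prod, Finset.prod_eq_one (fun m _ => hnp m i n)])
    (Ap_refl _ _ _) h2
  intro η hη
  refine AA_mono ?_ (h5 η hη)
  intro i n _ _ h6 h7
  have h8 := h6 h7
  simp only [mul_one] at h8
  show ‖G i (n + x * t) - ∏ m : Fin K, df m t (G i) n ^ x.choose m‖ ≤ η
  rw [Fin.prod_univ_eq_prod_range (fun m => df m t (G i) n ^ x.choose m) K]
  rw [h1 i n]
  exact h8

end Pool.H16.SW
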