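import Pool.Agent.H16.SW.AREL
import Pool.Agent.H2.WE.Edc
import Pool.Agent.H2.WE.Pos
import Pool.Agent.H2.WE.Eli
import Pool.Agent.H2.WE.Sml
import Pool.Agent.H2.WE.Dir

/-!
# [H16 SW POL] The mixed differences of the first direction, at one scale

PROOF. Exactly as `H2/WE/Fin.lean` and `H2/MU/Fin.lean` (`finN`), without the finite order: `c, P1` from `pos k`; `D, P1'` from `sml k c`; `Mh = ∑ h i + 1`; given `ε, η`: `Pmax, N0, δ₀` from `edc` with `P0 = max P1 (max P1' 1)`; `δ = min δ₀ ε`; `N₀` large. The exceptional set of the hypothesis has `E1 ≤ ε N` elements.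
`edc`: `P ∈ [P0, Pmax]`, `cc`; `𝒢 = {p ∈ PP P : cnt p ≤ 2 ε N}` has at least half of the primes; `drl` gives unimodular `c' p` with `‖∏ dir g i(n + p h i) - c' p‖ ≤ (k+3) η` off `E3 = ⌊2 ε N⌋ + (k+1)(E1 + 2 Pmax Mh)` exceptions. `pos k`: `R`. `eli` for `r ∈ R` (as in `fin_core`):
`dls (r_i (h 0 - h i.succ)) G0` is within `2^k (k+3) η` of a constant `C`, `‖C‖ = 1`, off `2^k (E3 + 2P Mh)` exceptions. Put `E4 = 2^k (E3 + 2 P Mh + 1)` (`≥ 1`) and `θ = 2^k (k+3) η / E4`: this is `ARel N G0 (List.ofFn ..) θ E4` (`E4 θ = 2^k (k+3) η`). `sml` with `Q r E = ARel N G0 (List.ofFn fun i => r i * s i) θ E` (`arel_mono`, `arel_upd`,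
`B = P Mh`, `s i = h 0 - h i.succ`, `|s i| ≤ Mh`): `d` with `1 ≤ d i ≤ D` and `ARel ... θ E5`, `E5 = 2^k (E4 + P Mh)`. As `P Mh ≤ E4`, `E5 ≤ 2^(k+1) E4` and `E5 θ ≤ 2^(k+1) 2^k (k+3) η`. Finally `E3 ≤ (k+3) ε N + O(1)`, so `E5 ≤ 2^(2k+1) ((k+3) ε N + O(1)) ≤ 2^(2k+2) (k+3) ε N` for large `N`.
`Cc = 4^(k+1) (k+3)` works for both.
-/

set_option autoImplicit false

namespace Pool.H16.SW

open Finset Pool.H2.MR Pool.H2.WE

/-- the algebraic part at one scale -/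
private theorem pol_core (k N : ℕ) (h : Fin (k + 1) → ℕ) (Mh : ℕ)
    (hMi : ∀ i, h i ≤ Mh) (D : ℕ) (P : ℕ) (c : ℝ)
    (hsml : ∀ (R : Finset (Fin k → ℤ)) (Q : (Fin k → ℤ) → ℕ → Prop) (E B : ℕ),
      (∀ r ∈ R, ∀ i, |r i| ≤ P) → c * (P : ℝ) ^ k ≤ R.card → (∀ r ∈ R, Q r E) → (∀ r E E', E ≤ E' → Q r E → Q r E') →
      (∀ (r : Fin k → ℤ) (i : Fin k) (x y : ℤ) (E : ℕ), |x| ≤ P → |y| ≤ P → Q (Function.update r i x) E → Q (Function.update r i y) E →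
        Q (Function.update r i (y - x)) (2 * E + B)) →
      ∃ d : Fin k → ℤ, (∀ i, 1 ≤ d i ∧ d i ≤ D) ∧ Q d (2 ^ k * (E + B)))
    (g : Fin (k + 1) → ℕ → ℂ) (𝒢 : Finset ℕ) (h𝒢 : 𝒢 ⊆ PP P) (c' : ℕ → ℂ)
    (hc' : ∀ p ∈ 𝒢, ‖c' p‖ = 1) (η' : ℝ) (hη' : 0 ≤ η') (E3 : ℕ)
    (hR : ∀ p ∈ 𝒢, ex N (fun n => ‖∏ i, dir (g i (n + (p : ℤ) * h i).toNat) - c' p‖ ≤ η') ≤ E3)
    (R : Finset (Fin k → ℤ))
    (hR1 : ∀ r ∈ R, (∀ i, |r i| ≤ P) ∧ ∃ p : ℤ, ∀ ω, ∃ p' ∈ 𝒢, p + cs r ω = (p' : ℤ)) (hR2 : c * (P : ℝ) ^ k ≤ R.card)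
    (E4 : ℕ) (hE4 : E4 = 2 ^ k * (E3 + 2 * P * Mh + 1)) :
    ∃ d : Fin k → ℤ, (∀ i, 1 ≤ d i ∧ d i ≤ D) ∧ ∃ C : ℂ, ‖C‖ = 1 ∧
      ex N (fun n => ‖dls (List.ofFn fun i => d i * ((h 0 : ℤ) - h i.succ)) (gm (g 0)) n - C‖ ≤ 2 * (4 ^ k * η')) ≤ 2 * 2 ^ k * E4 := by
  classical
  obtain ⟨G0, hG0⟩ : ∃ G0 : ℤ → ℂ, G0 = gm (g 0) := ⟨_, rfl⟩
  have hG0n : ∀ n, ‖G0 n‖ = 1 := fun n => by rw [hG0]; exact gm_norm _ _
  obtain ⟨s, hs⟩ : ∃ s : Fin k → ℤ, s = fun i => (h 0 : ℤ) - h i.succ := ⟨_, rfl⟩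
  have hsM : ∀ i, (s i).natAbs ≤ Mh := by
    intro i
    rw [hs]
    have h1 := hMi 0
    have h2 := hMi i.succ
    simp only
    omega
  have h2k : 1 ≤ 2 ^ k := Nat.one_le_two_pow
  have hE41 : 1 ≤ E4 := by
    rw [hE4]
    exact le_trans (by omega) (Nat.mul_le_mul h2k (by omega : 1 ≤ E3 + 2 * P * Mh + 1))
  have hE4r : (0 : ℝ) < E4 := by exact_mod_cast hE41
  have hPE4 : P * Mh ≤ E4 := by
    rw [hE4]
    calc P * Mh ≤ 1 * (E3 + 2 * P * Mh + 1) := by nlinarith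
      _ ≤ 2 ^ k * (E3 + 2 * P * Mh + 1) := Nat.mul_le_mul_right _ h2k
  obtain ⟨θ, hθ⟩ : ∃ θ : ℝ, θ = 2 ^ k * η' / E4 := ⟨_, rfl⟩
  have hθ0 : 0 ≤ θ := by
    rw [hθ]
    positivity
  have hEθ : (E4 : ℝ) * θ = 2 ^ k * η' := by
    rw [hθ]
    field_simp
  have hrel : ∀ r ∈ R, ARel N G0 (List.ofFn fun i => r i * s i) θ E4 := by
    intro r hr
    obtain ⟨hr1, p, hp⟩ := hR1 r hr
    obtain ⟨C1, hC1, hC2⟩ := eli k N G0 (fun i n => dir (g i.succ n.toNat)) hG0n (fun i n => dir_norm _) (h 0 : ℤ)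
      (fun i => (h i.succ : ℤ)) (𝒢.image (fun p : ℕ => (p : ℤ))) (fun z => c' z.toNat) (by
        intro z hz
        obtain ⟨p', hp', rfl⟩ := Finset.mem_image.1 hz
        simpa using hc' p' hp') η' E3 (2 * P) Mh (by
        intro z hz
        obtain ⟨p', hp', rfl⟩ := Finset.mem_image.1 hz
        refine le_trans (le_of_eq ?_) (hR p' hp')
        congr 1
        funext n
        rw [Fin.prod_univ_succ, hG0]
        simp only [Int.toNat_natCast, gm]) (by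
        intro z hz
        obtain ⟨p', hp', rfl⟩ := Finset.mem_image.1 hz
        have h1 := h𝒢 hp'
        unfold PP at h1
        rw [Finset.mem_filter, Finset.mem_Ioc] at h1
        have h2 := h1.1.2
        simpa using h2) (by simpa using hMi 0) (by intro i; simpa using hMi i.succ) r (by
        intro i
        have h1 := hr1 i
        rw [Int.abs_eq_natAbs] at h1
        omega) p (by
        intro ω
        obtain ⟨p', hp', he⟩ := hp ω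
        rw [he]
        exact Finset.mem_image_of_mem _ hp')
    refine ⟨C1, hC1, ?_⟩
    rw [hEθ]
    refine le_trans (le_trans (le_of_eq ?_) hC2) ?_
    · rw [hs]
    · rw [hE4]
      exact Nat.mul_le_mul_left _ (by omega)
  obtain ⟨d, hd1, c1, hc1, hc2⟩ := hsml R (fun r E => ARel N G0 (List.ofFn fun i => r i * s i) θ E) E4
    (P * Mh) (fun r hr => (hR1 r hr).1) hR2 hrel (fun r E E' hE hr => arel_mono hθ0 hE hr) (by
      intro r i x y E hx hy h1 h2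
      refine arel_upd k N G0 hG0n s r i x y θ hθ0 E (P * Mh) ?_ h1 h2
      rw [Int.abs_eq_natAbs] at hx
      rw [Int.natAbs_mul]
      exact Nat.mul_le_mul (by omega) (hsM i))
  have hE5 : 2 ^ k * (E4 + P * Mh) ≤ 2 * 2 ^ k * E4 := by
    calc 2 ^ k * (E4 + P * Mh) ≤ 2 ^ k * (E4 + E4) := Nat.mul_le_mul_left _ (by omega)
      _ = 2 * 2 ^ k * E4 := by ring
  refine ⟨d, hd1, c1, hc1, ?_⟩
  rw [hs, hG0] at hc2
  refine le_trans (le_trans (ex_mono ?_) hc2) hE5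
  intro n _ _ hn
  refine hn.trans ?_
  have h1 : ((2 ^ k * (E4 + P * Mh) : ℕ) : ℝ) ≤ ((2 * 2 ^ k * E4 : ℕ) : ℝ) := by exact_mod_cast hE5
  refine (mul_le_mul_of_nonneg_right h1 hθ0).trans (le_of_eq ?_)
  push_cast
  rw [mul_assoc, hEθ, show (4 : ℝ) ^ k = 2 ^ k * 2 ^ k by rw [← mul_pow]; norm_num]
  ring

theorem pol (k : ℕ) (h : Fin (k + 1) → ℕ) (hh : ∀ i, i ≠ 0 → h i ≠ h 0) : ∃ (D : ℕ) (Cc : ℝ), 1 ≤ D ∧ 1 ≤ Cc ∧
    ∀ ε η : ℝ, 0 < ε → ε ≤ 1 → 0 < η → ((k : ℝ) + 3) * η ≤ 1 → ∃ (N₀ : ℕ) (δ : ℝ), 0 < δ ∧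
      ∀ (N : ℕ) (g : Fin (k + 1) → ℕ → ℂ) (ζ : ℂ), N₀ ≤ N → (∀ i, OB (g i)) → ‖ζ‖ = 1 →
        (((Icc 1 N).filter (fun n => η / 2 < ‖∏ i, g i (n + h i) - ζ‖)).card : ℝ) ≤ δ * N →
        ∃ d : Fin k → ℤ, (∀ i, 1 ≤ d i ∧ d i ≤ D) ∧ ∃ C : ℂ, ‖C‖ = 1 ∧
          (ex N (fun n => ‖dls (List.ofFn fun i => d i * ((h 0 : ℤ) - h i.succ)) (gm (g 0)) n - C‖ ≤ Cc * η) : ℝ) ≤
            Cc * ε * N := by
  classical
  obtain ⟨c, P1, hc, hP1, hpos⟩ := pos k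
  obtain ⟨D, P1', hD, hsml⟩ := sml k c hc
  obtain ⟨Mh, hMh⟩ : ∃ Mh : ℕ, Mh = ∑ i, h i + 1 := ⟨_, rfl⟩
  have hMi : ∀ i, h i ≤ Mh := by
    intro i
    have := Finset.single_le_sum (f := h) (fun _ _ => Nat.zero_le _) (Finset.mem_univ i)
    omega
  have hMh1 : 1 ≤ Mh := by omega
  have hk3 : (0 : ℝ) < (k : ℝ) + 3 := by positivity
  have hk0 : (0 : ℝ) ≤ (k : ℝ) := Nat.cast_nonneg k
  have h4k : (1 : ℝ) ≤ 4 ^ k := one_le_pow₀ (by norm_num)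
  refine ⟨D, 4 * 4 ^ k * ((k : ℝ) + 3), hD, by nlinarith, ?_⟩
  intro ε η hε0 hε1 hη0 hηk1
  obtain ⟨Pmax, N0, δ₀, hδ₀, hedc⟩ := edc k h ε η hε0 hε1 hη0 (max P1 (max P1' 1))
  obtain ⟨β, hβ⟩ : ∃ β : ℝ, β = 2 * ((k : ℝ) + 2) * Pmax * Mh + 1 := ⟨_, rfl⟩
  obtain ⟨N2, hN2⟩ : ∃ N2 : ℕ, N2 = ⌈β / (((k : ℝ) + 3) * ε)⌉₊ := ⟨_, rfl⟩
  refine ⟨N0 + N2 + 1, min δ₀ ε, lt_min hδ₀ hε0, ?_⟩
  intro N g ζ hNN hg hζ hstr
  have hNpos : (0 : ℝ) < N := by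
    have : 0 < N := by omega
    exact_mod_cast this
  have hNβ : β ≤ ((k : ℝ) + 3) * ε * N := by
    have h1 : β / (((k : ℝ) + 3) * ε) ≤ N := by
      refine (Nat.le_ceil _).trans ?_
      rw [← hN2]
      exact_mod_cast (by omega : N2 ≤ N)
    rw [div_le_iff₀ (by positivity)] at h1
    linarith
  have hgn : ∀ i n, ‖g i n‖ ≤ 1 := fun i n => (hg i).bd n
  obtain ⟨E1, hE1⟩ : ∃ E1 : ℕ, E1 = ((Icc 1 N).filter (fun n => η / 2 < ‖∏ i, g i (n + h i) - ζ‖)).card := ⟨_, rfl⟩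
  rw [← hE1] at hstr
  have hE1ε : (E1 : ℝ) ≤ ε * N := hstr.trans (mul_le_mul_of_nonneg_right (min_le_right _ _) hNpos.le)
  obtain ⟨P, cc, hPP, hP1', hPmax, hsum⟩ := hedc N g ζ (by omega) hg (by
    rw [← hE1]
    exact hstr.trans (mul_le_mul_of_nonneg_right (min_le_left _ _) hNpos.le))
  have hPP1 : P1 ≤ P := le_trans (le_max_left _ _) hPP
  have hPP2 : P1' ≤ P := le_trans (le_trans (le_max_left _ _) (le_max_right _ _)) hPP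
  obtain ⟨cnt, hcnt⟩ : ∃ cnt : ℕ → ℕ, cnt = fun p => ((Icc 1 N).filter (fun n => η < ‖∏ i, g i (n + p * h i) - cc p‖)).card := ⟨_, rfl⟩
  obtain ⟨𝒢, h𝒢⟩ : ∃ 𝒢 : Finset ℕ, 𝒢 = (PP P).filter (fun p => (cnt p : ℝ) ≤ 2 * ε * N) := ⟨_, rfl⟩
  have hsub : 𝒢 ⊆ PP P := by
    rw [h𝒢]
    exact Finset.filter_subset _ _
  have hcard : (PP P).card ≤ 2 * 𝒢.card := by
    have h1 := Finset.card_filter_add_card_filter_not (s := PP P) (fun p => (cnt p : ℝ) ≤ 2 * ε * N)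
    rw [← h𝒢] at h1
    have h2 : (((PP P).filter (fun p => ¬ (cnt p : ℝ) ≤ 2 * ε * N)).card : ℝ) * (2 * ε * N) ≤ ε * (PP P).card * N := by
      refine le_trans ?_ hsum
      rw [← nsmul_eq_mul, ← Finset.sum_const]
      refine le_trans (Finset.sum_le_sum (g := fun p => (cnt p : ℝ)) fun p hp => ?_) ?_
      · exact (not_le.1 (Finset.mem_filter.1 hp).2).le
      · rw [hcnt]
        exact Finset.sum_le_sum_of_subset_of_nonneg (Finset.filter_subset _ _) (fun _ _ _ => Nat.cast_nonneg _)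
    have h3 : 2 * (((PP P).filter (fun p => ¬ (cnt p : ℝ) ≤ 2 * ε * N)).card : ℝ) ≤ (PP P).card := by
      have h4 : 0 < ε * N := by positivity
      have h5 : 2 * (((PP P).filter (fun p => ¬ (cnt p : ℝ) ≤ 2 * ε * N)).card : ℝ) * (ε * N) ≤ (PP P).card * (ε * N) := by
        linarith
      exact le_of_mul_le_mul_right h5 h4
    have h4 : 2 * ((PP P).filter (fun p => ¬ (cnt p : ℝ) ≤ 2 * ε * N)).card ≤ (PP P).card := by exact_mod_cast h3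
    omega
  obtain ⟨R, hR1, hR2⟩ := hpos P 𝒢 hPP1 hsub hcard
  obtain ⟨E3, hE3⟩ : ∃ E3 : ℕ, E3 = ⌊2 * ε * N⌋₊ + (k + 1) * (E1 + 2 * Pmax * Mh) := ⟨_, rfl⟩
  have key : ∀ p : ℕ, ∃ c' : ℂ, p ∈ 𝒢 → ‖c'‖ = 1 ∧
      ex N (fun n => ‖∏ i, dir (g i (n + (p : ℤ) * h i).toNat) - c'‖ ≤ (k + 3) * η) ≤ E3 := by
    intro p
    by_cases hp : p ∈ 𝒢
    · have hp1 := hp
      rw [h𝒢, Finset.mem_filter] at hp1
      have hp2 := hp1.1
      unfold PP at hp2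
      rw [Finset.mem_filter, Finset.mem_Ioc] at hp2
      obtain ⟨c', h1, h2⟩ := drl k N h g hgn ζ hζ η hη0 hηk1 p hp2.2.one_lt.le (cc p) E1 (cnt p) Mh hMi (by rw [hE1])
        (by rw [hcnt])
      refine ⟨c', fun _ => ⟨h1, h2.trans ?_⟩⟩
      rw [hE3]
      have h3 : cnt p ≤ ⌊2 * ε * N⌋₊ := Nat.le_floor hp1.2
      have h4 : p * Mh ≤ 2 * Pmax * Mh := Nat.mul_le_mul_right _ (by omega)
      have h5 : (k + 1) * (E1 + p * Mh) ≤ (k + 1) * (E1 + 2 * Pmax * Mh) := Nat.mul_le_mul_left _ (by omega)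
      omega
    · exact ⟨1, fun h => absurd h hp⟩
  choose c' hc' using key
  obtain ⟨E4, hE4⟩ : ∃ E4 : ℕ, E4 = 2 ^ k * (E3 + 2 * P * Mh + 1) := ⟨_, rfl⟩
  obtain ⟨d, hd1, C, hC, hex⟩ := pol_core k N h Mh hMi D P c (hsml P hPP2 hP1') g 𝒢 hsub c' (fun p hp => (hc' p hp).1)
    (((k : ℝ) + 3) * η) (by positivity) E3 (fun p hp => (hc' p hp).2) R hR1 hR2 E4 hE4
  have hPR : (P : ℝ) ≤ Pmax := by exact_mod_cast hPmax
  refine ⟨d, hd1, C, hC, ?_⟩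
  have h1 : (E3 : ℝ) ≤ ((k : ℝ) + 3) * (ε * N) + 2 * (k + 1) * Pmax * Mh := by
    rw [hE3]
    push_cast
    have h2 : (⌊2 * ε * N⌋₊ : ℝ) ≤ 2 * ε * N := Nat.floor_le (by positivity)
    have h3 : ((k : ℝ) + 1) * E1 ≤ (k + 1) * (ε * N) := mul_le_mul_of_nonneg_left hE1ε (by positivity)
    nlinarith
  have hPM : (P : ℝ) * Mh ≤ Pmax * Mh := mul_le_mul_of_nonneg_right hPR (Nat.cast_nonneg _)
  have h44 : (4 : ℝ) ^ k = 2 ^ k * 2 ^ k := by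
    rw [← mul_pow]
    norm_num
  have h3 : (E3 : ℝ) + 2 * P * Mh + 1 ≤ 2 * (((k : ℝ) + 3) * (ε * N)) := by
    have : (E3 : ℝ) + 2 * P * Mh + 1 ≤ ((k : ℝ) + 3) * (ε * N) + β := by
      rw [hβ]
      linarith
    linarith
  have h5 : (ex N (fun n => ‖dls (List.ofFn fun i => d i * ((h 0 : ℤ) - h i.succ)) (gm (g 0)) n - C‖ ≤
      2 * (4 ^ k * (((k : ℝ) + 3) * η))) : ℝ) ≤ 2 * 2 ^ k * E4 := by exact_mod_cast hex
  refine le_trans (b := (ex N (fun n => ‖dls (List.ofFn fun i => d i * ((h 0 : ℤ) - h i.succ)) (gm (g 0)) n - C‖ ≤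
      2 * (4 ^ k * (((k : ℝ) + 3) * η))) : ℝ)) ?_ (h5.trans ?_)
  · have h6 : ex N (fun n => ‖dls (List.ofFn fun i => d i * ((h 0 : ℤ) - h i.succ)) (gm (g 0)) n - C‖ ≤
        4 * 4 ^ k * ((k : ℝ) + 3) * η) ≤ ex N (fun n => ‖dls (List.ofFn fun i => d i * ((h 0 : ℤ) - h i.succ)) (gm (g 0)) n - C‖ ≤
        2 * (4 ^ k * (((k : ℝ) + 3) * η))) := by
      apply ex_mono
      intro n _ _ hn
      refine hn.trans ?_
      have h7 : 0 < 4 ^ k * (((k : ℝ) + 3) * η) := by positivity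
      linarith
    exact_mod_cast h6
  · have h8 : (E4 : ℝ) = 2 ^ k * ((E3 : ℝ) + 2 * P * Mh + 1) := by
      rw [hE4]
      push_cast
      ring
    rw [h8]
    calc (2 : ℝ) * 2 ^ k * (2 ^ k * ((E3 : ℝ) + 2 * P * Mh + 1)) ≤ 2 * 2 ^ k * (2 ^ k * (2 * (((k : ℝ) + 3) * (ε * N)))) :=
          mul_le_mul_of_nonneg_left (mul_le_mul_of_nonneg_left h3 (by positivity)) (by positivity)
      _ = 4 * 4 ^ k * ((k : ℝ) + 3) * ε * N := by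
        rw [h44]
        ring

end Pool.H16.SW
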