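import Pool.Agent.H16.SW.FinA

/-!
# [H16 SW RESA] The sufficiency for integral shifts
-/

set_option autoImplicit false

namespace Pool.H16.SW

open Finset Pool.H2.MR Pool.H2.WE

theorem resA {K : ℕ} (hK : 1 ≤ K) (h : Fin K → ℤ) (hh : Function.Injective h) (q : ℕ) (hq : 1 ≤ q) (I : Finset (Fin K))
    (c : Fin K → ℤ) (α β : ℚ) (hc : ∀ j, j ∉ I → (c j : ℚ) = α + β * h j) : ∃ (δ : ℝ) (A : ℕ), 0 < δ ∧ ∀ N : ℕ, A ≤ N →
      ∀ g : Fin K → ℕ → ℂ, (∀ j, OB (g j)) → (∀ j ∈ I, FO q (g j)) → NA A N (FF c g) →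
        ‖(1 / (N : ℂ)) * ∑ n ∈ Icc 1 N, ∏ j, g j ((n : ℤ) + h j).toNat‖ ≤ 1 - δ := by
  obtain ⟨k, rfl⟩ : ∃ k, K = k + 1 := ⟨K - 1, by omega⟩
  obtain ⟨T, hTdef⟩ : ∃ T : ℕ, T = ∑ i, (h i).natAbs := ⟨_, rfl⟩
  have hT : ∀ i, |h i| ≤ T := by
    intro i
    have h1 : (h i).natAbs ≤ T := by
      rw [hTdef]
      exact Finset.single_le_sum (f := fun i => (h i).natAbs) (fun _ _ => Nat.zero_le _) (Finset.mem_univ i)
    rw [Int.abs_eq_natAbs]
    exact_mod_cast h1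
  have hcast : ∀ i, (((h i + T).toNat : ℕ) : ℤ) = h i + T := by
    intro i
    have h3 := abs_le.1 (hT i)
    omega
  have hh' : Function.Injective (fun i => (h i + T).toNat) := by
    intro i j hij
    apply hh
    have h1 : ((h i + T).toNat : ℤ) = ((h j + T).toNat : ℤ) := by
      exact_mod_cast hij
    rw [hcast, hcast] at h1
    omega
  have hc' : ∀ j, j ∉ I → (c j : ℚ) = (α - β * T) + β * (((h j + T).toNat : ℕ) : ℚ) := by
    intro j hj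
    have h1 : (((h j + T).toNat : ℕ) : ℚ) = (h j : ℚ) + T := by
      have := hcast j
      exact_mod_cast this
    rw [hc j hj, h1]
    ring
  obtain ⟨δ₁, A₁, hδ₁, H₁⟩ := finA (fun i => (h i + T).toNat) hh' q hq I c (α - β * T) β hc'
  obtain ⟨δ, hδ⟩ : ∃ δ : ℝ, δ = min δ₁ 1 := ⟨_, rfl⟩
  have hδ0 : 0 < δ := by rw [hδ]; exact lt_min hδ₁ one_pos
  have hδ1 : δ ≤ 1 := by rw [hδ]; exact min_le_right _ _
  have hδa : δ ≤ δ₁ := by rw [hδ]; exact min_le_left _ _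
  obtain ⟨N₁, hN₁⟩ := exists_nat_ge (2 * (T : ℝ) / δ)
  refine ⟨δ / 2, A₁ + 1 + 3 * T + N₁ + 1, by positivity, ?_⟩
  intro N hNN g hg hI hNA
  have hN0 := NA_shift (FF c g) (ff_OB c g hg) A₁ N T (by omega) (NA_mono hNA (by omega))
  have hN2 : (N₁ : ℝ) ≤ N := by exact_mod_cast (by omega : N₁ ≤ N)
  have h3 : ‖∑ n ∈ Icc 1 (N - T), ∏ i, g i (n + (h i + T).toNat)‖ ≤ (1 - δ) * ((N - T : ℕ) : ℝ) := by
    refine (H₁ (N - T) (by omega) g hg hI hN0).trans ?_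
    apply mul_le_mul_of_nonneg_right _ (Nat.cast_nonneg _)
    linarith
  exact res_shift k h T hT δ hδ0 hδ1 g (fun i n => (hg i).bd n) N
    (by omega) (by
      have h2 := hN₁.trans hN2
      rw [div_le_iff₀ hδ0] at h2
      linarith) h3

end Pool.H16.SW
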