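import Pool.Agent.H16.SW.APL
import Pool.Agent.H2.WE.Dir

/-!
# [H16 SW STR] Large averages (the constant is the direction of the sum)

The proof is that of `str` in `H2/WE/Dir.lean`.
-/

set_option autoImplicit false

namespace Pool.H16.SW

open Finset Pool.H2.MR Pool.H2.WE

open Classical in
theorem str_dir (N : ℕ) (x : ℕ → ℂ) (hx : ∀ n, ‖x n‖ ≤ 1) (δ η : ℝ) (hη : 0 < η) (h : (1 - δ) * N < ‖∑ n ∈ Icc 1 N, x n‖) :
    (((Icc 1 N).filter (fun n => η / 2 < ‖x n - dir (∑ n ∈ Icc 1 N, x n)‖)).card : ℝ) ≤ 8 * δ / η ^ 2 * N := by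
  set S : ℂ := ∑ n ∈ Icc 1 N, x n with hS
  set ζ := dir S with hζ
  have hre : ((starRingEnd ℂ) ζ * S).re = ‖S‖ := by
    rw [hζ]; unfold dir
    split_ifs with h0
    · rw [h0]; simp
    · have h1 : ‖S‖ ≠ 0 := norm_ne_zero_iff.2 h0
      have h2 : (starRingEnd ℂ) (S / (‖S‖ : ℂ)) * S = ((‖S‖ : ℝ) : ℂ) := by
        rw [map_div₀, Complex.conj_ofReal, div_mul_eq_mul_div, Complex.conj_mul']
        have h2' : (‖S‖ : ℂ) ≠ 0 := by exact_mod_cast h1
        field_simp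
      rw [h2, Complex.ofReal_re]
  have hn : ∀ n, ‖x n - ζ‖ ^ 2 ≤ 2 * (1 - ((starRingEnd ℂ) ζ * x n).re) := by
    intro n
    have h1 : ‖x n - ζ‖ ^ 2 = ‖x n‖ ^ 2 + ‖ζ‖ ^ 2 - 2 * ((starRingEnd ℂ) ζ * x n).re := by
      rw [← Complex.normSq_eq_norm_sq, ← Complex.normSq_eq_norm_sq, ← Complex.normSq_eq_norm_sq, Complex.normSq_apply,
        Complex.normSq_apply, Complex.normSq_apply]
      simp only [Complex.sub_re, Complex.sub_im, Complex.mul_re, Complex.conj_re, Complex.conj_im]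
      ring
    rw [h1, dir_norm]
    have h2 : ‖x n‖ ^ 2 ≤ 1 := by
      have := hx n
      nlinarith [norm_nonneg (x n)]
    linarith
  have hsum : ∑ n ∈ Icc 1 N, (1 - ((starRingEnd ℂ) ζ * x n).re) = N - ‖S‖ := by
    rw [sum_sub_distrib, ← Complex.re_sum, ← mul_sum, hre]
    simp
  have hpos : ∀ n, 0 ≤ 1 - ((starRingEnd ℂ) ζ * x n).re := by
    intro n
    have := hn n
    nlinarith [sq_nonneg ‖x n - ζ‖]
  have h4 : (((Icc 1 N).filter (fun n => η / 2 < ‖x n - ζ‖)).card : ℝ) * (η ^ 2 / 8) ≤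
      ∑ n ∈ Icc 1 N, (1 - ((starRingEnd ℂ) ζ * x n).re) := by
    rw [← nsmul_eq_mul]
    refine le_trans ?_ (sum_le_sum_of_subset_of_nonneg (filter_subset (fun n => η / 2 < ‖x n - ζ‖) _) fun n _ _ => hpos n)
    refine card_nsmul_le_sum _ _ _ fun n hn' => ?_
    have h5 := (mem_filter.1 hn').2
    have h6 := hn n
    nlinarith
  rw [hsum] at h4
  have h7 : 0 < η ^ 2 := by positivity
  rw [div_mul_eq_mul_div, le_div_iff₀ h7]
  nlinarith


/-- a sequence of counterexamples gives the standing situation -/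
theorem sit_of {K : ℕ} (h : Fin K → ℕ) (N : ℕ → ℕ) (hN : Inf N) (g : ℕ → Fin K → ℕ → ℂ) (hg : ∀ i j, OB (g i j))
    (hS : ∀ i : ℕ, (1 - 1 / ((i : ℝ) + 1)) * N i < ‖∑ n ∈ Icc 1 (N i), ∏ j, g i j (n + h j)‖) :
    Sit K h N g (fun i => dir (∑ n ∈ Icc 1 (N i), ∏ j, g i j (n + h j))) := by
  classical
  refine ⟨hN, hg, fun i => dir_norm _, ?_⟩
  intro η hη ε hε
  obtain ⟨i₀, hi₀⟩ := exists_nat_ge (8 / (2 * η) ^ 2 / ε)
  refine ⟨i₀, fun i hi => ?_⟩
  have h1 := str_dir (N i) (fun n => ∏ j, g i j (n + h j)) (fun n => by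
    rw [norm_prod]
    exact Finset.prod_le_one (fun _ _ => norm_nonneg _) (fun j _ => (hg i j).bd _)) (1 / ((i : ℝ) + 1)) (2 * η) (by positivity) (hS i)
  have h2 : (ex (N i) (fun n => All n → ‖∏ j, g i j (n + h j).toNat - dir (∑ n ∈ Icc 1 (N i), ∏ j, g i j (n + h j))‖ ≤ η) : ℝ) ≤
      (((Icc 1 (N i)).filter (fun n => 2 * η / 2 < ‖∏ j, g i j (n + h j) - dir (∑ n ∈ Icc 1 (N i), ∏ j, g i j (n + h j))‖)).card : ℝ) := by
    have h3 := ex_nat (N i) (fun n => ‖∏ j, g i j (n + h j) - dir (∑ n ∈ Icc 1 (N i), ∏ j, g i j (n + h j))‖ ≤ η)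
    have h4 : ex (N i) (fun n => All n → ‖∏ j, g i j (n + h j).toNat - dir (∑ n ∈ Icc 1 (N i), ∏ j, g i j (n + h j))‖ ≤ η) ≤
        ex (N i) (fun n => ‖∏ j, g i j (n.toNat + h j) - dir (∑ n ∈ Icc 1 (N i), ∏ j, g i j (n + h j))‖ ≤ η) := by
      apply ex_mono
      intro n hn1 _ hn _
      have h5 : ∀ j, (n + h j).toNat = n.toNat + h j := fun j => by omega
      simp only [h5]
      exact hn
    rw [h3] at h4
    refine (Nat.cast_le.2 h4).trans (le_of_eq ?_)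
    congr 2
    ext n
    simp only [Finset.mem_filter, not_le]
    rw [mul_div_cancel_left₀ _ (two_ne_zero)]
  refine h2.trans (h1.trans ?_)
  refine mul_le_mul_of_nonneg_right ?_ (Nat.cast_nonneg _)
  have h6 : 8 / (2 * η) ^ 2 / ε ≤ (i : ℝ) + 1 := by
    have : (i₀ : ℝ) ≤ i := by exact_mod_cast hi
    linarith
  rw [div_le_iff₀ hε] at h6
  have h7 : (0 : ℝ) < (i : ℝ) + 1 := by positivity
  calc 8 * (1 / ((i : ℝ) + 1)) / (2 * η) ^ 2 = 8 / (2 * η) ^ 2 / ((i : ℝ) + 1) := by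
        field_simp
    _ ≤ ε := by
        rw [div_le_iff₀ h7]
        linarith

end Pool.H16.SW
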