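import Mathlib

/-!
# [H16 SW ZBL] Dyadic blocks with decreasing weights

PROOF. ONE BLOCK: `y ≤ m ≤ Z`, `m' ≤ 2m`. With `S(k) = ∑_{n ∈ Ioc m k} z n`, `‖S(k)‖ ≤ C m^(1-c)` for `k ≤ 2m`, and the weights `w n = n^(-(1+σ))` positive and decreasing, Abel summation (`∑_{Ioc m m'} w n z n = w m' S(m') + ∑_{m<k<m'} (w k - w (k+1)) S(k)`; e.g. by induction on `m'`
for the claim `∑_{n∈Ioc m m'} w n z n = w m' S(m') + ∑_{k ∈ Ioo m m'} (w k - w (k+1)) S k` for `m' > m`) gives `‖∑‖ ≤ C m^(1-c) w(m+1) ≤ C m^(1-c) m^(-1) = C m^(-c)`. DYADIC: strong induction on `Z - y` for `‖∑_{Ioc y Z}‖ ≤ D y^(-c)`, `D = 2C/c`: if `Z ≤ 2y` one block (`C ≤ D` as `c ≤ 1`); otherwise split at `2y`: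
`C y^(-c) + D (2y)^(-c) = y^(-c)(C + D 2^(-c)) ≤ D y^(-c)` because `1 - 2^(-c) ≥ c/2` for `0 ≤ c ≤ 1` (`2^(-c) ≤ 1 - c/2`: convexity of `2^x` between `0` and `-1`, e.g. Bernoulli `rpow_one_add_le_one_add_mul_self` or `one_add_mul_self...`: `(1/2)^c = (1 + (-1/2))^c ≤ 1 - c/2`).
-/

set_option autoImplicit false

namespace Pool.H16.SW

open Finset

private theorem abel (w : ℕ → ℝ) (z : ℕ → ℂ) (B : ℝ) (m : ℕ) (hw : ∀ k, m < k → w (k + 1) ≤ w k)
    (hw0 : ∀ k, m < k → 0 ≤ w k) (m' : ℕ) (hm : m < m')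
    (hS : ∀ k, k ≤ m' → ‖∑ n ∈ Ioc m k, z n‖ ≤ B) :
    ‖∑ n ∈ Ioc m m', ((w n : ℝ) : ℂ) * z n‖ ≤ B * w (m + 1) := by
  have hB : 0 ≤ B := (norm_nonneg _).trans (hS m hm.le)
  have key : ∀ k, m < k → k ≤ m' →
      ‖∑ n ∈ Ioc m k, ((w n : ℝ) : ℂ) * z n - ((w k : ℝ) : ℂ) * ∑ n ∈ Ioc m k, z n‖ ≤
        B * (w (m + 1) - w k) := by
    intro k hk
    induction k, hk using Nat.le_induction with
    | base =>
      intro _
      rw [Nat.Ioc_succ_singleton, sum_singleton, sum_singleton, sub_self, norm_zero, sub_self,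
        mul_zero]
    | succ k hk ih =>
      intro hk2
      have hmk : m < k := hk
      have h1 := ih (by omega)
      have h2 := hS k (by omega)
      rw [sum_Ioc_succ_top (by omega : m ≤ k), sum_Ioc_succ_top (by omega : m ≤ k)]
      have e : ∑ n ∈ Ioc m k, ((w n : ℝ) : ℂ) * z n + ((w (k + 1) : ℝ) : ℂ) * z (k + 1) -
          ((w (k + 1) : ℝ) : ℂ) * (∑ n ∈ Ioc m k, z n + z (k + 1)) =
          (∑ n ∈ Ioc m k, ((w n : ℝ) : ℂ) * z n - ((w k : ℝ) : ℂ) * ∑ n ∈ Ioc m k, z n) +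
          ((w k - w (k + 1) : ℝ) : ℂ) * ∑ n ∈ Ioc m k, z n := by
        push_cast
        ring
      rw [e]
      refine (norm_add_le _ _).trans ?_
      rw [norm_mul, Complex.norm_real, Real.norm_eq_abs,
        abs_of_nonneg (sub_nonneg.2 (hw k hmk))]
      have h3 : (w k - w (k + 1)) * ‖∑ n ∈ Ioc m k, z n‖ ≤ (w k - w (k + 1)) * B :=
        mul_le_mul_of_nonneg_left h2 (sub_nonneg.2 (hw k hmk))
      linarith
  have h1 := key m' hm le_rfl
  have h2 := hS m' le_rfl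
  have e : ∑ n ∈ Ioc m m', ((w n : ℝ) : ℂ) * z n =
      (∑ n ∈ Ioc m m', ((w n : ℝ) : ℂ) * z n - ((w m' : ℝ) : ℂ) * ∑ n ∈ Ioc m m', z n) +
      ((w m' : ℝ) : ℂ) * ∑ n ∈ Ioc m m', z n := by ring
  rw [e]
  refine (norm_add_le _ _).trans ?_
  rw [norm_mul, Complex.norm_real, Real.norm_eq_abs, abs_of_nonneg (hw0 m' hm)]
  have h3 := mul_le_mul_of_nonneg_left h2 (hw0 m' hm)
  linarith

theorem zbl (z : ℕ → ℂ) (C c σ : ℝ) (hC : 0 ≤ C) (hc : 0 < c) (hc1 : c ≤ 1) (hσ : 0 ≤ σ) (y Z : ℕ) (hy : 1 ≤ y)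
    (hz : ∀ m m' : ℕ, y ≤ m → m ≤ Z → m' ≤ 2 * m → ‖∑ n ∈ Ioc m m', z n‖ ≤ C * (m : ℝ) ^ (1 - c)) :
    ‖∑ n ∈ Ioc y Z, (((n : ℝ) ^ (-(1 + σ)) : ℝ) : ℂ) * z n‖ ≤ 2 * C / c * (y : ℝ) ^ (-c) := by
  have hD : C ≤ 2 * C / c := by
    rw [le_div_iff₀ hc]
    nlinarith
  have hD0 : 0 ≤ 2 * C / c := hC.trans hD
  -- one block
  have hblock : ∀ m m' : ℕ, y ≤ m → m < m' → m ≤ Z → m' ≤ 2 * m →
      ‖∑ n ∈ Ioc m m', (((n : ℝ) ^ (-(1 + σ)) : ℝ) : ℂ) * z n‖ ≤ C * (m : ℝ) ^ (-c) := by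
    intro m m' hm hmm' hmZ hm2
    have hm0 : (0 : ℝ) < m := by exact_mod_cast (by omega : 0 < m)
    have h1 := abel (fun n => (n : ℝ) ^ (-(1 + σ))) z (C * (m : ℝ) ^ (1 - c)) m
      (fun k hk => by
        have hk0 : (0 : ℝ) < k := by exact_mod_cast (by omega : 0 < k)
        refine Real.rpow_le_rpow_of_nonpos hk0 ?_ (by linarith)
        push_cast
        linarith)
      (fun k _ => by positivity) m' hmm' (fun k hk => hz m k hm hmZ (by omega))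
    refine h1.trans ?_
    have h2 : ((m + 1 : ℕ) : ℝ) ^ (-(1 + σ)) ≤ (m : ℝ) ^ (-1 : ℝ) := by
      calc ((m + 1 : ℕ) : ℝ) ^ (-(1 + σ)) ≤ ((m + 1 : ℕ) : ℝ) ^ (-1 : ℝ) := by
            refine Real.rpow_le_rpow_of_exponent_le ?_ (by linarith)
            push_cast
            linarith
        _ ≤ (m : ℝ) ^ (-1 : ℝ) := by
            refine Real.rpow_le_rpow_of_nonpos hm0 ?_ (by norm_num)
            push_cast
            linarith
    calc C * (m : ℝ) ^ (1 - c) * ((m + 1 : ℕ) : ℝ) ^ (-(1 + σ))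
        ≤ C * (m : ℝ) ^ (1 - c) * (m : ℝ) ^ (-1 : ℝ) := by gcongr
      _ = C * (m : ℝ) ^ (-c) := by
          rw [mul_assoc, ← Real.rpow_add hm0]
          congr 2
          ring
  have hhalf : (2 : ℝ) ^ (-c) ≤ 1 - c / 2 := by
    have h1 := rpow_one_add_le_one_add_mul_self (s := -1 / 2) (by norm_num) hc.le hc1
    have h2 : (2 : ℝ) ^ (-c) = (1 + (-1 / 2)) ^ c := by
      rw [Real.rpow_neg (by norm_num), ← Real.inv_rpow (by norm_num)]
      norm_num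
    rw [h2]
    refine h1.trans (le_of_eq ?_)
    ring
  have key : ∀ N : ℕ, ∀ y' : ℕ, y ≤ y' → Z ≤ y' + N →
      ‖∑ n ∈ Ioc y' Z, (((n : ℝ) ^ (-(1 + σ)) : ℝ) : ℂ) * z n‖ ≤ 2 * C / c * (y' : ℝ) ^ (-c) := by
    intro N
    induction N using Nat.strong_induction_on with
    | _ N ih =>
      intro y' hy' hN
      have hy0 : (0 : ℝ) < y' := by exact_mod_cast (by omega : 0 < y')
      rcases Nat.lt_or_ge y' Z with hlt | hge
      · rcases Nat.lt_or_ge (2 * y') Z with h2 | h2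
        · have hsplit : ∑ n ∈ Ioc y' Z, (((n : ℝ) ^ (-(1 + σ)) : ℝ) : ℂ) * z n =
              ∑ n ∈ Ioc y' (2 * y'), (((n : ℝ) ^ (-(1 + σ)) : ℝ) : ℂ) * z n +
              ∑ n ∈ Ioc (2 * y') Z, (((n : ℝ) ^ (-(1 + σ)) : ℝ) : ℂ) * z n := by
            have h3 := sum_Ioc_consecutive (fun n : ℕ => (((n : ℝ) ^ (-(1 + σ)) : ℝ) : ℂ) * z n)
              (by omega : y' ≤ 2 * y') h2.le
            exact h3.symm
          rw [hsplit]
          have b1 := hblock y' (2 * y') hy' (by omega) hlt.le le_rfl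
          have b2 := ih (Z - 2 * y') (by omega) (2 * y') (by omega) (by omega)
          have e1 : ((2 * y' : ℕ) : ℝ) ^ (-c) = (2 : ℝ) ^ (-c) * (y' : ℝ) ^ (-c) := by
            push_cast
            rw [Real.mul_rpow (by norm_num) hy0.le]
          rw [e1] at b2
          refine (norm_add_le _ _).trans ((add_le_add b1 b2).trans ?_)
          have hyc : 0 ≤ (y' : ℝ) ^ (-c) := by positivity
          have h4 : C + 2 * C / c * (2 : ℝ) ^ (-c) ≤ 2 * C / c := by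
            have h5 : 2 * C / c * (2 : ℝ) ^ (-c) ≤ 2 * C / c * (1 - c / 2) := by gcongr
            have h6 : 2 * C / c * (1 - c / 2) = 2 * C / c - C := by
              field_simp
            linarith
          calc C * (y' : ℝ) ^ (-c) + 2 * C / c * ((2 : ℝ) ^ (-c) * (y' : ℝ) ^ (-c))
              = (C + 2 * C / c * (2 : ℝ) ^ (-c)) * (y' : ℝ) ^ (-c) := by ring
            _ ≤ 2 * C / c * (y' : ℝ) ^ (-c) := by gcongr
        · refine (hblock y' Z hy' hlt hlt.le h2).trans ?_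
          gcongr
      · rw [Ioc_eq_empty (by omega), sum_empty, norm_zero]
        positivity
  exact key Z y le_rfl (by omega)

end Pool.H16.SW
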