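import Pool.Agent.H2.MR.Defs
import Pool.Agent.H75.AP.MertensB

/-!
# [H16 SW ZPR] Primes and the zeta function

PROOF. `σ = 1/log M`, `w = 1 + σ + i s`, `M ≥ 3`. (a) `ζ(w) = exp(∑'_p -log(1 - p^(-w)))` (`riemannZeta_eulerProduct_exp_log`), so `log ‖ζ(w)‖ = ∑'_p Re(-log(1 - p^(-w)))` (`Complex.norm_exp`, summability: `summable_riemannZetaSummand`-type lemmas in `Mathlib/NumberTheory/EulerProduct`, or `DirichletCharacter`/
`EulerProduct.ExpLog`: `EulerProduct.exp_tsum_primes_log_eq_tsum`, `Summable.clog_one_sub`), and for `|z| ≤ 1/2`: `Re(-log(1 - z)) ≥ Re z - |z|^2` (`Complex.norm_log_one_sub_inv_sub_self_le` or `Complex.norm_log_one_add_sub_self_le`: `‖log(1+z) - z‖ ≤ ‖z‖^2 (1-‖z‖)⁻¹/2 ≤ ‖z‖^2`). As `∑_p p^(-2) ≤ ∑_{n≥2} n^(-2) ≤ 1`: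
`∑'_p Re p^(-w) ≤ log ‖ζ(w)‖ + 1`. (b) the same with `s = 0` and `ζ(1+σ) ≤ 1 + 1/σ = 1 + log M ≤ 2 log M`: `∑'_p p^(-1-σ) ≤ log log M + 2`. (c) `|p^(-σ) - 1| ≤ σ log p` for `p ≤ M`, so with `mertens_one`, `mertens_low` (`H75/AP`): `∑_{p ≤ M} p^(-1-σ) ≥ ∑_{p≤M} 1/p - σ ∑_{p≤M} (log p)/p ≥ log log M - C₁`
(see `H2/MR/Ha7.lean` for the same computation). Hence `∑'_{p > M} p^(-1-σ) ≤ C₁ + 2`. (d) all terms `1 - cos ≥ 0` and `p^(-1) ≥ p^(-1-σ)`: `DD 1 s M = ∑_{p≤M} (1 - Re ni s p)/p ≥ ∑_{p≤M} (1 - Re ni s p) p^(-1-σ) = ∑_{p≤M} p^(-1-σ) - ∑_{p≤M} Re p^(-w) ≥ (log log M - C₁) - (∑'_p Re p^(-w) + ∑'_{p>M} p^(-1-σ)) ≥ log log M - log ‖ζ(w)‖ - 2C₁ - 3`.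
(`p^(-w) = p^(-1-σ) ni s p`.)
-/

set_option autoImplicit false

namespace Pool.H16.SW

open Finset Pool.H2.MR

/-- the function `ni` has norm at most one -/
private theorem ni_le (s : ℝ) (n : ℕ) : ‖ni s n‖ ≤ 1 := by
  unfold ni
  rcases Nat.eq_zero_or_pos n with rfl | hn
  · by_cases hs : s = 0
    · simp [hs]
    · have : -((s : ℂ) * Complex.I) ≠ 0 := by
        simp [hs]
      rw [Nat.cast_zero, Complex.zero_cpow this]
      simp
  · have hn0 : (0 : ℝ) < n := by exact_mod_cast hn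
    rw [show (n : ℂ) = ((n : ℝ) : ℂ) by norm_num, Complex.norm_cpow_eq_rpow_re_of_pos hn0]
    simp

/-- lower bound for the logarithm of the zeta function by the primes -/
private theorem zlow (σ s : ℝ) (hσ : 0 < σ) :
    ∑' p : Nat.Primes, ((p : ℂ) ^ (-(1 + (σ : ℂ) + s * Complex.I))).re ≤
      Real.log ‖riemannZeta (1 + (σ : ℂ) + s * Complex.I)‖ +
        ∑' p : Nat.Primes, ((p : ℝ) ^ (-2 : ℝ)) := by
  set w : ℂ := 1 + (σ : ℂ) + s * Complex.I with hw
  have hre : w.re = 1 + σ := by rw [hw]; simp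
  have hw1 : 1 < w.re := by rw [hre]; linarith
  have hnorm : ∀ p : Nat.Primes, ‖(p : ℂ) ^ (-w)‖ = (p : ℝ) ^ (-(1 + σ)) := by
    intro p
    have hp0 : (0 : ℝ) < (p : ℕ) := by exact_mod_cast p.2.pos
    rw [show ((p : ℕ) : ℂ) = (((p : ℕ) : ℝ) : ℂ) by norm_num,
      Complex.norm_cpow_eq_rpow_re_of_pos hp0, Complex.neg_re, hre]
  have hsumm : Summable fun p : Nat.Primes => (p : ℂ) ^ (-w) := by
    refine Summable.of_norm ?_
    simp only [hnorm]
    exact Nat.Primes.summable_rpow.2 (by linarith)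
  have hlog : Summable fun p : Nat.Primes => -Complex.log (1 - (p : ℂ) ^ (-w)) :=
    hsumm.clog_one_sub.neg
  have h2 : Summable fun p : Nat.Primes => ((p : ℝ) ^ (-2 : ℝ)) :=
    Nat.Primes.summable_rpow.2 (by norm_num)
  have hexp := riemannZeta_eulerProduct_exp_log hw1
  have h3 : Real.log ‖riemannZeta w‖ =
      ∑' p : Nat.Primes, (-Complex.log (1 - (p : ℂ) ^ (-w))).re := by
    rw [← hexp, Complex.norm_exp, Real.log_exp, Complex.re_tsum hlog]
  rw [h3]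
  have hre1 : Summable fun p : Nat.Primes => ((p : ℂ) ^ (-w)).re :=
    (Complex.hasSum_re hsumm.hasSum).summable
  have hre2 : Summable fun p : Nat.Primes => (-Complex.log (1 - (p : ℂ) ^ (-w))).re :=
    (Complex.hasSum_re hlog.hasSum).summable
  rw [← hre2.tsum_add h2]
  refine hre1.tsum_le_tsum (fun p => ?_) (hre2.add h2)
  have hp2 : (2 : ℝ) ≤ (p : ℕ) := by exact_mod_cast p.2.two_le
  have hp0 : (0 : ℝ) < (p : ℕ) := by linarith
  have hn1 : ‖(p : ℂ) ^ (-w)‖ ≤ (p : ℝ) ^ (-1 : ℝ) := by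
    rw [hnorm]
    exact Real.rpow_le_rpow_of_exponent_le (by linarith) (by linarith)
  have hn2 : ((p : ℕ) : ℝ) ^ (-1 : ℝ) ≤ 1 / 2 := by
    rw [Real.rpow_neg_one, ← one_div]
    exact one_div_le_one_div_of_le (by norm_num) hp2
  set z : ℂ := (p : ℂ) ^ (-w) with hz
  have hz2 : ‖z‖ ≤ 1 / 2 := hn1.trans hn2
  have h5 := Complex.norm_log_one_add_sub_self_le (z := -z) (by rw [norm_neg]; linarith)
  rw [norm_neg] at h5
  have h6 : ‖z‖ ^ 2 * (1 - ‖z‖)⁻¹ / 2 ≤ ‖z‖ ^ 2 := by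
    have h7 : (1 - ‖z‖)⁻¹ ≤ 2 := by
      rw [inv_le_comm₀ (by linarith) (by norm_num)]
      linarith
    have h8 : 0 ≤ ‖z‖ ^ 2 := by positivity
    nlinarith
  have h7 : ‖z‖ ^ 2 ≤ ((p : ℕ) : ℝ) ^ (-2 : ℝ) := by
    have h8 : (((p : ℕ) : ℝ) ^ (-1 : ℝ)) ^ 2 = ((p : ℕ) : ℝ) ^ (-2 : ℝ) := by
      rw [← Real.rpow_natCast, ← Real.rpow_mul hp0.le]
      norm_num
    rw [← h8]
    exact pow_le_pow_left₀ (norm_nonneg _) hn1 2
  have h8 : |(Complex.log (1 + -z) - -z).re| ≤ ((p : ℕ) : ℝ) ^ (-2 : ℝ) :=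
    (Complex.abs_re_le_norm _).trans (h5.trans (h6.trans h7))
  have h9 := (abs_le.1 h8).2
  rw [sub_neg_eq_add, Complex.add_re, ← sub_eq_add_neg] at h9
  rw [Complex.neg_re]
  linarith

/-- the zeta function at `1 + σ` -/
private theorem zat (σ : ℝ) (hσ : 0 < σ) : ‖riemannZeta (1 + (σ : ℂ) + (0 : ℝ) * Complex.I)‖ ≤ 1 + 1 / σ := by
  have hre : (1 + (σ : ℂ) + (0 : ℝ) * Complex.I) = ((1 + σ : ℝ) : ℂ) := by
    push_cast
    ring
  have h1 : 1 < (((1 + σ : ℝ) : ℂ)).re := by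
    rw [Complex.ofReal_re]
    linarith
  rw [hre, zeta_eq_tsum_one_div_nat_add_one_cpow h1]
  have hs : Summable fun n : ℕ => 1 / (n + 1 : ℝ) ^ (1 + σ) := by
    exact_mod_cast (summable_nat_add_iff 1).mpr (Real.summable_one_div_nat_rpow.mpr (by linarith : 1 < 1 + σ))
  have hterm : ∀ n : ℕ, ‖1 / ((n : ℂ) + 1) ^ ((1 + σ : ℝ) : ℂ)‖ = 1 / (n + 1 : ℝ) ^ (1 + σ) := by
    intro n
    have hn0 : (0 : ℝ) < (n : ℝ) + 1 := by positivity
    rw [norm_div, norm_one, show ((n : ℂ) + 1) = (((n : ℝ) + 1 : ℝ) : ℂ) by push_cast; rfl,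
      Complex.norm_cpow_eq_rpow_re_of_pos hn0, Complex.ofReal_re]
  have h2 : ‖∑' n : ℕ, 1 / ((n : ℂ) + 1) ^ ((1 + σ : ℝ) : ℂ)‖ ≤
      ∑' n : ℕ, 1 / (n + 1 : ℝ) ^ (1 + σ) := by
    refine (norm_tsum_le_tsum_norm ?_).trans (le_of_eq ?_)
    · simp only [hterm]
      exact hs
    · simp only [hterm]
  refine h2.trans ?_
  have h3 := ZetaAsymptotics.zeta_limit_aux1 (s := 1 + σ) (by linarith)
  have h4 : 0 ≤ ZetaAsymptotics.termTSum (1 + σ) := tsum_nonneg fun n => ZetaAsymptotics.term_nonneg _ _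
  have h5 : 0 ≤ (1 + σ) * ZetaAsymptotics.termTSum (1 + σ) := by positivity
  have h6 : (1 + σ - 1) = σ := by ring
  rw [h6] at h3
  linarith

theorem zpr : ∃ C : ℝ, 0 < C ∧ ∀ M : ℕ, 3 ≤ M → ∀ s : ℝ,
    Real.log (Real.log M) - Real.log ‖riemannZeta (1 + ((1 / Real.log M : ℝ) : ℂ) + s * Complex.I)‖ - C ≤ DD (fun _ => 1) s M := by
  obtain ⟨C1, hC1, hM⟩ := Pool.Agent.H75.AP.mertens_one
  obtain ⟨C2, hC2, hL⟩ := Pool.Agent.H75.AP.mertens_low
  set C3 : ℝ := ∑' p : Nat.Primes, ((p : ℝ) ^ (-2 : ℝ)) with hC3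
  have hC30 : 0 ≤ C3 := tsum_nonneg fun p => by positivity
  refine ⟨2 * (C2 + 1 + C1) + 2 * C3 + 1, by positivity, fun M hM3 s => ?_⟩
  have hNR3 : (3 : ℝ) ≤ M := by exact_mod_cast hM3
  have hN0 : (0 : ℝ) < M := by linarith
  have hL1 : 1 ≤ Real.log M := by
    rw [Real.le_log_iff_exp_le hN0]
    linarith [Real.exp_one_lt_d9]
  have hL0 : 0 < Real.log M := by linarith
  set σ : ℝ := 1 / Real.log M with hσ
  have hσ0 : 0 < σ := by positivity
  set w : ℂ := 1 + (σ : ℂ) + s * Complex.I with hw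
  set S := (Icc 1 M).filter Nat.Prime with hS
  have hPI : ∀ h : ℕ → ℝ, ∑ p ∈ S, h p = ∑ p ∈ Pool.Agent.H75.AP.PI 0 M, h p := by
    intro h
    apply Finset.sum_congr _ (fun _ _ => rfl)
    ext p
    rw [hS, mem_filter, mem_Icc]
    unfold Pool.Agent.H75.AP.PI
    rw [mem_filter, mem_range, Nat.floor_natCast]
    constructor
    · rintro ⟨⟨a, b⟩, c⟩
      exact ⟨by omega, c, by exact_mod_cast c.pos⟩
    · rintro ⟨a, b, c⟩
      exact ⟨⟨b.one_lt.le, by omega⟩, b⟩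
  have hE1 : ∑ p ∈ S, Real.log p / p ≤ Real.log M + C1 := by
    rw [hPI]
    linarith [(abs_le.1 (hM M (by linarith))).2]
  have hE2 : Real.log (Real.log M) - C2 ≤ ∑ p ∈ S, 1 / (p : ℝ) := by
    rw [hPI]
    exact hL M hNR3
  have hE3 : σ * ∑ p ∈ S, Real.log p / p ≤ 1 + C1 := by
    have h1 := mul_le_mul_of_nonneg_left hE1 hσ0.le
    have h2 : σ * (Real.log M + C1) = 1 + C1 / Real.log M := by
      rw [hσ]
      field_simp
    have h3 : C1 / Real.log M ≤ C1 := div_le_self hC1.le hL1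
    linarith
  -- the two sequences
  set a : ℕ → ℝ := fun p => (p : ℝ) ^ (-(1 + σ)) with ha
  set b : ℕ → ℝ := fun p => ((p : ℂ) ^ (-w)).re with hb
  have hb' : ∀ p : ℕ, 1 ≤ p → b p = a p * (ni s p).re := by
    intro p hp
    have hp0 : (0 : ℝ) < p := by exact_mod_cast hp
    have hpc : (p : ℂ) ≠ 0 := by exact_mod_cast hp0.ne'
    have e1 : (p : ℂ) ^ (-w) = (((p : ℝ) ^ (-(1 + σ)) : ℝ) : ℂ) * ni s p := by
      unfold ni
      have : -w = ((-(1 + σ) : ℝ) : ℂ) + -((s : ℂ) * Complex.I) := by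
        rw [hw]
        push_cast
        ring
      rw [this, Complex.cpow_add _ _ hpc, Complex.ofReal_cpow hp0.le]
      norm_num
    rw [hb]
    dsimp only
    rw [e1, Complex.re_ofReal_mul]
  have hr1 : ∀ p : ℕ, |(ni s p).re| ≤ 1 := fun p =>
    (Complex.abs_re_le_norm _).trans (ni_le s p)
  have ha0 : ∀ p : ℕ, 0 ≤ a p := fun p => by
    rw [ha]
    positivity
  have hS1 : ∀ p ∈ S, 1 ≤ p := fun p hp => by
    rw [hS, mem_filter, mem_Icc] at hp
    exact hp.1.1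
  -- lower bound of the sum of `a`
  have hA : Real.log (Real.log M) - C2 - (1 + C1) ≤ ∑ p ∈ S, a p := by
    have h1 : ∀ p ∈ S, 1 / (p : ℝ) - σ * (Real.log p / p) ≤ a p := by
      intro p hp
      have hpR1 : (1 : ℝ) ≤ p := by exact_mod_cast hS1 p hp
      have hp0 : (0 : ℝ) < p := by linarith
      have e3 : a p = (1 / p) * Real.exp (-(σ * Real.log p)) := by
        rw [ha]
        dsimp only
        rw [Real.rpow_def_of_pos hp0]
        have : Real.log p * -(1 + σ) = -Real.log p + -(σ * Real.log p) := by ring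
        rw [this, Real.exp_add, Real.exp_neg, Real.exp_log hp0, one_div]
      have e4 : 1 - σ * Real.log p ≤ Real.exp (-(σ * Real.log p)) := by
        have := Real.add_one_le_exp (-(σ * Real.log p))
        linarith
      rw [e3]
      have e5 : 1 / (p : ℝ) - σ * (Real.log p / p) = 1 / p * (1 - σ * Real.log p) := by ring
      rw [e5]
      exact mul_le_mul_of_nonneg_left e4 (by positivity)
    have h2 := Finset.sum_le_sum h1
    rw [Finset.sum_sub_distrib, ← Finset.mul_sum] at h2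
    linarith
  -- the distance
  have hD : ∑ p ∈ S, (a p - b p) ≤ DD (fun _ => 1) s M := by
    unfold DD
    refine Finset.sum_le_sum fun p hp => ?_
    have hpR1 : (1 : ℝ) ≤ p := by exact_mod_cast hS1 p hp
    have hp0 : (0 : ℝ) < p := by linarith
    rw [hb' p (hS1 p hp), one_mul]
    have h1 : a p ≤ 1 / (p : ℝ) := by
      rw [ha]
      dsimp only
      rw [one_div, ← Real.rpow_neg_one]
      exact Real.rpow_le_rpow_of_exponent_le hpR1 (by linarith)
    have h2 : 0 ≤ 1 - (ni s p).re := by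
      have := (abs_le.1 (hr1 p)).2
      linarith
    calc a p - a p * (ni s p).re = a p * (1 - (ni s p).re) := by ring
      _ ≤ 1 / (p : ℝ) * (1 - (ni s p).re) := by gcongr
      _ = (1 - (ni s p).re) / p := by ring
  -- summability
  have hsa : Summable fun p : Nat.Primes => a p := by
    rw [ha]
    exact Nat.Primes.summable_rpow.2 (by linarith)
  have hab : ∀ p : Nat.Primes, |b p| ≤ a p := by
    intro p
    rw [hb' p p.2.one_lt.le, abs_mul, abs_of_nonneg (ha0 _)]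
    exact mul_le_of_le_one_right (ha0 _) (hr1 _)
  have hsb : Summable fun p : Nat.Primes => b p :=
    Summable.of_norm_bounded hsa fun p => by
      rw [Real.norm_eq_abs]
      exact hab p
  have hfin : ∑ p ∈ S, (a p + b p) ≤ ∑' p : Nat.Primes, (a p + b p) := by
    have h1 : ∑ p ∈ S.subtype Nat.Prime, (a p + b p) = ∑ p ∈ S, (a p + b p) :=
      Finset.sum_subtype_of_mem (fun p => a p + b p) fun p hp => by
        rw [hS, mem_filter] at hp
        exact hp.2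
    rw [← h1]
    refine Summable.sum_le_tsum (f := fun p : Nat.Primes => a p + b p) _ (fun p _ => ?_)
      (hsa.add hsb)
    have := (abs_le.1 (hab p)).1
    linarith
  rw [hsa.tsum_add hsb] at hfin
  -- the two zeta values
  have hz1 : ∑' p : Nat.Primes, b p ≤ Real.log ‖riemannZeta w‖ + C3 := zlow σ s hσ0
  have hz2 : ∑' p : Nat.Primes, a p ≤ Real.log (Real.log M) + 1 + C3 := by
    have h1 := zlow σ 0 hσ0
    have h2 : ∀ p : Nat.Primes, ((p : ℂ) ^ (-(1 + (σ : ℂ) + (0 : ℝ) * Complex.I))).re = a p := by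
      intro p
      have hp0 : (0 : ℝ) ≤ (p : ℕ) := by exact_mod_cast p.2.pos.le
      have h3 : (-(1 + (σ : ℂ) + (0 : ℝ) * Complex.I)) = ((-(1 + σ) : ℝ) : ℂ) := by
        push_cast
        ring
      rw [h3, show ((p : ℕ) : ℂ) = (((p : ℕ) : ℝ) : ℂ) by norm_num, ← Complex.ofReal_cpow hp0,
        Complex.ofReal_re]
    simp only [h2] at h1
    refine h1.trans ?_
    have h3 : Real.log ‖riemannZeta (1 + (σ : ℂ) + (0 : ℝ) * Complex.I)‖ ≤
        Real.log (Real.log M) + 1 := by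
      have h4 := zat σ hσ0
      have h5 : 1 + 1 / σ ≤ Real.exp 1 * Real.log M := by
        have h6 : 1 / σ = Real.log M := by
          rw [hσ, one_div_one_div]
        rw [h6]
        have h7 : (2 : ℝ) ≤ Real.exp 1 := by
          have := Real.exp_one_gt_d9
          linarith
        nlinarith
      have h6 : riemannZeta (1 + (σ : ℂ) + (0 : ℝ) * Complex.I) ≠ 0 := by
        refine riemannZeta_ne_zero_of_one_lt_re ?_
        simp [hσ0]
      have h7 : 0 < ‖riemannZeta (1 + (σ : ℂ) + (0 : ℝ) * Complex.I)‖ := norm_pos_iff.2 h6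
      have h8 := Real.log_le_log h7 (h4.trans h5)
      rw [Real.log_mul (Real.exp_pos 1).ne' hL0.ne', Real.log_exp] at h8
      linarith
    linarith
  rw [Finset.sum_sub_distrib] at hD
  rw [Finset.sum_add_distrib] at hfin
  have hgoal : Real.log (Real.log M) - Real.log ‖riemannZeta w‖ -
      (2 * (C2 + 1 + C1) + 2 * C3 + 1) ≤ DD (fun _ => 1) s M := by linarith
  exact hgoal

end Pool.H16.SW
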