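import Pool.Agent.H16.SW.ZUP
import Pool.Agent.H16.SW.ZPR

/-!
# [H16 SW ZET] The functions `n^(is)` with `N ≤ |s| ≤ N^4` are far from `1`

PROOF. `C` from `zpr`. `ε = exp(-(A + C + 1))`, choose `K, L` with `1/K + exp(-2L) ≤ ε` (so `1 ≤ K, L`), `M₀` from `zup K L`. `zco`: for large `M` (`3 ≤ ε log M`) `‖ζ‖ ≤ 2 ε log M`, `ζ ≠ 0` (`riemannZeta_ne_zero_of_one_lt_re`; or if the norm were `0` use `Real.log 0 = 0`), so `log ‖ζ‖ ≤ log 2 + log ε + log log M` and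
`DD ≥ -log ε - log 2 - C ≥ A`. `zet`: `L, M₀` from `zco A`; for `N` large let `M` be the largest integer with `M^L ≤ N` (`Nat.nthRoot`, `Nat.findGreatest`, or `⌊N^(1/L)⌋₊`); `M ≥ max M₀ 2` if `N ≥ (max M₀ 2)^L`; `N < (M+1)^L ≤ (M^2)^L`, so for `N ≤ |s| ≤ N^4`: `M^L ≤ |s| ≤ M^(8L)`; `M ≤ N` and `DD` is increasing
in `N` (all terms are `≥ 0`: `‖ni s p‖ ≤ 1`).
-/

set_option autoImplicit false

namespace Pool.H16.SW

open Finset Pool.H2.MR

theorem zco (A : ℝ) : ∃ L : ℕ, 1 ≤ L ∧ ∃ M₀ : ℕ, ∀ M : ℕ, M₀ ≤ M → ∀ s : ℝ, (M : ℝ) ^ L ≤ |s| → |s| ≤ (M : ℝ) ^ (8 * L) →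
    A ≤ DD (fun _ => 1) s M := by
  obtain ⟨C, hC, hz⟩ := zpr
  set ε : ℝ := Real.exp (-(A + C + 1)) with hε
  have hε0 : 0 < ε := Real.exp_pos _
  obtain ⟨K, hK⟩ := exists_nat_gt (2 / ε)
  obtain ⟨L, hL⟩ := exists_nat_gt (max 1 (-Real.log (ε / 2)))
  have hL1 : (1 : ℝ) < L := (le_max_left _ _).trans_lt hL
  have hL1' : 1 ≤ L := by
    have : (0 : ℝ) < L := by linarith
    exact_mod_cast this
  have hK0 : (0 : ℝ) < K := lt_trans (by positivity) hK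
  have hK1 : 1 ≤ K := by exact_mod_cast hK0
  have hKε : 1 / (K : ℝ) ≤ ε / 2 := by
    rw [div_lt_iff₀ hε0] at hK
    rw [div_le_iff₀ hK0]
    linarith
  have hLε : Real.exp (-(2 * (L : ℝ))) ≤ ε / 2 := by
    have h1 : -Real.log (ε / 2) < L := (le_max_right _ _).trans_lt hL
    have h2 : -(2 * (L : ℝ)) ≤ Real.log (ε / 2) := by linarith
    calc Real.exp (-(2 * (L : ℝ))) ≤ Real.exp (Real.log (ε / 2)) := Real.exp_le_exp.2 h2
      _ = ε / 2 := Real.exp_log (by positivity)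
  obtain ⟨M₀, hM₀⟩ := zup K L hK1 hL1'
  obtain ⟨M₁, hM₁⟩ := exists_nat_gt (Real.exp (3 / ε))
  refine ⟨L, hL1', max (max M₀ M₁) 3, fun M hM s hs1 hs2 => ?_⟩
  have hMM0 : M₀ ≤ M := le_trans (le_trans (le_max_left _ _) (le_max_left _ _)) hM
  have hMM1 : M₁ ≤ M := le_trans (le_trans (le_max_right _ _) (le_max_left _ _)) hM
  have hM3 : 3 ≤ M := le_trans (le_max_right _ _) hM
  have hMR : (3 : ℝ) ≤ M := by exact_mod_cast hM3
  have hM0 : (0 : ℝ) < M := by linarith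
  have hlM : 3 / ε ≤ Real.log M := by
    rw [Real.le_log_iff_exp_le hM0]
    have : (M₁ : ℝ) ≤ M := by exact_mod_cast hMM1
    linarith
  have hlM0 : 0 < Real.log M := lt_of_lt_of_le (by positivity) hlM
  have h3 : 3 ≤ ε * Real.log M := by
    rw [div_le_iff₀ hε0] at hlM
    linarith
  have h1 := hM₀ M hMM0 s hs1 hs2
  have h2 := hz M hM3 s
  set Zt : ℝ := ‖riemannZeta (1 + ((1 / Real.log M : ℝ) : ℂ) + s * Complex.I)‖ with hZt
  have hZ0 : 0 < Zt := by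
    rw [hZt]
    refine norm_pos_iff.2 (riemannZeta_ne_zero_of_one_lt_re ?_)
    have : 0 < 1 / Real.log M := by positivity
    rw [Complex.add_re, Complex.add_re, Complex.one_re, Complex.ofReal_re]
    have h5 : ((s : ℂ) * Complex.I).re = 0 := by simp
    rw [h5]
    linarith
  have h4 : Zt ≤ 2 * (ε * Real.log M) := by
    have h5 : (1 / (K : ℝ) + Real.exp (-(2 * (L : ℝ)))) * Real.log M ≤ ε * Real.log M := by
      have : 1 / (K : ℝ) + Real.exp (-(2 * (L : ℝ))) ≤ ε := by linarith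
      gcongr
    linarith
  have h5 : Real.log Zt ≤ Real.log 2 + (Real.log ε + Real.log (Real.log M)) := by
    refine (Real.log_le_log hZ0 h4).trans (le_of_eq ?_)
    rw [Real.log_mul (by norm_num) (by positivity), Real.log_mul hε0.ne' hlM0.ne']
  have h6 : Real.log ε = -(A + C + 1) := by rw [hε, Real.log_exp]
  have h7 : Real.log 2 ≤ 1 := by
    have := Real.log_two_lt_d9
    linarith
  linarith

private theorem dd_mono (s : ℝ) {M N : ℕ} (h : M ≤ N) :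
    DD (fun _ => 1) s M ≤ DD (fun _ => 1) s N := by
  unfold DD
  refine sum_le_sum_of_subset_of_nonneg ?_ fun p hp _ => ?_
  · intro p hp
    rw [mem_filter, mem_Icc] at hp ⊢
    exact ⟨⟨hp.1.1, hp.1.2.trans h⟩, hp.2⟩
  · rw [mem_filter, mem_Icc] at hp
    have hp0 : (0 : ℝ) < p := by exact_mod_cast (by omega : 0 < p)
    have h1 : ‖(1 : ℂ) * ni s p‖ = 1 := by
      unfold ni
      rw [one_mul, show (p : ℂ) = ((p : ℝ) : ℂ) by norm_num,
        Complex.norm_cpow_eq_rpow_re_of_pos hp0]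
      simp
    have h2 : ((1 : ℂ) * ni s p).re ≤ 1 := (Complex.re_le_norm _).trans h1.le
    exact div_nonneg (sub_nonneg.2 h2) hp0.le

theorem zet (A : ℝ) : ∃ N₀ : ℕ, ∀ N : ℕ, N₀ ≤ N → ∀ s : ℝ, (N : ℝ) ≤ |s| → |s| ≤ (N : ℝ) ^ 4 → A ≤ DD (fun _ => 1) s N := by
  obtain ⟨L, hL1, M₀, hM₀⟩ := zco A
  set B : ℕ := max M₀ 2 with hB
  have hB2 : 2 ≤ B := le_max_right _ _
  refine ⟨B ^ L, fun N hN s hs1 hs2 => ?_⟩
  have hBN : B ≤ N := (Nat.le_self_pow (by omega) B).trans hN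
  set M : ℕ := Nat.findGreatest (fun m => m ^ L ≤ N) N with hM
  have hMN : M ≤ N := Nat.findGreatest_le N
  have hBM : B ≤ M := Nat.le_findGreatest hBN hN
  have hM1 : M ^ L ≤ N := Nat.findGreatest_spec (P := fun m => m ^ L ≤ N) hBN hN
  have hM2 : N < (M + 1) ^ L := by
    by_contra hcon
    push Not at hcon
    have h1 : M + 1 ≤ N := (Nat.le_self_pow (by omega) (M + 1)).trans hcon
    have h2 : M + 1 ≤ M := Nat.le_findGreatest h1 hcon
    omega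
  have hM3 : N ≤ M ^ (2 * L) := by
    have h1 : M + 1 ≤ M ^ 2 := by nlinarith
    calc N ≤ (M + 1) ^ L := hM2.le
      _ ≤ (M ^ 2) ^ L := Nat.pow_le_pow_left h1 L
      _ = M ^ (2 * L) := by rw [← pow_mul]
  refine (hM₀ M ((le_max_left _ _).trans hBM) s ?_ ?_).trans (dd_mono s hMN)
  · have h1 : (M : ℝ) ^ L ≤ N := by exact_mod_cast hM1
    exact h1.trans hs1
  · have h1 : (N : ℝ) ≤ (M : ℝ) ^ (2 * L) := by exact_mod_cast hM3
    refine hs2.trans ?_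
    calc (N : ℝ) ^ 4 ≤ ((M : ℝ) ^ (2 * L)) ^ 4 := by gcongr
      _ = (M : ℝ) ^ (8 * L) := by
          rw [← pow_mul]
          congr 1
          ring

end Pool.H16.SW
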