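import Pool.Agent.H16.SW.ZBL
import Pool.Agent.H2.MR.Zp

/-!
# [H16 SW ZUP] The zeta function near the line 1, with an arbitrarily small constant

PROOF. `c, C` from `H2.MR.zp (8 L K)`, `σ = 1/log M` (`M` large), `w = 1 + σ + i s`, `y = ⌈M^(1/K)⌉₊` (so `1 ≤ y`, `M ≤ y^K`, `y ≤ M^(1/K) + 1 ≤ 2 M^(1/K)`), `Z = M^(2L)`. `ζ(w) = ∑' 1/(n+1)^w` (`zeta_eq_tsum_one_div_nat_add_one_cpow`, `Re w > 1`); `1/n^w = n^(-(1+σ)) ni s n` for `n ≥ 1`, norm `n^(-(1+σ))`. Three parts: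
(1) `1 ≤ n ≤ y`: at most `∑_{n ≤ y} 1/n ≤ 1 + log y ≤ 1 + log 2 + (log M)/K` (`harmonic_le_one_add_log`). (2) `y < n ≤ Z`: `zbl` with `z = ni s`: for `y ≤ m ≤ Z`, `m' ≤ 2m`: `m^(1/2) ≤ M^L ≤ |s|`, `|s| ≤ M^(8L) ≤ (y^K)^(8L) ≤ m^(8LK)`, so `zp` applies: at most `2C/c y^(-c) ≤ 1` for `M ≥ M₀`.
(3) `n > Z`: `∑'_{n > Z} n^(-(1+σ)) ≤ Z^(-σ)/σ` (compare with the integral, or telescoping: `n^(-(1+σ)) ≤ ((n-1)^(-σ) - n^(-σ))/σ` by the mean value theorem), `Z^(-σ)/σ = exp(-2L) log M`. Sum: `2 + log 2 + (1/K + exp(-2L)) log M`.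
-/

set_option autoImplicit false

namespace Pool.H16.SW

open Finset Pool.H2.MR

/-- one step of the telescoping bound for the tail -/
private theorem zup_step (σ : ℝ) (hσ : 0 < σ) (m : ℕ) (hm : 1 ≤ m) :
    ((m : ℝ) + 1) ^ (-(1 + σ)) ≤ (m : ℝ) ^ (-σ) / σ - ((m : ℝ) + 1) ^ (-σ) / σ := by
  have hm0 : (0 : ℝ) < m := by exact_mod_cast hm
  have hm1 : (0 : ℝ) < (m : ℝ) + 1 := by linarith
  have e1 : ((m : ℝ) + 1) ^ (-(1 + σ)) = ((m : ℝ) + 1) ^ (-σ) / ((m : ℝ) + 1) := by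
    rw [show -(1 + σ) = -σ - 1 by ring, Real.rpow_sub_one hm1.ne']
  have h1 : (1 + σ / ((m : ℝ) + 1)) * ((m : ℝ) + 1) ^ (-σ) ≤ (m : ℝ) ^ (-σ) := by
    have h2 : (m : ℝ) ^ (-σ) = ((m : ℝ) + 1) ^ (-σ) *
        Real.exp (-σ * Real.log ((m : ℝ) / ((m : ℝ) + 1))) := by
      rw [Real.rpow_def_of_pos hm0, Real.rpow_def_of_pos hm1, ← Real.exp_add,
        Real.log_div hm0.ne' hm1.ne']
      congr 1
      ring
    have h3 : Real.log ((m : ℝ) / ((m : ℝ) + 1)) ≤ -(1 / ((m : ℝ) + 1)) := by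
      have h4 := Real.log_le_sub_one_of_pos (show (0 : ℝ) < (m : ℝ) / ((m : ℝ) + 1) by positivity)
      have h5 : (m : ℝ) / ((m : ℝ) + 1) - 1 = -(1 / ((m : ℝ) + 1)) := by
        field_simp
        ring
      rw [h5] at h4
      exact h4
    have h4 : 1 + σ / ((m : ℝ) + 1) ≤ Real.exp (-σ * Real.log ((m : ℝ) / ((m : ℝ) + 1))) := by
      have h5 : σ / ((m : ℝ) + 1) ≤ -σ * Real.log ((m : ℝ) / ((m : ℝ) + 1)) := by
        have h6 := mul_le_mul_of_nonneg_left h3 hσ.le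
        have h7 : σ * -(1 / ((m : ℝ) + 1)) = -(σ / ((m : ℝ) + 1)) := by ring
        rw [h7] at h6
        linarith
      have h8 := Real.add_one_le_exp (-σ * Real.log ((m : ℝ) / ((m : ℝ) + 1)))
      linarith
    rw [h2, mul_comm]
    exact mul_le_mul_of_nonneg_left h4 (by positivity)
  rw [e1, ← sub_div, le_div_iff₀ hσ]
  have h2 : ((m : ℝ) + 1) ^ (-σ) / ((m : ℝ) + 1) * σ =
      σ / ((m : ℝ) + 1) * ((m : ℝ) + 1) ^ (-σ) := by ring
  rw [h2]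
  linarith

/-- partial sums of the tail -/
private theorem zup_part (σ : ℝ) (hσ : 0 < σ) (Z : ℕ) (hZ : 1 ≤ Z) (N : ℕ) :
    ∑ n ∈ range N, ((n + Z : ℕ) + 1 : ℝ) ^ (-(1 + σ)) ≤ (Z : ℝ) ^ (-σ) / σ := by
  have h : ∑ n ∈ range N, ((n + Z : ℕ) + 1 : ℝ) ^ (-(1 + σ)) ≤
      (Z : ℝ) ^ (-σ) / σ - ((N + Z : ℕ) : ℝ) ^ (-σ) / σ := by
    induction N with
    | zero => simp
    | succ N ih =>
      rw [sum_range_succ]
      have h1 := zup_step σ hσ (N + Z) (by omega)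
      have h2 : (((N + 1 + Z : ℕ)) : ℝ) = ((N + Z : ℕ) : ℝ) + 1 := by
        push_cast
        ring
      rw [h2]
      linarith
  have h2 : 0 ≤ ((N + Z : ℕ) : ℝ) ^ (-σ) / σ := by positivity
  linarith

private theorem zup_term (s σ : ℝ) (n : ℕ) :
    1 / ((n : ℂ) + 1) ^ (1 + (σ : ℂ) + s * Complex.I) =
      ((((n + 1 : ℕ) : ℝ) ^ (-(1 + σ)) : ℝ) : ℂ) * ni s (n + 1) := by
  unfold ni
  have h0 : (((n + 1 : ℕ) : ℂ)) ≠ 0 := by exact_mod_cast Nat.succ_ne_zero n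
  have h1 : ((((n + 1 : ℕ) : ℝ) ^ (-(1 + σ)) : ℝ) : ℂ) =
      ((n + 1 : ℕ) : ℂ) ^ (-(1 + (σ : ℂ))) := by
    rw [Complex.ofReal_cpow (Nat.cast_nonneg _)]
    push_cast
    rfl
  rw [h1, ← Complex.cpow_add _ _ h0, one_div, ← Complex.cpow_neg]
  push_cast
  congr 1
  ring

private theorem zup_ni (s : ℝ) (n : ℕ) : ‖ni s (n + 1)‖ = 1 := by
  unfold ni
  have h0 : (0 : ℝ) < ((n + 1 : ℕ) : ℝ) := by positivity
  have h1 : ((n + 1 : ℕ) : ℂ) = (((n + 1 : ℕ) : ℝ) : ℂ) := by push_cast; rfl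
  rw [h1, Complex.norm_cpow_eq_rpow_re_of_pos h0]
  simp

theorem zup (K L : ℕ) (hK : 1 ≤ K) (hL : 1 ≤ L) : ∃ M₀ : ℕ, ∀ M : ℕ, M₀ ≤ M → ∀ s : ℝ, (M : ℝ) ^ L ≤ |s| → |s| ≤ (M : ℝ) ^ (8 * L) →
    ‖riemannZeta (1 + ((1 / Real.log M : ℝ) : ℂ) + s * Complex.I)‖ ≤ 3 + (1 / (K : ℝ) + Real.exp (-(2 * (L : ℝ)))) * Real.log M := by
  have hKp : (0 : ℝ) < K := by exact_mod_cast hK
  obtain ⟨c, C, hc0, hc8, hC, hzp⟩ := zp (8 * L * K) (by
    have : 1 ≤ L * K := Nat.mul_pos hL hK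
    rw [mul_assoc]
    omega)
  -- the number `M₀`
  have ht : Filter.Tendsto (fun M : ℕ => 2 * C / c * (M : ℝ) ^ (-(c / K))) Filter.atTop
      (nhds (2 * C / c * 0)) := by
    apply Filter.Tendsto.const_mul
    exact (tendsto_rpow_neg_atTop (by positivity)).comp tendsto_natCast_atTop_atTop
  obtain ⟨M₁, hM₁⟩ := Filter.eventually_atTop.1
    (ht.eventually (ge_mem_nhds (show 2 * C / c * 0 < 1 by norm_num)))
  refine ⟨max M₁ 2, fun M hM s hs1 hs2 => ?_⟩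
  have hev := hM₁ M ((le_max_left _ _).trans hM)
  have hM2 : 2 ≤ M := (le_max_right _ _).trans hM
  have hM2' : (2 : ℝ) ≤ M := by exact_mod_cast hM2
  have hM1 : (1 : ℝ) ≤ M := by linarith
  have hMp : (0 : ℝ) < M := by linarith
  have hlog : 0 < Real.log M := Real.log_pos (by linarith)
  obtain ⟨σ, hσ⟩ : ∃ σ : ℝ, σ = 1 / Real.log M := ⟨_, rfl⟩
  have hσ0 : 0 < σ := by rw [hσ]; positivity
  rw [← hσ]
  obtain ⟨y, hy⟩ : ∃ y : ℕ, y = ⌈(M : ℝ) ^ (1 / (K : ℝ))⌉₊ := ⟨_, rfl⟩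
  obtain ⟨Z, hZ⟩ : ∃ Z : ℕ, Z = M ^ (2 * L) := ⟨_, rfl⟩
  have hx1 : 1 ≤ (M : ℝ) ^ (1 / (K : ℝ)) := Real.one_le_rpow hM1 (by positivity)
  have hyx : (M : ℝ) ^ (1 / (K : ℝ)) ≤ y := by rw [hy]; exact Nat.le_ceil _
  have hy1' : (1 : ℝ) ≤ y := hx1.trans hyx
  have hy1 : 1 ≤ y := by exact_mod_cast hy1'
  have hyp : (0 : ℝ) < y := by linarith
  have hy2 : (y : ℝ) ≤ 2 * (M : ℝ) ^ (1 / (K : ℝ)) := by
    have := Nat.ceil_lt_add_one (show 0 ≤ (M : ℝ) ^ (1 / (K : ℝ)) by positivity)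
    rw [← hy] at this
    linarith
  have hyM : y ≤ M := by
    rw [hy]
    apply Nat.ceil_le.2
    calc (M : ℝ) ^ (1 / (K : ℝ)) ≤ (M : ℝ) ^ (1 : ℝ) := by
          refine Real.rpow_le_rpow_of_exponent_le hM1 ?_
          rw [div_le_one hKp]
          exact_mod_cast hK
      _ = M := Real.rpow_one _
  have hMyK : (M : ℝ) ≤ (y : ℝ) ^ K := by
    calc (M : ℝ) = ((M : ℝ) ^ (1 / (K : ℝ))) ^ K := by
          rw [← Real.rpow_natCast, ← Real.rpow_mul hMp.le, one_div, inv_mul_cancel₀ hKp.ne',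
            Real.rpow_one]
      _ ≤ (y : ℝ) ^ K := pow_le_pow_left₀ (by positivity) hyx K
  have hyZ : y ≤ Z := by
    rw [hZ]
    exact hyM.trans (Nat.le_self_pow (by omega) M)
  have hZ1 : 1 ≤ Z := hy1.trans hyZ
  have hZp : (0 : ℝ) < Z := by exact_mod_cast hZ1
  -- the zeta function as a series
  have hre : 1 < (1 + (σ : ℂ) + s * Complex.I).re := by
    simp
    exact hσ0
  rw [zeta_eq_tsum_one_div_nat_add_one_cpow hre]
  obtain ⟨a, ha⟩ : ∃ a : ℕ → ℂ, ∀ n, a n = ((((n + 1 : ℕ) : ℝ) ^ (-(1 + σ)) : ℝ) : ℂ) *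
      ni s (n + 1) := ⟨_, fun _ => rfl⟩
  have hterm : (fun n : ℕ => 1 / ((n : ℂ) + 1) ^ (1 + (σ : ℂ) + s * Complex.I)) = a := by
    funext n
    rw [ha, zup_term]
  rw [hterm]
  have hnorm : ∀ n, ‖a n‖ = ((n : ℝ) + 1) ^ (-(1 + σ)) := by
    intro n
    rw [ha, norm_mul, zup_ni, mul_one, Complex.norm_real, Real.norm_eq_abs, abs_of_nonneg (by positivity)]
    push_cast
    rfl
  have hpart : ∀ N, ∑ n ∈ range N, ‖a (n + Z)‖ ≤ (Z : ℝ) ^ (-σ) / σ := by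
    intro N
    have h1 := zup_part σ hσ0 Z hZ1 N
    refine le_trans (le_of_eq ?_) h1
    refine sum_congr rfl fun n _ => ?_
    rw [hnorm]
  have hsumN : Summable fun n => ‖a (n + Z)‖ :=
    summable_of_sum_range_le (fun n => norm_nonneg _) hpart
  have htail : ∑' n, ‖a (n + Z)‖ ≤ (Z : ℝ) ^ (-σ) / σ :=
    Real.tsum_le_of_sum_range_le (fun n => norm_nonneg _) hpart
  have hsuma : Summable a := (summable_nat_add_iff Z).1 hsumN.of_norm
  rw [← hsuma.sum_add_tsum_nat_add Z]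
  have hsplit : ∑ i ∈ range Z, a i = ∑ i ∈ range y, a i + ∑ i ∈ Ico y Z, a i :=
    (sum_range_add_sum_Ico a hyZ).symm
  rw [hsplit]
  -- part 1
  have hp1 : ‖∑ i ∈ range y, a i‖ ≤ 1 + Real.log y := by
    refine (norm_sum_le _ _).trans ?_
    have h1 := harmonic_le_one_add_log y
    refine le_trans ?_ h1
    unfold harmonic
    push_cast
    refine sum_le_sum fun i _ => ?_
    rw [hnorm]
    rw [← Real.rpow_neg_one ((i : ℝ) + 1)]
    refine Real.rpow_le_rpow_of_exponent_le ?_ (by linarith)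
    have : (0 : ℝ) ≤ i := Nat.cast_nonneg i
    linarith
  -- part 2
  have hp2 : ‖∑ i ∈ Ico y Z, a i‖ ≤ 1 := by
    have h1 : ∑ i ∈ Ico y Z, a i = ∑ n ∈ Ioc y Z, (((n : ℝ) ^ (-(1 + σ)) : ℝ) : ℂ) * ni s n := by
      have h2 : Ioc y Z = Ico (y + 1) (Z + 1) := by
        ext k
        simp only [mem_Ioc, mem_Ico]
        omega
      rw [h2, ← sum_Ico_add' (fun n : ℕ => (((n : ℝ) ^ (-(1 + σ)) : ℝ) : ℂ) * ni s n) y Z 1]
      exact sum_congr rfl fun n _ => ha n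
    rw [h1]
    refine (zbl (ni s) C c σ hC.le hc0 (by linarith) hσ0.le y Z hy1 ?_).trans ?_
    · intro m m' hm1 hm2 hm3
      refine hzp m m' s (hy1.trans hm1) hm3 ?_ ?_
      · refine le_trans ?_ hs1
        have h2 : (m : ℝ) ≤ ((M : ℝ) ^ L) ^ 2 := by
          have h3 : m ≤ M ^ (2 * L) := by rw [← hZ]; exact hm2
          have h4 : (m : ℝ) ≤ (M : ℝ) ^ (2 * L) := by exact_mod_cast h3
          rw [← pow_mul, mul_comm L 2]
          exact h4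
        rw [← Real.sqrt_eq_rpow]
        exact Real.sqrt_le_iff.2 ⟨by positivity, h2⟩
      · refine hs2.trans ?_
        calc (M : ℝ) ^ (8 * L) ≤ ((y : ℝ) ^ K) ^ (8 * L) := pow_le_pow_left₀ hMp.le hMyK _
          _ = (y : ℝ) ^ (8 * L * K) := by
              rw [← pow_mul]
              congr 1
              ring
          _ ≤ (m : ℝ) ^ (8 * L * K) := by
              refine pow_le_pow_left₀ hyp.le ?_ _
              exact_mod_cast hm1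
    · refine le_trans ?_ hev
      refine mul_le_mul_of_nonneg_left ?_ (by positivity)
      calc (y : ℝ) ^ (-c) ≤ ((M : ℝ) ^ (1 / (K : ℝ))) ^ (-c) :=
            Real.rpow_le_rpow_of_nonpos (by linarith) hyx (by linarith)
        _ = (M : ℝ) ^ (-(c / K)) := by
            rw [← Real.rpow_mul hMp.le]
            congr 1
            ring
  -- part 3
  have hp3 : ‖∑' n, a (n + Z)‖ ≤ Real.exp (-(2 * (L : ℝ))) * Real.log M := by
    refine (norm_tsum_le_tsum_norm hsumN).trans (htail.trans (le_of_eq ?_))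
    have h1 : (Z : ℝ) ^ (-σ) = Real.exp (-(2 * (L : ℝ))) := by
      rw [Real.rpow_def_of_pos hZp, hZ]
      congr 1
      push_cast
      rw [Real.log_pow, hσ]
      push_cast
      field_simp
    rw [h1, hσ]
    field_simp
  have hly : Real.log y ≤ 1 + 1 / (K : ℝ) * Real.log M := by
    have h1 : Real.log y ≤ Real.log (2 * (M : ℝ) ^ (1 / (K : ℝ))) := Real.log_le_log hyp hy2
    rw [Real.log_mul (by norm_num) (by positivity), Real.log_rpow hMp] at h1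
    have h2 : Real.log 2 ≤ 1 := by
      have := Real.log_two_lt_d9
      linarith
    linarith
  have htri : ‖∑ i ∈ range y, a i + ∑ i ∈ Ico y Z, a i + ∑' n, a (n + Z)‖ ≤
      ‖∑ i ∈ range y, a i‖ + ‖∑ i ∈ Ico y Z, a i‖ + ‖∑' n, a (n + Z)‖ := norm_add₃_le
  refine htri.trans ?_
  rw [add_mul]
  linarith

end Pool.H16.SW
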